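import Pool.Agent.Helper83.CD.Half2

/-!
# CD frame F, piece CD-F9c: the Brownian bridge has area zero
-/

set_option autoImplicit false

namespace Pool.Agent.Helper83.CD

open MeasureTheory ProbabilityTheory Metric Set TopologicalSpace
open scoped ENNReal NNReal unitInterval
open Pool.Agent.Helper16.CD

variable {Ω : Type} [MeasurableSpace Ω]

omit [MeasurableSpace Ω] in
private lemma Half_cont {B : ℝ≥0 → Ω → ℝ} {ω : Ω} (h : Continuous fun t => B t ω) :
    Continuous (fbr B ω) := by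
  have h3 : Continuous fun s : I => Real.toNNReal ((s : ℝ) / 2) :=
    continuous_real_toNNReal.comp (continuous_subtype_val.div_const 2)
  have h4 : Continuous fun s : I => (s : ℝ) / 2 := continuous_subtype_val.div_const 2
  unfold fbr
  exact (h.comp h3).sub (h4.mul continuous_const)

omit [MeasurableSpace Ω] in
private lemma Half_left {B : ℝ≥0 → Ω → ℝ} {ω : Ω} (h0 : B 0 ω = 0) {t s : I}
    (hs : (s : ℝ) = 2 * t) : fbr B ω s = bridge B ω t := by
  unfold fbr bridge
  rw [hs, h0, mul_div_cancel_left₀ _ (two_ne_zero : (2 : ℝ) ≠ 0), sub_zero, sub_zero]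

omit [MeasurableSpace Ω] in
private lemma Half_right {B : ℝ≥0 → Ω → ℝ} {ω : Ω} (h0 : B 0 ω = 0) {t s : I}
    (hs : (s : ℝ) = 2 * (1 - t)) : fbr (rev B) ω s = bridge B ω t := by
  have ht0 := t.2.1
  have ht1 := t.2.2
  have e1 : (s : ℝ) / 2 = 1 - t := by rw [hs]; ring
  have e4 : Real.toNNReal (1 - (t : ℝ)) ≤ 1 := by
    rw [Real.toNNReal_le_iff_le_coe, NNReal.coe_one]
    linarith
  have e2 : (1 : ℝ≥0) - Real.toNNReal (1 - t) = Real.toNNReal t := by
    apply NNReal.eq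
    rw [NNReal.coe_sub e4, NNReal.coe_one, Real.coe_toNNReal _ (by linarith),
      Real.coe_toNNReal _ ht0]
    ring
  have e3 : max 1 (Real.toNNReal (1 - (t : ℝ))) = 1 := max_eq_left e4
  unfold fbr bridge rev
  rw [e1, e2, e3, tsub_self, max_self, h0]
  ring

omit [MeasurableSpace Ω] in
private lemma Half_range {B₁ B₂ : ℝ≥0 → Ω → ℝ} {ω : Ω} (h1 : B₁ 0 ω = 0) (h2 : B₂ 0 ω = 0) :
    range (pt (brp B₁ B₂ ω)) ⊆ range (pt (fbr B₁ ω, fbr B₂ ω)) ∪
      range (pt (fbr (rev B₁) ω, fbr (rev B₂) ω)) := by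
  rintro _ ⟨t, rfl⟩
  have ht0 := t.2.1
  have ht1 := t.2.2
  rcases le_total (t : ℝ) (1 / 2) with h | h
  · left
    refine ⟨⟨2 * t, by constructor <;> linarith⟩, ?_⟩
    unfold pt brp
    simp only
    rw [Half_left h1 (t := t) rfl, Half_left h2 (t := t) rfl]
  · right
    refine ⟨⟨2 * (1 - t), by constructor <;> linarith⟩, ?_⟩
    unfold pt brp
    simp only
    rw [Half_right h1 (t := t) rfl, Half_right h2 (t := t) rfl]

/-- piece F10 (the bridge has area zero).
Proof: almost surely `B 0 = 0` (`planar_zero`), then `bridge B ω t = B t - t B 1`; its range is the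
union of the ranges of `fbr B` (`t = s / 2`) and of `s ↦ bridge B ω (1 - s / 2) =
B (1 - s/2) - (1 - s/2) B 1 = rev B (s/2) - (s/2) rev B 1 = fbr (rev B) s`
(`rev B 1 = B 0 + B 1 - 2 B 1 = - B 1`).  `ar_zero_eq`, `measure_union_le`, `area_fbr` for `B` and
for `rev B` (`planar_rev`). -/
theorem area_bridge {P : Measure Ω} [IsProbabilityMeasure P] {B₁ B₂ : ℝ≥0 → Ω → ℝ}
    (h : IsPlanarBM P B₁ B₂) : ∀ᵐ ω ∂P, ar 0 (brp B₁ B₂ ω) = 0 := by
  have hr := planar_rev h
  filter_upwards [area_fbr h, area_fbr hr, planar_zero h] with ω h1 h2 h0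
  have c1 : Continuous (pt (fbr B₁ ω, fbr B₂ ω)) :=
    (Half_cont (h.cont₁ ω)).prodMk (Half_cont (h.cont₂ ω))
  have c2 : Continuous (pt (fbr (rev B₁) ω, fbr (rev B₂) ω)) :=
    (Half_cont (hr.cont₁ ω)).prodMk (Half_cont (hr.cont₂ ω))
  rw [ar_zero_eq c1] at h1
  rw [ar_zero_eq c2] at h2
  rw [ar_zero_eq (continuous_brp h ω)]
  refine le_antisymm ?_ zero_le
  refine (measure_mono (Half_range h0.1 h0.2)).trans ((measure_union_le _ _).trans ?_)
  rw [h1, h2, add_zero]

end Pool.Agent.Helper83.CD
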