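import Pool.Agent.Helper83.CD.Hit1
import Pool.Agent.Helper83.CD.Half

/-!
# CD frame F, piece CD-F5b: fields hit and moment
-/

set_option autoImplicit false

namespace Pool.Agent.Helper83.CD

open MeasureTheory ProbabilityTheory Metric Set TopologicalSpace
open scoped ENNReal NNReal unitInterval
open Pool.Agent.Helper16.CD

variable {Ω : Type} [MeasurableSpace Ω]

/-- maximal displacement -/
private noncomputable def Hit_S (B : ℝ≥0 → Ω → ℝ) (ω : Ω) : ℝ≥0∞ :=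
  ⨆ s : I, edist (B (Real.toNNReal s) ω) (B 0 ω)

private theorem Hit_meas {B : ℝ≥0 → Ω → ℝ} (hm : ∀ t, Measurable (B t))
    (hc : ∀ ω, Continuous fun t => B t ω) : Measurable (Hit_S B) := by
  have h1 : Hit_S B = fun ω => ⨆ n : ℕ, edist (B (Real.toNNReal (denseSeq I n)) ω) (B 0 ω) := by
    funext ω
    unfold Hit_S
    apply le_antisymm
    · refine iSup_le fun s => ?_
      have hcont : Continuous fun s : I => edist (B (Real.toNNReal s) ω) (B 0 ω) := by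
        have h2 : Continuous fun s : I => B (Real.toNNReal s) ω :=
          (hc ω).comp (continuous_real_toNNReal.comp continuous_subtype_val)
        exact h2.edist continuous_const
      have h3 : IsClosed {s : I | edist (B (Real.toNNReal s) ω) (B 0 ω) ≤
          ⨆ n : ℕ, edist (B (Real.toNNReal (denseSeq I n)) ω) (B 0 ω)} :=
        isClosed_le hcont continuous_const
      have h4 : closure (range (denseSeq I)) ⊆ {s : I | edist (B (Real.toNNReal s) ω) (B 0 ω) ≤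
          ⨆ n : ℕ, edist (B (Real.toNNReal (denseSeq I n)) ω) (B 0 ω)} := by
        apply closure_minimal _ h3
        rintro _ ⟨n, rfl⟩
        exact le_iSup (fun n : ℕ => edist (B (Real.toNNReal (denseSeq I n)) ω) (B 0 ω)) n
      rw [(denseRange_denseSeq I).closure_range] at h4
      exact h4 (mem_univ s)
    · exact iSup_le fun n => le_iSup
        (fun s : I => edist (B (Real.toNNReal s) ω) (B 0 ω)) (denseSeq I n)
  rw [h1]
  exact Measurable.iSup fun n => (hm _).edist (hm _)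

private theorem Hit_dur (x : I) : 0 < √(dur x) ∧ √(dur x) ≤ 2 := by
  have h1 := x.2.1
  have h2 := x.2.2
  have h3 : (0 : ℝ) < 1 - 3 / 4 * (x : ℝ) := by linarith
  have h4 : dur x ≤ 4 := by
    unfold dur
    rw [div_le_iff₀ h3]
    linarith
  have h5 : 0 < dur x := by
    unfold dur
    positivity
  refine ⟨Real.sqrt_pos.2 h5, ?_⟩
  rw [Real.sqrt_le_iff]
  constructor
  · norm_num
  · linarith

omit [MeasurableSpace Ω] in
private theorem Hit_one (B : ℝ≥0 → Ω → ℝ) (x s : I) (ω : Ω) :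
    edist (√(dur x) * bridge B ω s) (√(dur x) * bridge B ω 0) ≤ 4 * Hit_S B ω := by
  obtain ⟨hd1, hd2⟩ := Hit_dur x
  have h0 : bridge B ω 0 = 0 := by
    unfold bridge
    simp
  have hs : edist (B (Real.toNNReal s) ω) (B 0 ω) ≤ Hit_S B ω :=
    le_iSup (fun s : I => edist (B (Real.toNNReal s) ω) (B 0 ω)) s
  have h1 : edist (B 1 ω) (B 0 ω) ≤ Hit_S B ω := by
    have h := le_iSup (fun s : I => edist (B (Real.toNNReal s) ω) (B 0 ω)) 1
    have e : Real.toNNReal ((1 : I) : ℝ) = 1 := by simp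
    simp only [e] at h
    exact h
  have hs0 := s.2.1
  have hs1 := s.2.2
  have key : |√(dur x) * bridge B ω s| ≤
      2 * (|B (Real.toNNReal s) ω - B 0 ω| + |B 1 ω - B 0 ω|) := by
    rw [abs_mul, abs_of_pos hd1]
    have h2 : |bridge B ω s| ≤ |B (Real.toNNReal s) ω - B 0 ω| + |B 1 ω - B 0 ω| := by
      unfold bridge
      refine (abs_sub _ _).trans ?_
      rw [abs_mul, abs_of_nonneg hs0]
      have h3 : (s : ℝ) * |B 1 ω - B 0 ω| ≤ 1 * |B 1 ω - B 0 ω| :=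
        mul_le_mul_of_nonneg_right hs1 (abs_nonneg _)
      linarith
    exact mul_le_mul hd2 h2 (abs_nonneg _) (by norm_num)
  rw [h0, mul_zero, edist_dist, Real.dist_eq, sub_zero]
  calc ENNReal.ofReal |√(dur x) * bridge B ω s|
      ≤ ENNReal.ofReal (2 * (|B (Real.toNNReal s) ω - B 0 ω| + |B 1 ω - B 0 ω|)) :=
        ENNReal.ofReal_le_ofReal key
    _ = 2 * (edist (B (Real.toNNReal s) ω) (B 0 ω) + edist (B 1 ω) (B 0 ω)) := by
        rw [ENNReal.ofReal_mul (by norm_num), ENNReal.ofReal_add (abs_nonneg _) (abs_nonneg _),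
          edist_dist, edist_dist, Real.dist_eq, Real.dist_eq]
        norm_num
    _ ≤ 2 * (Hit_S B ω + Hit_S B ω) := by gcongr
    _ = 4 * Hit_S B ω := by ring

/-- piece F5-4 (maximal displacement of the scaled bridge): `dur ≤ 4`, `|bridge s| ≤ 2 sup |B|`. -/
lemma sup_srp_le {P : Measure Ω} {B₁ B₂ : ℝ≥0 → Ω → ℝ} (h : IsPlanarBM P B₁ B₂)
    (q : I × Ω) :
    (⨆ s : I, edist (pt (srp B₁ B₂ q) s) (pt (srp B₁ B₂ q) 0)) ≤
      4 * ((⨆ s : I, edist (B₁ (Real.toNNReal s) q.2) (B₁ 0 q.2)) +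
        ⨆ s : I, edist (B₂ (Real.toNNReal s) q.2) (B₂ 0 q.2)) := by
  refine iSup_le fun s => ?_
  have h1 := Hit_one B₁ q.1 s q.2
  have h2 := Hit_one B₂ q.1 s q.2
  rw [mul_add]
  show edist (√(dur q.1) * bridge B₁ q.2 s, √(dur q.1) * bridge B₂ q.2 s)
    (√(dur q.1) * bridge B₁ q.2 0, √(dur q.1) * bridge B₂ q.2 0) ≤ _
  rw [Prod.edist_eq]
  refine max_le ?_ ?_
  · exact h1.trans le_self_add
  · exact h2.trans le_add_self

private theorem Hit_int {α : Type} [MeasurableSpace α] {μ : Measure α} [IsProbabilityMeasure μ]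
    {P : Measure Ω} [IsProbabilityMeasure P] {g : Ω → ℝ≥0∞} (hg : Measurable g) :
    ∫⁻ q, g q.2 ∂(μ.prod P) = ∫⁻ ω, g ω ∂P := by
  have h1 := lintegral_prod (μ := μ) (ν := P) (fun q : α × Ω => g q.2)
    (hg.comp measurable_snd).aemeasurable
  rw [h1]
  simp

private theorem Hit_fin {P : Measure Ω} [IsProbabilityMeasure P] {B₁ B₂ : ℝ≥0 → Ω → ℝ}
    (h : IsPlanarBM P B₁ B₂) {C : ℝ≥0∞} (hC : C ≠ ⊤) :
    ∫⁻ ω, C * (1 + Hit_S B₁ ω ^ 4 + Hit_S B₂ ω ^ 4) ∂P < ⊤ := by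
  have m1 := Hit_meas h.meas₁ h.cont₁
  have m2 := Hit_meas h.meas₂ h.cont₂
  have i1 : ∫⁻ ω, Hit_S B₁ ω ^ 4 ∂P < ⊤ := lintegral_sup h.bm₁ h.meas₁ h.cont₁
  have i2 : ∫⁻ ω, Hit_S B₂ ω ^ 4 ∂P < ⊤ := lintegral_sup h.bm₂ h.meas₂ h.cont₂
  rw [lintegral_const_mul _ (by fun_prop), lintegral_add_left (by fun_prop),
    lintegral_add_left (by fun_prop)]
  refine ENNReal.mul_lt_top (lt_top_iff_ne_top.2 hC) ?_
  refine ENNReal.add_lt_top.2 ⟨ENNReal.add_lt_top.2 ⟨?_, i1⟩, i2⟩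
  simp

private theorem Hit_ineq1 (a b : ℝ≥0∞) :
    (2 * (4 * (a + b) + 1)) ^ 2 ≤ 396 * (1 + a ^ 4 + b ^ 4) := by
  rcases eq_or_ne a ⊤ with rfl | ha
  · have : (⊤ : ℝ≥0∞) ^ 4 = ⊤ := by simp
    rw [this]
    simp
  rcases eq_or_ne b ⊤ with rfl | hb
  · have : (⊤ : ℝ≥0∞) ^ 4 = ⊤ := by simp
    rw [this]
    simp
  lift a to ℝ≥0 using ha
  lift b to ℝ≥0 using hb
  norm_cast
  have ha0 := a.2
  have hb0 := b.2
  rw [← NNReal.coe_le_coe]
  push_cast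
  nlinarith [sq_nonneg ((a : ℝ) - b), sq_nonneg ((a : ℝ) - 1), sq_nonneg ((b : ℝ) - 1),
    sq_nonneg ((a : ℝ) ^ 2 - 1), sq_nonneg ((b : ℝ) ^ 2 - 1)]

private theorem Hit_ineq2 (a b : ℝ≥0∞) :
    (8 * (a + b)) ^ 4 ≤ 32768 * (1 + a ^ 4 + b ^ 4) := by
  rcases eq_or_ne a ⊤ with rfl | ha
  · have : (⊤ : ℝ≥0∞) ^ 4 = ⊤ := by simp
    rw [this]
    simp
  rcases eq_or_ne b ⊤ with rfl | hb
  · have : (⊤ : ℝ≥0∞) ^ 4 = ⊤ := by simp
    rw [this]
    simp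
  lift a to ℝ≥0 using ha
  lift b to ℝ≥0 using hb
  norm_cast
  have ha0 := a.2
  have hb0 := b.2
  rw [← NNReal.coe_le_coe]
  push_cast
  have h1 : ((a : ℝ) + b) ^ 2 ≤ 2 * ((a : ℝ) ^ 2 + (b : ℝ) ^ 2) := by
    nlinarith [sq_nonneg ((a : ℝ) - b)]
  have h2 : (((a : ℝ) + b) ^ 2) ^ 2 ≤ (2 * ((a : ℝ) ^ 2 + (b : ℝ) ^ 2)) ^ 2 :=
    pow_le_pow_left₀ (by positivity) h1 2
  nlinarith [sq_nonneg ((a : ℝ) ^ 2 - (b : ℝ) ^ 2)]

/-- piece F5-5: finite expected area (`ar_le`, F5-4, `lintegral_sup`). -/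
lemma lintegral_ar_srp_lt {P : Measure Ω} [IsProbabilityMeasure P] {B₁ B₂ : ℝ≥0 → Ω → ℝ}
    (h : IsPlanarBM P B₁ B₂) :
    ∫⁻ q, ar 1 (srp B₁ B₂ q) ∂((volume : Measure I).prod P) < ⊤ := by
  have m1 := Hit_meas h.meas₁ h.cont₁
  have m2 := Hit_meas h.meas₂ h.cont₂
  refine lt_of_le_of_lt (lintegral_mono fun q => ?_)
    (lt_of_eq_of_lt (Hit_int (μ := (volume : Measure I)) (P := P)
      (g := fun ω => 396 * (1 + Hit_S B₁ ω ^ 4 + Hit_S B₂ ω ^ 4)) (by fun_prop))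
      (Hit_fin h (by norm_num)))
  have h1 := ar_le 1 (srp B₁ B₂ q)
  rw [ENNReal.coe_one] at h1
  refine h1.trans ?_
  refine le_trans ?_ (Hit_ineq1 _ _)
  gcongr
  exact sup_srp_le h q

/-- piece F5-6.
Proof: by `lintegral_iInf` and `iInf_ar` the integrals of `ar (1 / (n + 1))` decrease to the
integral of `ar 0 (srp q)`, which is `0`: `ar_smul` with `c = √(dur x)`, `area_bridge`.  So some
`n` has integral `< ε`; take `t = 1 / (n + 1)` and `tsum_hit`. -/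
theorem hit_brown {P : Measure Ω} [IsProbabilityMeasure P] {B₁ B₂ : ℝ≥0 → Ω → ℝ}
    (h : IsPlanarBM P B₁ B₂) (ε : ℝ≥0∞) (hε : 0 < ε) : ∃ t : ℝ, 0 < t ∧ ∀ x : Plane,
      ∑' v : ℤ × ℤ, ((volume : Measure (I × I × I)).prod P)
        {e | (lp (shapeB B₁ B₂) ((0, v), e) ∩ closedBall x t).Nonempty} ≤ ε := by
  have hfin := lintegral_ar_srp_lt h
  have hmeas : ∀ n : ℕ, Measurable fun q : I × Ω => ar (1 / ((n : ℝ≥0∞) + 1)) (srp B₁ B₂ q) :=
    fun n => (measurable_ar _).comp (measurable_srp h)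
  have hanti : Antitone fun (n : ℕ) (q : I × Ω) => ar (1 / ((n : ℝ≥0∞) + 1)) (srp B₁ B₂ q) := by
    intro m n hmn q
    have h1 : (1 : ℝ≥0∞) / ((n : ℝ≥0∞) + 1) ≤ 1 / ((m : ℝ≥0∞) + 1) := by
      apply ENNReal.div_le_div_left
      gcongr
    exact measure_mono fun z hz => le_trans hz h1
  have h0 : ∫⁻ q, ar (1 / (((0 : ℕ) : ℝ≥0∞) + 1)) (srp B₁ B₂ q) ∂((volume : Measure I).prod P)
      ≠ ⊤ := by
    have e : (1 : ℝ≥0∞) / (((0 : ℕ) : ℝ≥0∞) + 1) = 1 := by simp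
    rw [e]
    exact hfin.ne
  have hinf := lintegral_iInf (μ := (volume : Measure I).prod P) hmeas hanti h0
  have hz : ∫⁻ q, ⨅ n : ℕ, ar (1 / ((n : ℝ≥0∞) + 1)) (srp B₁ B₂ q) ∂((volume : Measure I).prod P)
      = 0 := by
    rw [lintegral_eq_zero_iff (Measurable.iInf hmeas)]
    have hb : ∀ᵐ q ∂((volume : Measure I).prod P), ar 0 (brp B₁ B₂ q.2) = 0 :=
      Measure.quasiMeasurePreserving_snd.ae (area_bridge h)
    have hlt : ∀ᵐ q ∂((volume : Measure I).prod P), ar 1 (srp B₁ B₂ q) < ⊤ :=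
      ae_lt_top ((measurable_ar _).comp (measurable_srp h)) hfin.ne
    filter_upwards [hb, hlt] with q hq hq'
    have h2 := iInf_ar (srp B₁ B₂ q) hq'.ne
    have h3 := ar_smul (√(dur q.1)) (Hit_dur q.1).1 (brp B₁ B₂ q.2)
    rw [hq, mul_zero] at h3
    exact h2.trans h3
  rw [hz] at hinf
  have hlt : ⨅ n : ℕ, ∫⁻ q, ar (1 / ((n : ℝ≥0∞) + 1)) (srp B₁ B₂ q) ∂((volume : Measure I).prod P)
      < ε := by
    rw [← hinf]
    exact hε
  obtain ⟨n, hn⟩ := iInf_lt_iff.1 hlt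
  refine ⟨1 / ((n : ℝ) + 1), by positivity, fun x => ?_⟩
  rw [tsum_hit h x _ (by positivity)]
  have e : ENNReal.ofReal (1 / ((n : ℝ) + 1)) = 1 / ((n : ℝ≥0∞) + 1) := by
    rw [ENNReal.ofReal_div_of_pos (by positivity), ENNReal.ofReal_one,
      ENNReal.ofReal_add (by positivity) (by norm_num), ENNReal.ofReal_natCast,
      ENNReal.ofReal_one]
  rw [e]
  exact hn.le

/-- piece F3 (field `moment`).
Proof: `diam (range (u + ·)) ≤ 2 sup` and F5-4: `ofReal (diam ^ 4) ≤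
(8 (S 1 + S 2)) ^ 4 ≤ 8 ^ 4 * 8 * (S 1 ^ 4 + S 2 ^ 4)`; `lintegral_sup`, `lintegral_prod`. -/
theorem moment_brown {P : Measure Ω} [IsProbabilityMeasure P] {B₁ B₂ : ℝ≥0 → Ω → ℝ}
    (h : IsPlanarBM P B₁ B₂) :
    ∫⁻ e, ENNReal.ofReal (diam (shapeB B₁ B₂ e) ^ 4) ∂((volume : Measure (I × I × I)).prod P)
      < ⊤ := by
  have m1 := Hit_meas h.meas₁ h.cont₁
  have m2 := Hit_meas h.meas₂ h.cont₂
  refine lt_of_le_of_lt (lintegral_mono fun e => ?_)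
    (lt_of_eq_of_lt (Hit_int (μ := (volume : Measure (I × I × I))) (P := P)
      (g := fun ω => 32768 * (1 + Hit_S B₁ ω ^ 4 + Hit_S B₂ ω ^ 4)) (by fun_prop))
      (Hit_fin h (by norm_num)))
  refine le_trans ?_ (Hit_ineq2 _ _)
  rw [ENNReal.ofReal_pow diam_nonneg]
  refine pow_le_pow_left₀ (by positivity) ?_ 4
  have hsup := sup_srp_le h (e.1.2.2, e.2)
  have h1 : Metric.ediam (shapeB B₁ B₂ e) ≤ 8 * (Hit_S B₁ e.2 + Hit_S B₂ e.2) := by
    apply Metric.ediam_le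
    have key : ∀ s : I, edist (((e.1.1 : ℝ) + √(dur e.1.2.2) * bridge B₁ e.2 s,
        (e.1.2.1 : ℝ) + √(dur e.1.2.2) * bridge B₂ e.2 s) : Plane)
        ((e.1.1 : ℝ) + √(dur e.1.2.2) * bridge B₁ e.2 0,
        (e.1.2.1 : ℝ) + √(dur e.1.2.2) * bridge B₂ e.2 0) ≤
        4 * (Hit_S B₁ e.2 + Hit_S B₂ e.2) := by
      intro s
      have e1 : edist (((e.1.1 : ℝ) + √(dur e.1.2.2) * bridge B₁ e.2 s,
          (e.1.2.1 : ℝ) + √(dur e.1.2.2) * bridge B₂ e.2 s) : Plane)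
          ((e.1.1 : ℝ) + √(dur e.1.2.2) * bridge B₁ e.2 0,
          (e.1.2.1 : ℝ) + √(dur e.1.2.2) * bridge B₂ e.2 0) =
          edist (pt (srp B₁ B₂ (e.1.2.2, e.2)) s) (pt (srp B₁ B₂ (e.1.2.2, e.2)) 0) := by
        have e2 := edist_add_left ((e.1.1 : ℝ), (e.1.2.1 : ℝ))
          (pt (srp B₁ B₂ (e.1.2.2, e.2)) s) (pt (srp B₁ B₂ (e.1.2.2, e.2)) 0)
        exact e2
      rw [e1]
      exact (le_iSup (fun s : I => edist (pt (srp B₁ B₂ (e.1.2.2, e.2)) s)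
        (pt (srp B₁ B₂ (e.1.2.2, e.2)) 0)) s).trans hsup
    rintro _ ⟨s, rfl⟩ _ ⟨s', rfl⟩
    refine (edist_triangle_right _ _ ((e.1.1 : ℝ) + √(dur e.1.2.2) * bridge B₁ e.2 0,
        (e.1.2.1 : ℝ) + √(dur e.1.2.2) * bridge B₂ e.2 0)).trans ?_
    refine (add_le_add (key s) (key s')).trans (le_of_eq ?_)
    ring
  refine le_trans ?_ h1
  unfold Metric.diam
  exact ENNReal.ofReal_toReal_le

end Pool.Agent.Helper83.CD
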