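import Pool.Agent.Helper83.CD.Good
import Pool.Agent.Helper83.CD.Hit

/-!
# CD frame F, Brownian loops are shapes (complete up to the pieces)
-/

set_option autoImplicit false

namespace Pool.Agent.Helper83.CD

open MeasureTheory ProbabilityTheory Metric Set TopologicalSpace
open scoped ENNReal NNReal unitInterval
open Pool.Agent.Helper16.CD

variable {Ω : Type} [MeasurableSpace Ω]

/-- frame F -/
theorem isShape_brown {P : Measure Ω} [IsProbabilityMeasure P] {B₁ B₂ : ℝ≥0 → Ω → ℝ}
    (h : IsPlanarBM P B₁ B₂) :
    IsShape ((volume : Measure (I × I × I)).prod P) (shapeB B₁ B₂) where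
  prob := inferInstance
  compact e := isCompact_range (continuous_shf h e)
  conn e := isConnected_range (continuous_shf h e)
  root e := ⟨shf B₁ B₂ e 0, ⟨0, rfl⟩, by
    simp only [shf, bridge_zero, mul_zero, add_zero]
    exact ⟨e.1.1.2.1, e.1.1.2.2, e.1.2.1.2.1, e.1.2.1.2.2⟩⟩
  meas := meas_brown h
  moment := moment_brown h
  hit ε hε := hit_brown h ε hε
  good := good_brown h

end Pool.Agent.Helper83.CD
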