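import Pool.Agent.Helper83.CD.Path

/-!
# CD frame F, piece F0b: area functional, scaling and bounds
-/

set_option autoImplicit false

namespace Pool.Agent.Helper83.CD

open MeasureTheory ProbabilityTheory Metric Set TopologicalSpace
open scoped ENNReal NNReal unitInterval Pointwise
open Pool.Agent.Helper16.CD

/-- piece F0b-1 (scaling).
Proof: for `c > 0`, `dd (c z) (c w) = c * dd z w` (`edist_smul₀` in the product, or coordinates:
`edist (c a) (c b) = ‖c‖ₑ * edist a b`, and `ENNReal.mul_iInf_of_ne`), hence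
`{z | dd z (c w) ≤ 0} = c • {z | dd z w ≤ 0}` and `Measure.addHaar_smul` with
`Module.finrank ℝ (ℝ × ℝ) = 2`. -/
lemma ar_smul (c : ℝ) (hc : 0 < c) (w : Pth) :
    ar 0 (fun s => c * w.1 s, fun s => c * w.2 s) = ENNReal.ofReal (c ^ 2) * ar 0 w := by
  have hc0 : c ≠ 0 := hc.ne'
  have hdd : ∀ y : Plane, dd (c • y) (fun s => c * w.1 s, fun s => c * w.2 s) =
      ‖c‖ₑ * dd y w := by
    intro y
    unfold dd
    rw [ENNReal.mul_iInf_of_ne (by simpa using hc0) (by simp)]
    congr 1
    ext n
    have h1 : pt (fun s => c * w.1 s, fun s => c * w.2 s) (denseSeq I n) =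
        c • pt w (denseSeq I n) := rfl
    rw [h1, edist_smul₀]
    rfl
  have hset : {z : Plane | dd z (fun s => c * w.1 s, fun s => c * w.2 s) ≤ 0} =
      c • {z : Plane | dd z w ≤ 0} := by
    ext z
    rw [Set.mem_smul_set_iff_inv_smul_mem₀ hc0]
    have h1 := hdd (c⁻¹ • z)
    rw [smul_inv_smul₀ hc0] at h1
    simp only [mem_ofPred_eq, nonpos_iff_eq_zero, h1, mul_eq_zero]
    constructor
    · rintro (h | h)
      · exact absurd h (by simpa using hc0)
      · exact h
    · exact Or.inr
  unfold ar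
  rw [hset, Measure.addHaar_smul]
  congr 2
  have h2 : Module.finrank ℝ Plane = 2 := by
    change Module.finrank ℝ (ℝ × ℝ) = 2
    rw [Module.finrank_prod, Module.finrank_self]
  rw [h2, abs_of_pos (pow_pos hc 2)]

/-- piece F0b-2 (bound of the area by the maximal displacement).
Proof: if `dd z w ≤ r` then for every `η > 0` there is `n` with
`edist z (pt w (denseSeq I n)) ≤ r + η`, so `edist z (pt w 0) ≤ R + r + η`; so the set is inside
`EMetric.closedBall (pt w 0) (R + r)`, a square: `closedBall_prod_same`, `Real.volume_closedBall`,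
`Measure.volume_eq_prod`, `Measure.prod_prod`.  (If `R = ⊤` the right side is `⊤`.) -/
lemma ar_le (r : ℝ≥0) (w : Pth) :
    ar r w ≤ (2 * ((⨆ s : I, edist (pt w s) (pt w 0)) + r)) ^ 2 := by
  set R : ℝ≥0∞ := ⨆ s : I, edist (pt w s) (pt w 0) with hR
  by_cases hRt : R = ⊤
  · rw [hRt, top_add, ENNReal.mul_top two_ne_zero, ENNReal.top_pow two_ne_zero]
    exact le_top
  have hfin : R + r ≠ ⊤ := ENNReal.add_ne_top.2 ⟨hRt, ENNReal.coe_ne_top⟩
  have hsub : {z : Plane | dd z w ≤ r} ⊆ closedBall (pt w 0) (R + r).toReal := by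
    intro z hz
    have hz' : dd z w ≤ r := hz
    have h1 : edist z (pt w 0) ≤ dd z w + R := by
      unfold dd
      rw [ENNReal.iInf_add]
      refine le_iInf fun n => ?_
      refine (edist_triangle z (pt w (denseSeq I n)) (pt w 0)).trans ?_
      gcongr
      exact le_iSup (fun s : I => edist (pt w s) (pt w 0)) _
    have h2 : edist z (pt w 0) ≤ R + r := by
      refine h1.trans ?_
      rw [add_comm]
      gcongr
    rw [mem_closedBall]
    rw [edist_dist] at h2
    exact (ENNReal.ofReal_le_iff_le_toReal hfin).1 h2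
  unfold ar
  refine (measure_mono hsub).trans ?_
  have h3 : (closedBall (pt w 0) (R + r).toReal : Set Plane) =
      closedBall (pt w 0).1 (R + r).toReal ×ˢ closedBall (pt w 0).2 (R + r).toReal :=
    (closedBall_prod_same _ _ _).symm
  rw [h3, Measure.volume_eq_prod, Measure.prod_prod, Real.volume_closedBall,
    Real.volume_closedBall, ← pow_two, ENNReal.ofReal_mul (by norm_num),
    ENNReal.ofReal_toReal hfin]
  simp

/-- piece F0b-3 (time change): for continuous paths the area depends on the range only -/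
lemma ar_congr {w w' : Pth} (hw : Continuous (pt w)) (hw' : Continuous (pt w'))
    (h : range (pt w) = range (pt w')) (r : ℝ≥0∞) : ar r w = ar r w' := by
  unfold ar
  simp only [dd_eq hw, dd_eq hw', h]

/-- piece F0b-4 (continuity from above at `0`).
Proof: `{z | dd z w ≤ 0} = ⋂ n, {z | dd z w ≤ 1 / (n + 1)}`, `measure_iInter_eq_iInf` or
`tendsto_measure_iInter_atTop`, with finiteness from `h`. -/
lemma iInf_ar (w : Pth) (h : ar 1 w ≠ ⊤) :
    ⨅ n : ℕ, ar (1 / ((n : ℝ≥0∞) + 1)) w = ar 0 w := by
  have hmeas : ∀ ε : ℝ≥0∞, MeasurableSet {z : Plane | dd z w ≤ ε} := fun ε =>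
    (measurable_dd.comp (measurable_id.prodMk measurable_const)) measurableSet_Iic
  have hanti : Antitone fun n : ℕ => {z : Plane | dd z w ≤ 1 / ((n : ℝ≥0∞) + 1)} := by
    intro m n hmn z hz
    have hz' : dd z w ≤ 1 / ((n : ℝ≥0∞) + 1) := hz
    refine hz'.trans ?_
    gcongr
  have h1 := hanti.measure_iInter (μ := (volume : Measure Plane))
    (fun n => (hmeas _).nullMeasurableSet) ⟨0, by
      simp only [Nat.cast_zero, zero_add, div_one]
      exact h⟩
  have h2 : (⋂ n : ℕ, {z : Plane | dd z w ≤ 1 / ((n : ℝ≥0∞) + 1)}) =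
      {z : Plane | dd z w ≤ 0} := by
    ext z
    simp only [mem_iInter, mem_ofPred_eq]
    constructor
    · intro hz
      rw [nonpos_iff_eq_zero]
      by_contra hne
      obtain ⟨n, hn⟩ := ENNReal.exists_inv_nat_lt hne
      have h3 := hz n
      rw [one_div] at h3
      have h4 : ((n : ℝ≥0∞) + 1)⁻¹ ≤ (n : ℝ≥0∞)⁻¹ :=
        ENNReal.inv_le_inv.2 le_self_add
      exact absurd (h3.trans h4) (not_le.2 hn)
    · intro hz n
      exact hz.trans bot_le
  unfold ar
  rw [← h1, h2]

end Pool.Agent.Helper83.CD
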