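import Pool.Agent.Helper83.CD.Law1

/-!
# CD frame F, piece CD-F11a: short times, independence of the end point
-/

set_option autoImplicit false

namespace Pool.Agent.Helper83.CD

open MeasureTheory ProbabilityTheory Metric Set TopologicalSpace
open scoped ENNReal NNReal unitInterval
open Pool.Agent.Helper16.CD

variable {Ω : Type} [MeasurableSpace Ω]

/-- the time `h * s` at the `n`-th point `s` of the dense sequence -/
noncomputable def tm (h : ℝ≥0) (n : ℕ) : ℝ≥0 := h * Real.toNNReal (denseSeq I n)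

/-- piece F11-1 (short times).
Proof: for `ω` with `B 0 ω = 0` (almost all) there is `n` with `|B t ω| ≤ ε / 2` for all
`t ≤ 1 / (n + 1)` (continuity at `0`); the sets `{ω | ∀ s : I, |B (s / (n + 1)) ω| ≤ ε / 2}`
increase to a set of full measure, so one has positive measure; this `h₀ = 1 / (n + 1)` works:
`|shi B 0 (h s) - s * shi B 0 h| ≤ ε`. -/
lemma small_time {P : Measure Ω} {B : ℝ≥0 → Ω → ℝ} (hB : IsPreBrownianReal B P)
    (hm : ∀ t, Measurable (B t)) (hc : ∀ ω, Continuous fun t => B t ω) {ε : ℝ} (hε : 0 < ε) :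
    ∃ h₀ : ℝ≥0, 0 < h₀ ∧ ∀ h : ℝ≥0, h ≤ h₀ →
      0 < P {ω | ∀ n, |shi B 0 (tm h n) ω - (denseSeq I n : ℝ) * shi B 0 h ω| ≤ ε} := by
  have hP : IsProbabilityMeasure P := hB.isGaussianProcess.isProbabilityMeasure
  set A : ℕ → Set Ω := fun m => {ω | ∀ t : ℝ≥0, t ≤ 1 / ((m : ℝ≥0) + 1) →
    |shi B 0 t ω| ≤ ε / 2} with hA
  have hU : (⋃ m, A m) = univ := by
    rw [eq_univ_iff_forall]
    intro ω
    have hcont : Continuous fun t => shi B 0 t ω := by
      unfold shi
      exact ((hc ω).comp (continuous_const.add continuous_id)).sub continuous_const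
    have h0 : shi B 0 0 ω = 0 := by
      unfold shi
      rw [zero_add, sub_self]
    have h1 := Metric.continuous_iff.1 hcont 0 (ε / 2) (by positivity)
    obtain ⟨δ, hδ, h2⟩ := h1
    obtain ⟨m, hm⟩ := exists_nat_one_div_lt hδ
    refine mem_iUnion.2 ⟨m, ?_⟩
    intro t ht
    have h3 : dist t 0 < δ := by
      rw [NNReal.dist_eq]
      have h4 : (t : ℝ) ≤ 1 / ((m : ℝ) + 1) := by exact_mod_cast ht
      rw [NNReal.coe_zero, sub_zero, abs_of_nonneg t.coe_nonneg]
      linarith
    have h5 := h2 t h3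
    simp only [h0, Real.dist_eq, sub_zero] at h5
    exact h5.le
  have hex : ∃ m, P (A m) ≠ 0 := by
    by_contra hcon
    push Not at hcon
    have h1 : P (⋃ m, A m) = 0 := measure_iUnion_null hcon
    rw [hU, measure_univ] at h1
    exact one_ne_zero h1
  obtain ⟨m, hm0⟩ := hex
  refine ⟨1 / ((m : ℝ≥0) + 1), by positivity, ?_⟩
  intro h hh
  refine lt_of_lt_of_le (pos_iff_ne_zero.2 hm0) (measure_mono ?_)
  intro ω hω n
  have hs0 : (0 : ℝ) ≤ (denseSeq I n : ℝ) := (denseSeq I n).2.1
  have hs1 : (denseSeq I n : ℝ) ≤ 1 := (denseSeq I n).2.2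
  have h1 : |shi B 0 h ω| ≤ ε / 2 := hω h hh
  have h2 : |shi B 0 (tm h n) ω| ≤ ε / 2 := by
    refine hω _ (le_trans ?_ hh)
    unfold tm
    have : Real.toNNReal (denseSeq I n : ℝ) ≤ 1 := by
      rw [Real.toNNReal_le_one]
      exact hs1
    calc h * Real.toNNReal (denseSeq I n : ℝ) ≤ h * 1 := mul_le_mul_right this h
      _ = h := mul_one h
  calc |shi B 0 (tm h n) ω - (denseSeq I n : ℝ) * shi B 0 h ω|
      ≤ |shi B 0 (tm h n) ω| + |(denseSeq I n : ℝ) * shi B 0 h ω| := abs_sub _ _
    _ ≤ ε / 2 + 1 * (ε / 2) := by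
        refine add_le_add h2 ?_
        rw [abs_mul, abs_of_nonneg hs0]
        exact mul_le_mul hs1 h1 (abs_nonneg _) (by norm_num)
    _ = ε := by ring

/-- piece F11-2.
Proof: `IsGaussianProcess.indepFun_of_covariance_eq_zero` as in F9-1:
`cov (B (h s) - B 0 - s (B h - B 0)) (B h - B 0) = h s - s h = 0`. -/
lemma indep_line {P : Measure Ω} {B : ℝ≥0 → Ω → ℝ} (hB : IsPreBrownianReal B P)
    (hm : ∀ t, Measurable (B t)) (h : ℝ≥0) :
    IndepFun (fun ω n => shi B 0 (tm h n) ω - (denseSeq I n : ℝ) * shi B 0 h ω)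
      (shi B 0 h) P := by
  have hW : IsPreBrownianReal (fun t ω => shi B 0 t ω) P := hB.shift 0
  have hP : IsProbabilityMeasure P := hB.isGaussianProcess.isProbabilityMeasure
  have hWm : ∀ t, Measurable fun ω => shi B 0 t ω := by
    intro t
    unfold shi
    exact (hm _).sub (hm _)
  have key : IndepFun (fun ω (n : ℕ) => shi B 0 (tm h n) ω - (denseSeq I n : ℝ) * shi B 0 h ω)
      (fun ω (_ : Unit) => shi B 0 h ω) P := by
    refine IsGaussianProcess.indepFun_of_covariance_eq_zero
      (X := fun (n : ℕ) ω => shi B 0 (tm h n) ω - (denseSeq I n : ℝ) * shi B 0 h ω)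
      (Y := fun (_ : Unit) ω => shi B 0 h ω) ?_ ?_ ?_ ?_
    · apply hW.isGaussianProcess.of_isGaussianProcess
      rintro (n | u)
      · classical
        exact ⟨{tm h n, h},
          { toFun x := x ⟨tm h n, by simp⟩ - (denseSeq I n : ℝ) * x ⟨h, by simp⟩
            map_add' x y := by simp; ring
            map_smul' c x := by simp; ring
            cont := by fun_prop }, by intro ω; rfl⟩
      · exact ⟨{h},
          { toFun x := x ⟨h, by simp⟩
            map_add' x y := by simp
            map_smul' c x := by simp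
            cont := by fun_prop }, by intro ω; rfl⟩
    · intro n
      exact ((hWm _).sub ((hWm _).const_mul _)).aemeasurable
    · intro _
      exact (hWm _).aemeasurable
    · intro n _
      have hs0 : (0 : ℝ) ≤ (denseSeq I n : ℝ) := (denseSeq I n).2.1
      have hs1 : (denseSeq I n : ℝ) ≤ 1 := (denseSeq I n).2.2
      have hle : tm h n ≤ h := by
        unfold tm
        have : Real.toNNReal (denseSeq I n : ℝ) ≤ 1 := by
          rw [Real.toNNReal_le_one]
          exact hs1
        calc h * Real.toNNReal (denseSeq I n : ℝ) ≤ h * 1 := mul_le_mul_right this h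
          _ = h := mul_one h
      have hL : ∀ t, MemLp (fun ω => shi B 0 t ω) 2 P := fun t =>
        (hW.isGaussianProcess.hasGaussianLaw_eval t).memLp_two
      have c1 := hW.covariance_fun_eval (tm h n) h
      have c2 := hW.covariance_fun_eval h h
      rw [covariance_fun_sub_left (hL _) ((hL _).const_mul _) (hL _), covariance_const_mul_left,
        c1, c2, min_eq_left hle, min_self]
      unfold tm
      rw [NNReal.coe_mul, Real.coe_toNNReal _ hs0]
      ring
  exact key.comp (φ := id) (ψ := fun y : Unit → ℝ => y ()) measurable_id (measurable_pi_apply _)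

end Pool.Agent.Helper83.CD
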