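import Pool.Agent.Helper83.CD.Block1

/-!
# CD frame F, piece CD-F11b: positive probability for one block
-/

set_option autoImplicit false

namespace Pool.Agent.Helper83.CD

open MeasureTheory ProbabilityTheory Metric Set TopologicalSpace
open scoped ENNReal NNReal unitInterval
open Pool.Agent.Helper16.CD

variable {Ω : Type} [MeasurableSpace Ω]

/-- paths close to the line with end point `δ` on `[0, h]`, with end point very close to `δ` -/
def tube (h : ℝ≥0) (δ ε ε' : ℝ) : Set (ℝ≥0 → ℝ) :=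
  {x | (∀ n, |x (tm h n) - (denseSeq I n : ℝ) * δ| ≤ ε) ∧ |x h - δ| ≤ ε'}

lemma measurableSet_tube (h : ℝ≥0) (δ ε ε' : ℝ) : MeasurableSet (tube h δ ε ε') := by
  have h1 : ∀ n, Measurable fun x : ℝ≥0 → ℝ => |x (tm h n) - (denseSeq I n : ℝ) * δ| := by
    intro n
    have : Measurable fun x : ℝ≥0 → ℝ => x (tm h n) - (denseSeq I n : ℝ) * δ := by fun_prop
    exact this.norm
  have h2 : Measurable fun x : ℝ≥0 → ℝ => |x h - δ| := by
    have : Measurable fun x : ℝ≥0 → ℝ => x h - δ := by fun_prop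
    exact this.norm
  have h3 : tube h δ ε ε' = (⋂ n, {x | |x (tm h n) - (denseSeq I n : ℝ) * δ| ≤ ε}) ∩
      {x | |x h - δ| ≤ ε'} := by
    ext x
    simp [tube]
  rw [h3]
  exact (MeasurableSet.iInter fun n => measurableSet_le (h1 n) measurable_const).inter
    (measurableSet_le h2 measurable_const)

/-- piece F11-3 (one block).
Proof: `P (|shi B 0 h - δ| ≤ ε') > 0` since the law of `shi B 0 h` is `gaussianReal 0 h`,
`h ≠ 0` (`gaussianReal_absolutelyContinuous'`, Lebesgue measure of `[δ-ε', δ+ε']` positive);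
multiply with F11-1 for `ε / 2` by F11-2; on the intersection
`|shi B 0 (h s) - s δ| ≤ ε / 2 + s |shi B 0 h - δ| ≤ ε`. -/
lemma one_block {P : Measure Ω} {B : ℝ≥0 → Ω → ℝ} (hB : IsPreBrownianReal B P)
    (hm : ∀ t, Measurable (B t)) (hc : ∀ ω, Continuous fun t => B t ω) {ε : ℝ} (hε : 0 < ε) :
    ∃ h₀ : ℝ≥0, 0 < h₀ ∧ ∀ h : ℝ≥0, 0 < h → h ≤ h₀ → ∀ (δ ε' : ℝ), 0 < ε' → ε' ≤ ε / 2 →
      0 < P {ω | (fun t => shi B 0 t ω) ∈ tube h δ ε ε'} := by
  obtain ⟨h₀, hh₀, hst⟩ := small_time hB hm hc (half_pos hε)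
  refine ⟨h₀, hh₀, fun h hh0 hh δ ε' hε' hε'' => ?_⟩
  have h1 := hst h hh
  have hlaw : HasLaw (shi B 0 h) (gaussianReal 0 h) P := (hB.shift 0).hasLaw_eval h
  have hind := indep_line hB hm h
  have hS1 : MeasurableSet {x : ℕ → ℝ | ∀ n, |x n| ≤ ε / 2} := by
    have : {x : ℕ → ℝ | ∀ n, |x n| ≤ ε / 2} = ⋂ n, {x : ℕ → ℝ | |x n| ≤ ε / 2} := by
      ext x
      simp
    rw [this]
    refine MeasurableSet.iInter fun n => measurableSet_le ?_ measurable_const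
    exact (measurable_pi_apply n).norm
  have hS2 : MeasurableSet (Icc (δ - ε') (δ + ε')) := measurableSet_Icc
  have hP2 : 0 < P ((shi B 0 h) ⁻¹' Icc (δ - ε') (δ + ε')) := by
    rw [← Measure.map_apply_of_aemeasurable hlaw.aemeasurable hS2, hlaw.map_eq, pos_iff_ne_zero]
    intro h0
    have h2 := gaussianReal_absolutelyContinuous' 0 hh0.ne' h0
    rw [Real.volume_Icc, ENNReal.ofReal_eq_zero] at h2
    linarith
  have hmul := hind.measure_inter_preimage_eq_mul _ _ hS1 hS2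
  have hpos : 0 < P ((fun ω n => shi B 0 (tm h n) ω - (denseSeq I n : ℝ) * shi B 0 h ω) ⁻¹'
      {x : ℕ → ℝ | ∀ n, |x n| ≤ ε / 2} ∩ (shi B 0 h) ⁻¹' Icc (δ - ε') (δ + ε')) := by
    rw [hmul]
    exact ENNReal.mul_pos h1.ne' hP2.ne'
  refine lt_of_lt_of_le hpos (measure_mono ?_)
  rintro ω ⟨hω1, hω2⟩
  have hω1' : ∀ n, |shi B 0 (tm h n) ω - (denseSeq I n : ℝ) * shi B 0 h ω| ≤ ε / 2 := hω1
  have hω2' : |shi B 0 h ω - δ| ≤ ε' := by
    have h3 : shi B 0 h ω ∈ Icc (δ - ε') (δ + ε') := hω2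
    rw [abs_le]
    constructor <;> linarith [h3.1, h3.2]
  refine ⟨fun n => ?_, hω2'⟩
  have hs0 : 0 ≤ (denseSeq I n : ℝ) := (denseSeq I n).2.1
  have hs1 : (denseSeq I n : ℝ) ≤ 1 := (denseSeq I n).2.2
  have e1 : shi B 0 (tm h n) ω - (denseSeq I n : ℝ) * δ =
      (shi B 0 (tm h n) ω - (denseSeq I n : ℝ) * shi B 0 h ω) +
        (denseSeq I n : ℝ) * (shi B 0 h ω - δ) := by ring
  change |shi B 0 (tm h n) ω - (denseSeq I n : ℝ) * δ| ≤ ε
  rw [e1]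
  refine (abs_add_le _ _).trans ?_
  rw [abs_mul, abs_of_nonneg hs0]
  have h4 : (denseSeq I n : ℝ) * |shi B 0 h ω - δ| ≤ 1 * ε' :=
    mul_le_mul hs1 hω2' (abs_nonneg _) zero_le_one
  linarith [hω1' n]

/-- piece F12-2 (`F11-3` with `h₀` independent of `B`: by `law_real` the probability of
`{shi B 0 ∈ tube}` is the same for all `B`). -/
lemma one_block_uniform {P : Measure Ω} {B : ℝ≥0 → Ω → ℝ} (hB : IsPreBrownianReal B P)
    (hm : ∀ t, Measurable (B t)) (hc : ∀ ω, Continuous fun t => B t ω) {ε : ℝ} (hε : 0 < ε) :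
    ∃ h₀ : ℝ≥0, 0 < h₀ ∧ ∀ h : ℝ≥0, 0 < h → h ≤ h₀ → ∀ (δ ε' : ℝ), 0 < ε' → ε' ≤ ε / 2 →
      ∀ B' : ℝ≥0 → Ω → ℝ, IsPreBrownianReal B' P → (∀ t, Measurable (B' t)) →
        0 < P {ω | (fun t => shi B' 0 t ω) ∈ tube h δ ε ε'} := by
  obtain ⟨h₀, hh₀, hst⟩ := one_block hB hm hc hε
  refine ⟨h₀, hh₀, fun h hh0 hh δ ε' hε' hε'' B' hB' hm' => ?_⟩
  have h1 := hst h hh0 hh δ ε' hε' hε''
  have hg : Measurable fun (x : ℝ≥0 → ℝ) (t : ℝ≥0) => x (0 + t) - x 0 :=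
    measurable_pi_lambda _ fun t => by fun_prop
  have hT := hg (measurableSet_tube h δ ε ε')
  have key : ∀ C : ℝ≥0 → Ω → ℝ, (∀ t, Measurable (C t)) →
      P {ω | (fun t => shi C 0 t ω) ∈ tube h δ ε ε'} = (P.map (fun ω t => C t ω))
        ((fun (x : ℝ≥0 → ℝ) (t : ℝ≥0) => x (0 + t) - x 0) ⁻¹' tube h δ ε ε') := by
    intro C hC
    rw [Measure.map_apply (measurable_pi_lambda _ hC) hT]
    rfl
  rw [key B' hm', law_real hB' hB hm' hm, ← key B hm]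
  exact h1

end Pool.Agent.Helper83.CD
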