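import Pool.Agent.Helper83.CD.Block2

/-!
# CD frame F, piece CD-F12a: chain of independent blocks
-/

set_option autoImplicit false

namespace Pool.Agent.Helper83.CD

open MeasureTheory ProbabilityTheory Metric Set TopologicalSpace
open scoped ENNReal NNReal unitInterval
open Pool.Agent.Helper16.CD

variable {Ω : Type} [MeasurableSpace Ω]

/-- piece F12-1 (chain of blocks).
`h₀` of F11-3 depends only on the law of `B`, so it is convenient to assume positivity for all
real Brownian motions on `(Ω, P)` with measurable coordinates and continuous paths.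
Proof: induction on `K`, for all `B` and `δ`: the event is the intersection of
`{shi B 0 ∈ tube h (δ 0) ε ε'}`, determined by `(B t)_{t ≤ h}`, and of the event for
`shi B h`, `K - 1`, `k ↦ δ (k + 1)` (`shi (shi B h) (k h) = shi B (h + k h)`), determined by the
shifted process: independent by `indepFun_shift h`. -/
lemma chain_block {P : Measure Ω} [IsProbabilityMeasure P] (h : ℝ≥0) (ε ε' : ℝ)
    (hpos : ∀ (B : ℝ≥0 → Ω → ℝ), IsPreBrownianReal B P → (∀ t, Measurable (B t)) →
      (∀ ω, Continuous fun t => B t ω) → ∀ δ : ℝ,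
        0 < P {ω | (fun t => shi B 0 t ω) ∈ tube h δ ε ε'})
    (K : ℕ) (B : ℝ≥0 → Ω → ℝ) (hB : IsPreBrownianReal B P)
    (hm : ∀ t, Measurable (B t)) (hc : ∀ ω, Continuous fun t => B t ω) (δ : ℕ → ℝ) :
    0 < P {ω | ∀ k < K, (fun t => shi B (k * h) t ω) ∈ tube h (δ k) ε ε'} := by
  induction K generalizing B δ with
  | zero =>
    have : {ω : Ω | ∀ k < 0, (fun t => shi B (k * h) t ω) ∈ tube h (δ k) ε ε'} = univ := by
      ext ω
      simp
    rw [this, measure_univ]
    exact one_pos
  | succ K ih =>
    have hB' : IsPreBrownianReal (shi B h) P := hB.shift h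
    have hm' : ∀ t, Measurable (shi B h t) := fun t => (hm (h + t)).sub (hm h)
    have hc' : ∀ ω, Continuous fun t => shi B h t ω := by
      intro ω
      have h1 : Continuous fun t : ℝ≥0 => B (h + t) ω :=
        (hc ω).comp (continuous_const.add continuous_id)
      exact h1.sub continuous_const
    have h2 := ih (shi B h) hB' hm' hc' fun k => δ (k + 1)
    have h1 := hpos B hB hm hc (δ 0)
    -- the two functions of independent variables
    set f : Ω → ℝ≥0 → ℝ := fun ω t => B (h + t) ω - B h ω with hf
    set g : Ω → Iic h → ℝ := fun ω t => B t ω with hg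
    have hind : IndepFun f g P := hB.indepFun_shift h
    set G : (Iic h → ℝ) → ℝ≥0 → ℝ := fun y t =>
      y ⟨min t h, mem_Iic.2 (min_le_right _ _)⟩ - y ⟨0, mem_Iic.2 bot_le⟩ with hG
    have hGm : Measurable G := by
      refine measurable_pi_iff.2 fun t => ?_
      exact (measurable_pi_apply _).sub (measurable_pi_apply _)
    set F : ℕ → (ℝ≥0 → ℝ) → ℝ≥0 → ℝ := fun k x t => x (k * h + t) - x (k * h) with hF
    have hFm : ∀ k, Measurable (F k) := by
      intro k
      refine measurable_pi_iff.2 fun t => ?_
      exact (measurable_pi_apply _).sub (measurable_pi_apply _)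
    set S : Set (ℝ≥0 → ℝ) := ⋂ k ∈ Finset.range K, F k ⁻¹' tube h (δ (k + 1)) ε ε' with hS
    have hSm : MeasurableSet S := Finset.measurableSet_biInter _ fun k _ =>
      hFm k (measurableSet_tube _ _ _ _)
    have hTm : MeasurableSet (G ⁻¹' tube h (δ 0) ε ε') := hGm (measurableSet_tube _ _ _ _)
    have e1 : {ω | (fun t => shi B 0 t ω) ∈ tube h (δ 0) ε ε'} =
        g ⁻¹' (G ⁻¹' tube h (δ 0) ε ε') := by
      ext ω
      have a1 : ∀ t : ℝ≥0, t ≤ h → G (g ω) t = shi B 0 t ω := by
        intro t ht
        simp only [hG, hg, shi, zero_add, min_eq_left ht]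
      have a2 : ∀ n, tm h n ≤ h := by
        intro n
        unfold tm
        have : Real.toNNReal (denseSeq I n : ℝ) ≤ 1 :=
          Real.toNNReal_le_one.2 (denseSeq I n).2.2
        exact mul_le_of_le_one_right bot_le this
      simp only [mem_ofPred_eq, mem_preimage, tube, a1 _ (a2 _), a1 _ le_rfl]
    have e2 : {ω | ∀ k < K, (fun t => shi (shi B h) (k * h) t ω) ∈ tube h (δ (k + 1)) ε ε'} =
        f ⁻¹' S := by
      ext ω
      simp only [mem_ofPred_eq, mem_preimage, hS, mem_iInter, Finset.mem_range]
      rfl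
    have e3 : {ω | ∀ k < K + 1, (fun t => shi B (k * h) t ω) ∈ tube h (δ k) ε ε'} =
        f ⁻¹' S ∩ g ⁻¹' (G ⁻¹' tube h (δ 0) ε ε') := by
      rw [← e1, ← e2]
      ext ω
      have key : ∀ k : ℕ, (fun t => shi (shi B h) (k * h) t ω) =
          fun t => shi B (((k + 1 : ℕ) : ℝ≥0) * h) t ω := by
        intro k
        funext t
        simp only [shi]
        have b1 : h + (k * h + t) = ((k + 1 : ℕ) : ℝ≥0) * h + t := by push_cast; ring
        have b2 : h + k * h = ((k + 1 : ℕ) : ℝ≥0) * h := by push_cast; ring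
        rw [b1, b2]
        ring
      simp only [mem_ofPred_eq, mem_inter_iff, key]
      constructor
      · intro hk
        refine ⟨fun k hk' => hk (k + 1) (by omega), ?_⟩
        have := hk 0 (by omega)
        simpa using this
      · rintro ⟨ha, hb⟩ k hk
        rcases Nat.eq_zero_or_pos k with rfl | hk0
        · simpa using hb
        · obtain ⟨j, rfl⟩ : ∃ j, k = j + 1 := ⟨k - 1, by omega⟩
          exact ha j (by omega)
    rw [e3, hind.measure_inter_preimage_eq_mul _ _ hSm hTm, ← e1, ← e2]
    exact ENNReal.mul_pos h2.ne' h1.ne'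

end Pool.Agent.Helper83.CD
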