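import Pool.Agent.Helper83.CD.Path

/-!
# CD frame F, piece CD-F4: unfolding of sums over translates
-/

set_option autoImplicit false

namespace Pool.Agent.Helper83.CD

open MeasureTheory ProbabilityTheory Metric Set TopologicalSpace
open scoped ENNReal NNReal unitInterval
open Pool.Agent.Helper16.CD

private lemma FD_one (f : ℝ → ℝ≥0∞) :
    ∑' n : ℤ, ∫⁻ u : I, f ((n : ℝ) + u) = ∫⁻ y, f y := by
  have h1 : ∀ n : ℤ, ∫⁻ u : I, f ((n : ℝ) + u) = ∫⁻ y in Ioc (n : ℝ) (n + 1), f y := by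
    intro n
    have h2 : ∫⁻ u : I, f ((n : ℝ) + u) = ∫⁻ u in Icc (0 : ℝ) 1, f ((n : ℝ) + u) :=
      lintegral_subtype_comap measurableSet_Icc fun u => f ((n : ℝ) + u)
    rw [h2, ← lintegral_indicator measurableSet_Icc, ← lintegral_indicator measurableSet_Ioc]
    have h3 : (Icc (0 : ℝ) 1).indicator (fun u => f ((n : ℝ) + u)) =
        fun u => (Icc (n : ℝ) (n + 1)).indicator f ((n : ℝ) + u) := by
      funext u
      by_cases hu : u ∈ Icc (0 : ℝ) 1
      · rw [indicator_of_mem hu, indicator_of_mem]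
        exact ⟨by linarith [hu.1], by linarith [hu.2]⟩
      · rw [indicator_of_notMem hu, indicator_of_notMem]
        intro h
        exact hu ⟨by linarith [h.1], by linarith [h.2]⟩
    rw [h3, lintegral_add_left_eq_self ((Icc (n : ℝ) (n + 1)).indicator f) (n : ℝ)]
    rw [lintegral_indicator measurableSet_Icc, lintegral_indicator measurableSet_Ioc]
    exact (setLIntegral_congr Ioc_ae_eq_Icc).symm
  rw [tsum_congr h1, ← lintegral_iUnion (fun n : ℤ => measurableSet_Ioc)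
    (pairwise_disjoint_Ioc_intCast ℝ), iUnion_Ioc_intCast, Measure.restrict_univ]

/-- piece F4 (unfolding).
Proof: one dimension first: for measurable `f : ℝ → ℝ≥0∞`,
`∑' n : ℤ, ∫⁻ u : I, f (n + u) = ∫⁻ y, f y`: the integral over `I` is
`∫⁻ u in Icc 0 1` (`lintegral_subtype_comap` or `volume_image_subtype_coe`), translate to
`Icc n (n+1)`, almost everywhere `Ioc n (n+1)`, and `lintegral_iUnion` with `iUnion_Ioc_intCast`.
Then twice, with `lintegral_prod` and `ENNReal.tsum_prod`, `lintegral_tsum`. -/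
lemma fold {F : Plane → ℝ≥0∞} (hF : Measurable F) :
    ∑' v : ℤ × ℤ, ∫⁻ u : I × I, F ((v.1 : ℝ) + u.1, (v.2 : ℝ) + u.2) = ∫⁻ y, F y := by
  have hm : ∀ a b : ℤ, Measurable fun u : I × I => F ((a : ℝ) + u.1, (b : ℝ) + u.2) := by
    intro a b
    exact hF.comp ((measurable_const.add (measurable_subtype_coe.comp measurable_fst)).prodMk
      (measurable_const.add (measurable_subtype_coe.comp measurable_snd)))
  have h1 : ∀ a b : ℤ, ∫⁻ u : I × I, F ((a : ℝ) + u.1, (b : ℝ) + u.2) =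
      ∫⁻ x : I, ∫⁻ y : I, F ((a : ℝ) + x, (b : ℝ) + y) := by
    intro a b
    rw [Measure.volume_eq_prod]
    exact lintegral_prod _ (hm a b).aemeasurable
  have h2 : ∀ x : ℝ, ∑' b : ℤ, ∫⁻ y : I, F (x, (b : ℝ) + y) = ∫⁻ y : ℝ, F (x, y) := by
    intro x
    exact FD_one fun y => F (x, y)
  have h3 : ∀ a : ℤ, ∑' b : ℤ, ∫⁻ x : I, ∫⁻ y : I, F ((a : ℝ) + x, (b : ℝ) + y) =
      ∫⁻ x : I, ∫⁻ y : ℝ, F ((a : ℝ) + x, y) := by
    intro a
    rw [← lintegral_tsum]
    · exact lintegral_congr fun x => h2 _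
    · intro b
      exact (Measurable.lintegral_prod_right' (hm a b)).aemeasurable
  have h4 : ∑' v : ℤ × ℤ, ∫⁻ u : I × I, F ((v.1 : ℝ) + u.1, (v.2 : ℝ) + u.2) =
      ∑' (a : ℤ) (b : ℤ), ∫⁻ u : I × I, F ((a : ℝ) + u.1, (b : ℝ) + u.2) :=
    ENNReal.tsum_prod (f := fun a b : ℤ =>
      ∫⁻ u : I × I, F ((a : ℝ) + u.1, (b : ℝ) + u.2))
  rw [h4]
  simp only [h1]
  rw [tsum_congr h3, FD_one fun x : ℝ => ∫⁻ y : ℝ, F (x, y), Measure.volume_eq_prod]
  exact (lintegral_prod _ hF.aemeasurable).symm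

end Pool.Agent.Helper83.CD
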