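import Pool.Agent.Helper83.CD.Chain


/-!
# CD frame F, piece CD-F12b: support theorem
-/

set_option autoImplicit false

namespace Pool.Agent.Helper83.CD

open MeasureTheory ProbabilityTheory Metric Set TopologicalSpace
open scoped ENNReal NNReal unitInterval
open Pool.Agent.Helper16.CD

variable {Ω : Type} [MeasurableSpace Ω]

/-- `γ` at the time `k / K` -/
private noncomputable def gk (γ : I → ℝ) (K k : ℕ) : ℝ :=
  γ (projIcc 0 1 zero_le_one ((k : ℝ) / K))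

private lemma gk_of_le (γ : I → ℝ) {K k : ℕ} (hk : k ≤ K) (hK : 0 < K) :
    ∃ s : I, (s : ℝ) = (k : ℝ) / K ∧ gk γ K k = γ s := by
  have hK' : (0 : ℝ) < K := by exact_mod_cast hK
  have h1 : (k : ℝ) / K ∈ Icc (0 : ℝ) 1 :=
    ⟨by positivity, by rw [div_le_one hK']; exact_mod_cast hk⟩
  exact ⟨⟨_, h1⟩, rfl, by rw [gk, projIcc_of_mem _ h1]⟩

private lemma grid_bound {x : ℝ≥0 → ℝ} (γ : I → ℝ) (hγ0 : γ 0 = 0) {K : ℕ} (hK : 0 < K)
    {h : ℝ≥0} {ε' : ℝ}
    (hx : ∀ k < K, |x (k * h + h) - x (k * h) - (gk γ K (k + 1) - gk γ K k)| ≤ ε') (k : ℕ)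
    (hk : k ≤ K) : |x (k * h) - x 0 - gk γ K k| ≤ k * ε' := by
  induction k with
  | zero =>
    obtain ⟨s, hs, hs'⟩ := gk_of_le γ (Nat.zero_le K) hK
    have h0 : s = 0 := by
      ext
      rw [hs]
      simp
    rw [hs', h0, hγ0]
    simp
  | succ k ih =>
    have h1 := ih (by omega)
    have h2 := hx k (by omega)
    have h3 : ((k + 1 : ℕ) : ℝ≥0) * h = k * h + h := by
      push_cast
      ring
    rw [h3]
    have h4 : x (k * h + h) - x 0 - gk γ K (k + 1) = (x (k * h) - x 0 - gk γ K k) +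
        (x (k * h + h) - x (k * h) - (gk γ K (k + 1) - gk γ K k)) := by ring
    rw [h4]
    calc _ ≤ _ := abs_add_le _ _
      _ ≤ k * ε' + ε' := add_le_add h1 h2
      _ = ((k + 1 : ℕ) : ℝ) * ε' := by push_cast; ring

private lemma tube_all {x : ℝ≥0 → ℝ} (hx : Continuous x) {a h : ℝ≥0} {δ ε : ℝ}
    (ht : ∀ n, |x (a + tm h n) - x a - (denseSeq I n : ℝ) * δ| ≤ ε) (s : I) :
    |x (a + h * Real.toNNReal s) - x a - (s : ℝ) * δ| ≤ ε := by
  have h4 : Continuous fun s : I => Real.toNNReal s :=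
    continuous_real_toNNReal.comp continuous_subtype_val
  have h3 : Continuous fun s : I => |x (a + h * Real.toNNReal s) - x a - (s : ℝ) * δ| := by
    exact (((hx.comp (continuous_const.add (continuous_const.mul h4))).sub
      continuous_const).sub (continuous_subtype_val.mul continuous_const)).abs
  have h5 : IsClosed {s : I | |x (a + h * Real.toNNReal s) - x a - (s : ℝ) * δ| ≤ ε} :=
    isClosed_le h3 continuous_const
  have h6 : closure (range (denseSeq I)) ⊆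
      {s : I | |x (a + h * Real.toNNReal s) - x a - (s : ℝ) * δ| ≤ ε} := by
    refine closure_minimal ?_ h5
    rintro _ ⟨n, rfl⟩
    exact ht n
  rw [(denseRange_denseSeq I).closure_range] at h6
  exact h6 (mem_univ s)

private lemma supp_dense {x : ℝ≥0 → ℝ} (hx : Continuous x) (a h : ℝ≥0) (δ ε : ℝ)
    (hd : ∀ n, |x (a + tm h n) - x a - (denseSeq I n : ℝ) * δ| ≤ ε) (s : I) :
    |x (a + h * Real.toNNReal s) - x a - (s : ℝ) * δ| ≤ ε := by
  have hc : Continuous fun s : I => |x (a + h * Real.toNNReal s) - x a - (s : ℝ) * δ| := by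
    have h3 : Continuous fun s : I => a + h * Real.toNNReal s :=
      continuous_const.add
        (continuous_const.mul (continuous_real_toNNReal.comp continuous_subtype_val))
    exact (((hx.comp h3).sub continuous_const).sub
      (continuous_subtype_val.mul continuous_const)).abs
  exact (denseRange_denseSeq I).induction_on
    (p := fun s : I => |x (a + h * Real.toNNReal s) - x a - (s : ℝ) * δ| ≤ ε) s
    (isClosed_le hc continuous_const) hd

private lemma supp_det {x : ℝ≥0 → ℝ} (hx : Continuous x) {γ : I → ℝ} (hγ0 : γ 0 = 0) {K : ℕ}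
    (hK : 0 < K) {ε : ℝ} (hε : 0 < ε)
    (hu : ∀ s t : I, |(s : ℝ) - t| ≤ 1 / K → |γ s - γ t| ≤ ε / 8)
    (hx1 : ∀ k < K, (fun t => x (k * (K : ℝ≥0)⁻¹ + t) - x (k * (K : ℝ≥0)⁻¹)) ∈
      tube (K : ℝ≥0)⁻¹ (γ (projIcc 0 1 zero_le_one (((k : ℝ) + 1) / K)) -
        γ (projIcc 0 1 zero_le_one ((k : ℝ) / K))) (ε / 4) (ε / (8 * K))) (t : I) :
    |x (Real.toNNReal t) - x 0 - γ t| ≤ ε := by
  have hKr : (0 : ℝ) < K := by exact_mod_cast hK
  have hK1 : (1 : ℝ) ≤ K := by exact_mod_cast hK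
  have hKn : (K : ℝ≥0) ≠ 0 := by exact_mod_cast hK.ne'
  -- values at the grid
  have hsum : ∀ k : ℕ, k ≤ K → |x (k * (K : ℝ≥0)⁻¹) - x 0 -
      γ (projIcc 0 1 zero_le_one ((k : ℝ) / K))| ≤ k * (ε / (8 * K)) := by
    intro k
    induction k with
    | zero =>
      intro _
      have : (projIcc (0 : ℝ) 1 zero_le_one (((0 : ℕ) : ℝ) / K)) = 0 := by
        rw [Nat.cast_zero, zero_div]
        exact projIcc_left (zero_le_one (α := ℝ))
      rw [this, hγ0]
      simp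
    | succ k ih =>
      intro hk
      have h1 := ih (by omega)
      have h2 := (hx1 k (by omega)).2
      have h3 : ((k + 1 : ℕ) : ℝ≥0) * (K : ℝ≥0)⁻¹ = k * (K : ℝ≥0)⁻¹ + (K : ℝ≥0)⁻¹ := by
        push_cast
        ring
      have h4 : (((k + 1 : ℕ) : ℝ)) / K = ((k : ℝ) + 1) / K := by
        push_cast
        ring
      rw [h3, h4]
      simp only at h2
      have h5 : ((k + 1 : ℕ) : ℝ) * (ε / (8 * K)) = k * (ε / (8 * K)) + ε / (8 * K) := by
        push_cast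
        ring
      rw [h5]
      rw [abs_le] at h1 h2 ⊢
      constructor <;> linarith [h1.1, h1.2, h2.1, h2.2]
  have ht0 := t.2.1
  have ht1 := t.2.2
  have hKe : (K : ℝ) * (ε / (8 * K)) = ε / 8 := by
    field_simp
  rcases Nat.lt_or_ge ⌊(t : ℝ) * K⌋₊ K with hk | hk
  · -- inside
    set k := ⌊(t : ℝ) * K⌋₊ with hkdef
    have hf1 : (k : ℝ) ≤ t * K := Nat.floor_le (by positivity)
    have hf2 : (t : ℝ) * K < k + 1 := Nat.lt_floor_add_one _
    have hs : (t : ℝ) * K - k ∈ I := ⟨by linarith, by linarith⟩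
    have hd := supp_dense hx (k * (K : ℝ≥0)⁻¹) (K : ℝ≥0)⁻¹ _ _ (hx1 k hk).1 ⟨_, hs⟩
    have hteq : (k : ℝ≥0) * (K : ℝ≥0)⁻¹ + (K : ℝ≥0)⁻¹ * Real.toNNReal ((t : ℝ) * K - k) =
        Real.toNNReal t := by
      apply NNReal.coe_injective
      push_cast
      rw [Real.coe_toNNReal _ hs.1, Real.coe_toNNReal _ ht0]
      field_simp
      ring
    simp only at hd
    rw [hteq] at hd
    have hk0 : (0 : ℝ) ≤ k := Nat.cast_nonneg _
    have hkK : (k : ℝ) + 1 ≤ K := by exact_mod_cast hk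
    have hm1 : (k : ℝ) / K ∈ Icc (0 : ℝ) 1 := ⟨by positivity, by
      rw [div_le_one hKr]
      linarith⟩
    have hm2 : ((k : ℝ) + 1) / K ∈ Icc (0 : ℝ) 1 := ⟨by positivity, by
      rw [div_le_one hKr]
      exact hkK⟩
    rw [projIcc_of_mem (zero_le_one (α := ℝ)) hm1, projIcc_of_mem (zero_le_one (α := ℝ)) hm2] at hd
    have h1 := hsum k hk.le
    rw [projIcc_of_mem (zero_le_one (α := ℝ)) hm1] at h1
    have h2 : |γ ⟨_, hm2⟩ - γ ⟨_, hm1⟩| ≤ ε / 8 := by
      refine hu _ _ ?_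
      simp only
      rw [← sub_div, add_sub_cancel_left, abs_of_pos (by positivity)]
    have h3 : |γ ⟨_, hm1⟩ - γ t| ≤ ε / 8 := by
      refine hu _ _ ?_
      simp only
      have e1 : (k : ℝ) / K - t = -(((t : ℝ) * K - k) / K) := by
        field_simp
        ring
      rw [e1, abs_neg, abs_of_nonneg (div_nonneg hs.1 hKr.le)]
      exact div_le_div_of_nonneg_right hs.2 hKr.le
    have h4 : (k : ℝ) * (ε / (8 * K)) ≤ ε / 8 := by
      rw [← hKe]
      exact mul_le_mul_of_nonneg_right (by linarith) (by positivity)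
    have h5 : |((t : ℝ) * K - k) * (γ ⟨_, hm2⟩ - γ ⟨_, hm1⟩)| ≤ ε / 8 := by
      rw [abs_mul, abs_of_nonneg hs.1]
      calc ((t : ℝ) * K - k) * |γ ⟨_, hm2⟩ - γ ⟨_, hm1⟩| ≤ 1 * (ε / 8) :=
            mul_le_mul hs.2 h2 (abs_nonneg _) zero_le_one
        _ = ε / 8 := one_mul _
    rw [abs_le] at hd h1 h3 h5 ⊢
    constructor <;> linarith [hd.1, hd.2, h1.1, h1.2, h3.1, h3.2, h5.1, h5.2]
  · -- the end point
    have hf1 : ((⌊(t : ℝ) * K⌋₊ : ℕ) : ℝ) ≤ t * K := Nat.floor_le (by positivity)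
    have hkr : (K : ℝ) ≤ (⌊(t : ℝ) * K⌋₊ : ℕ) := by exact_mod_cast hk
    have ht : (1 : ℝ) ≤ t := by
      by_contra hlt
      rw [not_le] at hlt
      nlinarith
    have ht2 : (t : ℝ) = 1 := le_antisymm ht1 ht
    have ht3 : t = 1 := Subtype.ext ht2
    have h1 := hsum K le_rfl
    rw [mul_inv_cancel₀ hKn, div_self hKr.ne', hKe] at h1
    have h2 : projIcc (0 : ℝ) 1 zero_le_one 1 = t := by
      rw [ht3]
      exact projIcc_right (zero_le_one (α := ℝ))
    rw [h2] at h1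
    rw [ht2, Real.toNNReal_one]
    linarith

/-- piece F12-3 (support theorem).
Proof: `ε / 4` in F12-2, `K` large with `1 / K ≤ h₀`, `|γ t - γ t'| ≤ ε / 4` for
`|t - t'| ≤ 1 / K` in `[0, 1]`, `h = 1 / K`, `ε' = ε / (8 K)`, `δ k = γ ((k + 1) h) - γ (k h)`.
On the event of `chain_block`: `|B (k h) - B 0 - γ (k h)| ≤ k ε' ≤ ε / 8` and for `t` in
`[k h, (k + 1) h]`, `t = k h + h s`: `|B t - B (k h) - s δ k| ≤ ε / 4` (for all `s : I` by
density and continuity), `|γ t - γ (k h) - s δ k| ≤ ε / 2`; total `< ε`. -/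
theorem support {P : Measure Ω} [IsProbabilityMeasure P] {B : ℝ≥0 → Ω → ℝ}
    (hB : IsPreBrownianReal B P)
    (hm : ∀ t, Measurable (B t)) (hc : ∀ ω, Continuous fun t => B t ω) (γ : I → ℝ)
    (hγ : Continuous γ) (hγ0 : γ 0 = 0) {ε : ℝ} (hε : 0 < ε) :
    0 < P {ω | ∀ n, |B (Real.toNNReal (denseSeq I n)) ω - B 0 ω - γ (denseSeq I n)| ≤ ε} := by
  have hε4 : 0 < ε / 4 := by linarith
  obtain ⟨h₀, hh₀, hst⟩ := one_block_uniform hB hm hc hε4
  have hu : UniformContinuous γ := CompactSpace.uniformContinuous_of_continuous hγ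
  obtain ⟨η, hη, hγη⟩ := Metric.uniformContinuous_iff.1 hu (ε / 4) hε4
  obtain ⟨K, hK⟩ := exists_nat_gt (max (1 / (h₀ : ℝ)) (1 / η))
  have hK0 : (0 : ℝ) < K := lt_of_le_of_lt (le_max_of_le_right (by positivity)) hK
  have hKn : 0 < K := by exact_mod_cast hK0
  have hK1 : 1 / (K : ℝ) ≤ h₀ := by
    have h1 : 1 / (h₀ : ℝ) < K := lt_of_le_of_lt (le_max_left _ _) hK
    have h2 : (0 : ℝ) < h₀ := hh₀
    rw [div_lt_iff₀ h2] at h1
    rw [div_le_iff₀ hK0]
    linarith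
  have hK2 : 1 / (K : ℝ) < η := by
    have h1 : 1 / η < K := lt_of_le_of_lt (le_max_right _ _) hK
    rw [div_lt_iff₀ hη] at h1
    rw [div_lt_iff₀ hK0]
    linarith
  have hK1' : (1 : ℝ) ≤ K := by exact_mod_cast hKn
  set h : ℝ≥0 := 1 / (K : ℝ≥0) with hh
  have hhr : (h : ℝ) = 1 / K := by
    rw [hh]
    push_cast
    rfl
  have hhpos : 0 < h := by
    have : (0 : ℝ) < h := by rw [hhr]; positivity
    exact_mod_cast this
  have hhle : h ≤ h₀ := by
    have : (h : ℝ) ≤ h₀ := by rw [hhr]; exact hK1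
    exact_mod_cast this
  have hε' : 0 < ε / (8 * K) := by positivity
  have hε'' : ε / (8 * K) ≤ ε / 4 / 2 := by
    rw [div_le_iff₀ (by positivity)]
    nlinarith
  have key := chain_block (P := P) h (ε / 4) (ε / (8 * K))
    (fun B' hB' hm' _ δ => hst h hhpos hhle δ _ hε' hε'' B' hB' hm') K B hB hm hc
    (fun k => gk γ K (k + 1) - gk γ K k)
  refine lt_of_lt_of_le key (measure_mono ?_)
  intro ω hω n
  have hx := hc ω
  have hω1 : ∀ k < K, |B (k * h + h) ω - B (k * h) ω - (gk γ K (k + 1) - gk γ K k)| ≤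
      ε / (8 * K) := fun k hk => (hω k hk).2
  have hω2 : ∀ k < K, ∀ n, |B (k * h + tm h n) ω - B (k * h) ω -
      (denseSeq I n : ℝ) * (gk γ K (k + 1) - gk γ K k)| ≤ ε / 4 := fun k hk => (hω k hk).1
  set s : I := denseSeq I n with hs
  -- the block of `s`
  obtain ⟨k, hkK, s', hs'⟩ : ∃ k : ℕ, k < K ∧ ∃ s' : I, (s : ℝ) = (k + s') / K := by
    have h0 : (0 : ℝ) ≤ K * s := mul_nonneg hK0.le s.2.1
    by_cases hs1 : (s : ℝ) < 1
    · have h1 := Nat.floor_le h0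
      have h2 := Nat.lt_floor_add_one ((K : ℝ) * s)
      refine ⟨⌊(K : ℝ) * s⌋₊, ?_, ⟨(K : ℝ) * s - ⌊(K : ℝ) * s⌋₊, by linarith, by linarith⟩, ?_⟩
      · have h3 : ((⌊(K : ℝ) * s⌋₊ : ℕ) : ℝ) < K := by
          nlinarith
        exact_mod_cast h3
      · field_simp
        ring
    · have h1 : (s : ℝ) = 1 := le_antisymm s.2.2 (not_lt.1 hs1)
      refine ⟨K - 1, by omega, 1, ?_⟩
      rw [h1, Nat.cast_sub hKn]
      field_simp
      simp
  have h1 := grid_bound (x := fun t => B t ω) γ hγ0 hKn hω1 k hkK.le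
  have h2 := tube_all hx (hω2 k hkK) s'
  have ht : Real.toNNReal (s : ℝ) = k * h + h * Real.toNNReal (s' : ℝ) := by
    ext
    push_cast
    rw [Real.coe_toNNReal _ s.2.1, Real.coe_toNNReal _ s'.2.1, hhr, hs']
    ring
  rw [ht]
  obtain ⟨a, ha, ha'⟩ := gk_of_le γ hkK.le hKn
  obtain ⟨b, hb, hb'⟩ := gk_of_le γ (Nat.succ_le_of_lt hkK) hKn
  have h3 : |γ s - gk γ K k| ≤ ε / 4 := by
    rw [ha']
    have h5 : dist s a < η := by
      rw [Subtype.dist_eq, Real.dist_eq, ha, hs', add_div, add_sub_cancel_left,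
        abs_of_nonneg (div_nonneg s'.2.1 hK0.le)]
      refine lt_of_le_of_lt ?_ hK2
      exact div_le_div_of_nonneg_right s'.2.2 hK0.le
    have h6 := hγη h5
    rw [Real.dist_eq] at h6
    exact h6.le
  have h4 : |gk γ K (k + 1) - gk γ K k| ≤ ε / 4 := by
    rw [ha']
    have hb'' : gk γ K (k + 1) = γ b := hb'
    rw [hb'']
    have h5 : dist b a < η := by
      rw [Subtype.dist_eq, Real.dist_eq, ha, hb]
      have h7 : ((k.succ : ℕ) : ℝ) / K - k / K = 1 / K := by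
        push_cast
        ring
      rw [h7, abs_of_nonneg (by positivity)]
      exact hK2
    have h6 := hγη h5
    rw [Real.dist_eq] at h6
    exact h6.le
  have h5 : |(s' : ℝ) * (gk γ K (k + 1) - gk γ K k)| ≤ ε / 4 := by
    rw [abs_mul, abs_of_nonneg s'.2.1]
    calc (s' : ℝ) * |gk γ K (k + 1) - gk γ K k| ≤ 1 * |gk γ K (k + 1) - gk γ K k| :=
          mul_le_mul_of_nonneg_right s'.2.2 (abs_nonneg _)
      _ ≤ ε / 4 := by rw [one_mul]; exact h4
  have h6 : (k : ℝ) * (ε / (8 * K)) ≤ ε / 8 := by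
    have h7 : (k : ℝ) ≤ K := by exact_mod_cast hkK.le
    have h8 : (k : ℝ) * (ε / (8 * K)) = ε / 8 * (k / K) := by
      field_simp
    rw [h8]
    have h9 : (k : ℝ) / K ≤ 1 := by
      rw [div_le_one hK0]
      exact h7
    nlinarith
  rw [abs_le] at h1 h2 h3 h5 ⊢
  constructor <;> linarith [h1.1, h1.2, h2.1, h2.2, h3.1, h3.2, h5.1, h5.2]

/-- the paths close to `γ` -/
private def near (γ : I → ℝ) (ε : ℝ) : Set (ℝ≥0 → ℝ) :=
  {x | ∀ n, |x (Real.toNNReal (denseSeq I n)) - x 0 - γ (denseSeq I n)| ≤ ε}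

private lemma measurableSet_near (γ : I → ℝ) (ε : ℝ) : MeasurableSet (near γ ε) := by
  have h1 : ∀ n, Measurable fun x : ℝ≥0 → ℝ =>
      |x (Real.toNNReal (denseSeq I n)) - x 0 - γ (denseSeq I n)| := by
    intro n
    have : Measurable fun x : ℝ≥0 → ℝ =>
      x (Real.toNNReal (denseSeq I n)) - x 0 - γ (denseSeq I n) := by fun_prop
    exact this.norm
  have h3 : near γ ε =
      ⋂ n, {x | |x (Real.toNNReal (denseSeq I n)) - x 0 - γ (denseSeq I n)| ≤ ε} := by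
    ext x
    simp [near]
  rw [h3]
  exact MeasurableSet.iInter fun n => measurableSet_le (h1 n) measurable_const

private lemma near_all {x : ℝ≥0 → ℝ} (hx : Continuous x) {γ : I → ℝ} (hγ : Continuous γ)
    {ε : ℝ} (h : x ∈ near γ ε) (s : I) : |x (Real.toNNReal s) - x 0 - γ s| ≤ ε := by
  have h3 : Continuous fun s : I => |x (Real.toNNReal s) - x 0 - γ s| := by
    have h4 : Continuous fun s : I => Real.toNNReal s :=
      continuous_real_toNNReal.comp continuous_subtype_val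
    exact (((hx.comp h4).sub continuous_const).sub hγ).abs
  have h5 : IsClosed {s : I | |x (Real.toNNReal s) - x 0 - γ s| ≤ ε} :=
    isClosed_le h3 continuous_const
  have h6 : closure (range (denseSeq I)) ⊆ {s : I | |x (Real.toNNReal s) - x 0 - γ s| ≤ ε} := by
    refine closure_minimal ?_ h5
    rintro _ ⟨n, rfl⟩
    exact h n
  rw [(denseRange_denseSeq I).closure_range] at h6
  exact h6 (mem_univ s)

omit [MeasurableSpace Ω] in
private lemma near_bridge {B : ℝ≥0 → Ω → ℝ} {ω : Ω} (hx : Continuous fun t => B t ω)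
    {γ : I → ℝ} (hγ : Continuous γ) (h1 : γ 1 = 0) {ε : ℝ} (hε : 0 < ε)
    (h : (fun t => B t ω) ∈ near γ (ε / 4)) (s : I) : |bridge B ω s - γ s| < ε := by
  have h2 := near_all hx hγ h s
  have h3 := near_all hx hγ h 1
  simp only [h1, sub_zero] at h3
  have h4 : Real.toNNReal ((1 : I) : ℝ) = 1 := by simp
  rw [h4] at h3
  have h5 : |(s : ℝ) * (B 1 ω - B 0 ω)| ≤ ε / 4 := by
    rw [abs_mul, abs_of_nonneg s.2.1]
    calc (s : ℝ) * |B 1 ω - B 0 ω| ≤ 1 * |B 1 ω - B 0 ω| :=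
          mul_le_mul_of_nonneg_right s.2.2 (abs_nonneg _)
      _ ≤ ε / 4 := by rw [one_mul]; exact h3
  have h6 : bridge B ω s - γ s =
      (B (Real.toNNReal s) ω - B 0 ω - γ s) - (s : ℝ) * (B 1 ω - B 0 ω) := by
    unfold bridge
    ring
  rw [h6]
  calc |(B (Real.toNNReal s) ω - B 0 ω - γ s) - (s : ℝ) * (B 1 ω - B 0 ω)|
      ≤ |B (Real.toNNReal s) ω - B 0 ω - γ s| + |(s : ℝ) * (B 1 ω - B 0 ω)| := abs_sub _ _
    _ ≤ ε / 4 + ε / 4 := add_le_add h2 h5
    _ < ε := by linarith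

/-- piece F12-4 (support theorem for the planar bridge). -/
theorem support_bridge {P : Measure Ω} [IsProbabilityMeasure P] {B₁ B₂ : ℝ≥0 → Ω → ℝ}
    (h : IsPlanarBM P B₁ B₂) (γ₁ γ₂ : I → ℝ) (h₁ : Continuous γ₁) (h₂ : Continuous γ₂)
    (h10 : γ₁ 0 = 0) (h20 : γ₂ 0 = 0) (h11 : γ₁ 1 = 0) (h21 : γ₂ 1 = 0) {ε : ℝ} (hε : 0 < ε) :
    ∃ A : Set Ω, MeasurableSet A ∧ 0 < P A ∧ ∀ ω ∈ A, ∀ s : I,
      |bridge B₁ ω s - γ₁ s| < ε ∧ |bridge B₂ ω s - γ₂ s| < ε := by
  have hε4 : 0 < ε / 4 := by linarith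
  have p1 := support h.bm₁ h.meas₁ h.cont₁ γ₁ h₁ h10 hε4
  have p2 := support h.bm₂ h.meas₂ h.cont₂ γ₂ h₂ h20 hε4
  have m1 : Measurable fun (ω : Ω) (t : ℝ≥0) => B₁ t ω := measurable_pi_lambda _ h.meas₁
  have m2 : Measurable fun (ω : Ω) (t : ℝ≥0) => B₂ t ω := measurable_pi_lambda _ h.meas₂
  refine ⟨(fun ω t => B₁ t ω) ⁻¹' near γ₁ (ε / 4) ∩ (fun ω t => B₂ t ω) ⁻¹' near γ₂ (ε / 4),
    (m1 (measurableSet_near _ _)).inter (m2 (measurableSet_near _ _)), ?_, ?_⟩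
  · rw [h.indep.measure_inter_preimage_eq_mul _ _ (measurableSet_near _ _)
      (measurableSet_near _ _)]
    exact ENNReal.mul_pos p1.ne' p2.ne'
  · rintro ω ⟨hω1, hω2⟩ s
    exact ⟨near_bridge (h.cont₁ ω) h₁ h11 hε hω1 s, near_bridge (h.cont₂ ω) h₂ h21 hε hω2 s⟩

end Pool.Agent.Helper83.CD
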