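import Pool.Agent.Helper83.CD.Poly1

/-!
# CD frame F, piece CD-F13b: distances between the polygon and Hset
-/

set_option autoImplicit false

namespace Pool.Agent.Helper83.CD

open MeasureTheory ProbabilityTheory Metric Set TopologicalSpace
open scoped ENNReal NNReal unitInterval
open Pool.Agent.Helper16.CD

private lemma poly_exists_edge (t : I) :
    ∃ k : ℕ, k < 12 ∧ (k : ℝ) / 12 ≤ t ∧ (t : ℝ) ≤ ((k : ℝ) + 1) / 12 := by
  have h0 : (0 : ℝ) ≤ t := t.2.1
  have h1 : (t : ℝ) ≤ 1 := t.2.2
  rcases h1.lt_or_eq with h | h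
  · refine ⟨⌊12 * (t : ℝ)⌋₊, ?_, ?_, ?_⟩
    · rw [Nat.floor_lt (by linarith)]
      push_cast
      linarith
    · have := Nat.floor_le (show 0 ≤ 12 * (t : ℝ) by linarith)
      linarith
    · have := Nat.lt_floor_add_one (12 * (t : ℝ))
      linarith
  · refine ⟨11, by norm_num, ?_, ?_⟩ <;> rw [h] <;> norm_num

/-- the twelve edges -/
private lemma poly_edges (t : I) : ∃ k : ℕ, k < 12 ∧ ∃ s : ℝ, 0 ≤ s ∧ s ≤ 1 ∧ s = 12 * (t : ℝ) - k ∧
    gam t = ((vx k + s * (vx (k + 1) - vx k)) / 64, (vy k + s * (vy (k + 1) - vy k)) / 64) := by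
  obtain ⟨k, hk, h1, h2⟩ := poly_exists_edge t
  refine ⟨k, hk, 12 * (t : ℝ) - k, by linarith, by linarith, rfl, gam_edge k hk t h1 h2⟩

private lemma vx12 : vx 12 = 7 := rfl

private lemma vy12 : vy 12 = 7 := rfl

private lemma poly_clamp {x lo hi : ℝ} (h : lo ≤ hi) (h1 : lo - 1 / 64 ≤ x)
    (h2 : x ≤ hi + 1 / 64) : ∃ y, lo ≤ y ∧ y ≤ hi ∧ |x - y| ≤ 1 / 64 := by
  refine ⟨max lo (min hi x), le_max_left _ _, max_le h (min_le_left _ _), ?_⟩
  rw [abs_le]
  rcases le_total hi x with h3 | h3
  · rw [min_eq_left h3, max_eq_right h]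
    constructor <;> linarith
  · rw [min_eq_right h3]
    rcases le_total lo x with h4 | h4
    · rw [max_eq_right h4]
      constructor <;> linarith
    · rw [max_eq_left h4]
      constructor <;> linarith

private lemma poly_near {x y lo1 hi1 lo2 hi2 : ℝ} (h1 : lo1 ≤ hi1) (h2 : lo2 ≤ hi2)
    (hx : lo1 - 1 / 64 ≤ x) (hx' : x ≤ hi1 + 1 / 64) (hy : lo2 - 1 / 64 ≤ y)
    (hy' : y ≤ hi2 + 1 / 64) (a1 : 1 / 8 ≤ lo1) (a2 : hi1 ≤ 7 / 8) (a3 : 1 / 8 ≤ lo2)
    (a4 : hi2 ≤ 7 / 8) (a5 : hi1 ≤ 1 / 4 ∨ 3 / 4 ≤ lo1 ∨ hi2 ≤ 1 / 4 ∨ 3 / 4 ≤ lo2)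
    (a6 : hi2 ≤ 3 / 8 ∨ 1 / 2 ≤ lo2 ∨ 3 / 4 ≤ lo1) :
    ∃ z ∈ Hset, dist ((x, y) : Plane) z ≤ 1 / 64 := by
  obtain ⟨u, u1, u2, u3⟩ := poly_clamp h1 hx hx'
  obtain ⟨v, v1, v2, v3⟩ := poly_clamp h2 hy hy'
  refine ⟨(u, v), mem_Hset (by simp only; linarith) (by simp only; linarith)
    (by simp only; linarith) (by simp only; linarith) ?_ ?_, ?_⟩
  · simp only
    rcases a5 with h | h | h | h
    · left; linarith
    · right; left; linarith
    · right; right; left; linarith
    · right; right; right; linarith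
  · simp only
    rcases a6 with h | h | h
    · left; linarith
    · right; left; linarith
    · right; right; linarith
  · rw [Prod.dist_eq, Real.dist_eq, Real.dist_eq]
    exact max_le u3 v3

/-- piece F13-5: the polygon is within `1/64` of `Hset`.
Proof: on each of the 12 edges (F13-1, F13-2) give the nearest point of `Hset` with F13-4
(coordinates clamped to the nearby removed row or column). -/
lemma gam_near (t : I) : ∃ z ∈ Hset, dist (gam t) z ≤ 1 / 64 := by
  obtain ⟨k, hk, s, hs0, hs1, -, hg⟩ := poly_edges t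
  rw [hg]
  clear hg
  interval_cases k <;> simp only [Nat.reduceAdd, zero_add, vx12, vy12] <;> simp only [vx, vy]
  · exact poly_near (lo1 := 1 / 8) (hi1 := 7 / 8) (lo2 := 1 / 8) (hi2 := 1 / 8)
      (by linarith) (by linarith) (by linarith) (by linarith) (by linarith) (by linarith)
      (by linarith) (by linarith) (by linarith) (by linarith) (by norm_num) (by norm_num)
  · exact poly_near (lo1 := 7 / 8) (hi1 := 7 / 8) (lo2 := 1 / 8) (hi2 := 7 / 8)
      (by linarith) (by linarith) (by linarith) (by linarith) (by linarith) (by linarith)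
      (by linarith) (by linarith) (by linarith) (by linarith) (by norm_num) (by norm_num)
  · exact poly_near (lo1 := 1 / 8) (hi1 := 7 / 8) (lo2 := 7 / 8) (hi2 := 7 / 8)
      (by linarith) (by linarith) (by linarith) (by linarith) (by linarith) (by linarith)
      (by linarith) (by linarith) (by linarith) (by linarith) (by norm_num) (by norm_num)
  · exact poly_near (lo1 := 1 / 8) (hi1 := 1 / 8) (lo2 := 1 / 2) (hi2 := 7 / 8)
      (by linarith) (by linarith) (by linarith) (by linarith) (by linarith) (by linarith)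
      (by linarith) (by linarith) (by linarith) (by linarith) (by norm_num) (by norm_num)
  · exact poly_near (lo1 := 1 / 8) (hi1 := 1 / 4) (lo2 := 1 / 2) (hi2 := 1 / 2)
      (by linarith) (by linarith) (by linarith) (by linarith) (by linarith) (by linarith)
      (by linarith) (by linarith) (by linarith) (by linarith) (by norm_num) (by norm_num)
  · exact poly_near (lo1 := 1 / 4) (hi1 := 1 / 4) (lo2 := 1 / 2) (hi2 := 3 / 4)
      (by linarith) (by linarith) (by linarith) (by linarith) (by linarith) (by linarith)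
      (by linarith) (by linarith) (by linarith) (by linarith) (by norm_num) (by norm_num)
  · exact poly_near (lo1 := 1 / 4) (hi1 := 3 / 4) (lo2 := 3 / 4) (hi2 := 3 / 4)
      (by linarith) (by linarith) (by linarith) (by linarith) (by linarith) (by linarith)
      (by linarith) (by linarith) (by linarith) (by linarith) (by norm_num) (by norm_num)
  · exact poly_near (lo1 := 3 / 4) (hi1 := 3 / 4) (lo2 := 1 / 4) (hi2 := 3 / 4)
      (by linarith) (by linarith) (by linarith) (by linarith) (by linarith) (by linarith)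
      (by linarith) (by linarith) (by linarith) (by linarith) (by norm_num) (by norm_num)
  · exact poly_near (lo1 := 1 / 4) (hi1 := 3 / 4) (lo2 := 1 / 4) (hi2 := 1 / 4)
      (by linarith) (by linarith) (by linarith) (by linarith) (by linarith) (by linarith)
      (by linarith) (by linarith) (by linarith) (by linarith) (by norm_num) (by norm_num)
  · exact poly_near (lo1 := 1 / 4) (hi1 := 1 / 4) (lo2 := 1 / 4) (hi2 := 3 / 8)
      (by linarith) (by linarith) (by linarith) (by linarith) (by linarith) (by linarith)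
      (by linarith) (by linarith) (by linarith) (by linarith) (by norm_num) (by norm_num)
  · exact poly_near (lo1 := 1 / 8) (hi1 := 1 / 4) (lo2 := 3 / 8) (hi2 := 3 / 8)
      (by linarith) (by linarith) (by linarith) (by linarith) (by linarith) (by linarith)
      (by linarith) (by linarith) (by linarith) (by linarith) (by norm_num) (by norm_num)
  · exact poly_near (lo1 := 1 / 8) (hi1 := 1 / 8) (lo2 := 1 / 8) (hi2 := 3 / 8)
      (by linarith) (by linarith) (by linarith) (by linarith) (by linarith) (by linarith)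
      (by linarith) (by linarith) (by linarith) (by linarith) (by norm_num) (by norm_num)

/-- piece F13-6: the polygon has distance at least `1/64` from `Hset`.
Proof: on each of the 12 edges, F13-3 and `Prod.dist_eq`, `Real.dist_eq`, `le_max_iff`. -/
lemma gam_far (t : I) {z : Plane} (hz : z ∈ Hset) : 1 / 64 ≤ dist (gam t) z := by
  obtain ⟨k, hk, s, hs0, hs1, -, hg⟩ := poly_edges t
  obtain ⟨b1, b2, b3, b4, b5, b6⟩ := Hset_sub hz
  rw [hg]
  clear hg
  by_contra hcon
  rw [not_le, Prod.dist_eq, max_lt_iff, Real.dist_eq, Real.dist_eq, abs_lt, abs_lt] at hcon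
  obtain ⟨⟨c1, c2⟩, c3, c4⟩ := hcon
  interval_cases k <;> simp only [Nat.reduceAdd, zero_add, vx12, vy12] at c1 c2 c3 c4 <;>
    simp only [vx, vy] at c1 c2 c3 c4
  · linarith
  · linarith
  · linarith
  · linarith
  · rcases b6 with h | h | h <;> linarith
  · rcases b5 with h | h | h | h <;> linarith
  · rcases b5 with h | h | h | h <;> linarith
  · rcases b5 with h | h | h | h <;> linarith
  · rcases b5 with h | h | h | h <;> linarith
  · rcases b5 with h | h | h | h <;> linarith
  · rcases b6 with h | h | h <;> linarith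
  · linarith

/-- piece F13-7: the first edge is below `h0` -/
lemma gam_first (t : I) (ht : (t : ℝ) ≤ 1 / 12) : (gam t).2 = 7 / 64 := by
  rw [gam_edge 0 (by norm_num) t (by simpa using t.2.1) (by simpa using ht)]
  simp [vy]

/-- piece F13-8: the other edges avoid the ray below `h0` -/
lemma gam_rest (t : I) (ht : 1 / 12 ≤ (t : ℝ)) :
    (gam t).1 ≤ 7 / 64 ∨ 17 / 64 ≤ (gam t).1 ∨ 17 / 64 ≤ (gam t).2 := by
  obtain ⟨k, hk, s, hs0, hs1, hs, hg⟩ := poly_edges t
  rw [hg]
  clear hg
  interval_cases k <;> simp only [Nat.reduceAdd, zero_add, vx12, vy12] <;>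
    simp only [vx, vy] <;> push_cast at hs
  · right; left; linarith
  · right; left; linarith
  · right; right; linarith
  · left; linarith
  · right; right; linarith
  · right; left; linarith
  · right; right; linarith
  · right; left; linarith
  · right; right; linarith
  · right; left; linarith
  · right; right; linarith
  · left; linarith

/-- the end of the first edge -/
lemma gam_corner : gam ⟨1 / 12, by norm_num, by norm_num⟩ = (57 / 64, 7 / 64) := by
  rw [gam_edge 0 (by norm_num) _ (by norm_num) (by norm_num)]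
  norm_num [vx, vy]

end Pool.Agent.Helper83.CD
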