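import Pool.Agent.Helper83.CD.Wind2
import Pool.Agent.Helper83.CD.Poly

/-!
# CD frame F, piece CD-F15b: loops near the polygon surround h0
-/

set_option autoImplicit false

namespace Pool.Agent.Helper83.CD

open MeasureTheory ProbabilityTheory Metric Set TopologicalSpace
open scoped ENNReal NNReal unitInterval
open Pool.Agent.Helper16.CD

private lemma near_coord {x y : Plane} (h : dist x y < 1 / 128) :
    |x.1 - y.1| < 1 / 128 ∧ |x.2 - y.2| < 1 / 128 := by
  rw [Prod.dist_eq, max_lt_iff, Real.dist_eq, Real.dist_eq] at h
  exact h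

/-- piece F15-5 (curves close to the polygon).
Proof: the first two claims by `gam_near`, `gam_far` and the triangle inequality; `h0 ∈ Hset`,
so `h0 ∉ range f`; the last by F14-3 and F15-4 with `a₀ = 1/12`
(`gam_first`, `gam_rest`, `gam_zero`, `gam_corner`). -/
theorem near_gam {f : I → Plane} (hf : Continuous f) (h01 : f 0 = f 1)
    (h : ∀ t, dist (f t) (gam t) < 1 / 128) :
    range f ⊆ thickening (1 / 32) Hset ∧ Disjoint (range f) Hset ∧ h0 ∈ fillIn (range f) := by
  have hdis : Disjoint (range f) Hset := by
    rw [Set.disjoint_left]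
    rintro _ ⟨t, rfl⟩ hz
    have h1 := gam_far t hz
    have h2 := h t
    rw [dist_comm] at h2
    linarith
  have h0m : h0 ∈ Hset := by
    apply mem_Hset <;> norm_num [h0]
  have h0r : h0 ∉ range f := fun hr => Set.disjoint_left.1 hdis hr h0m
  refine ⟨?_, hdis, ?_⟩
  · rintro _ ⟨t, rfl⟩
    obtain ⟨z, hz, hd⟩ := gam_near t
    rw [mem_thickening_iff]
    refine ⟨z, hz, ?_⟩
    have h1 := dist_triangle (f t) (gam t) z
    have h2 := h t
    linarith
  · show Bornology.IsBounded (connectedComponentIn (range f)ᶜ h0)
    by_contra hu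
    have hlog := hasLog_of_unbounded hf h01 h0r hu
    refine not_hasLog hf h01 (a := h0) ⟨1 / 12, by norm_num, by norm_num⟩ ?_ ?_ ?_ ?_ hlog
    · intro t ht
      have ht' : (t : ℝ) ≤ 1 / 12 := ht
      have h1 := gam_first t ht'
      have h2 := abs_lt.1 (near_coord (h t)).2
      rw [h1] at h2
      simp only [h0]
      linarith [h2.2]
    · intro t ht
      have ht' : 1 / 12 ≤ (t : ℝ) := ht
      have h2 := abs_lt.1 (near_coord (h t)).2
      have h3 := abs_lt.1 (near_coord (h t)).1
      simp only [h0]
      rcases gam_rest t ht' with h1 | h1 | h1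
      · left; apply ne_of_lt; linarith [h3.2]
      · left; apply ne_of_gt; linarith [h3.1]
      · right; linarith [h2.1]
    · have h3 := abs_lt.1 (near_coord (h 0)).1
      rw [gam_zero] at h3
      simp only [h0]
      simp only at h3
      linarith [h3.2]
    · have h3 := abs_lt.1 (near_coord (h ⟨1 / 12, by norm_num, by norm_num⟩)).1
      rw [gam_corner] at h3
      simp only [h0]
      simp only at h3
      linarith [h3.1]

end Pool.Agent.Helper83.CD
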