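import Pool.Agent.Helper83.CD.Shf
import Pool.Agent.Helper83.CD.Support
import Pool.Agent.Helper83.CD.Wind

/-!
# CD frame F, piece CD-F16: field good
-/

set_option autoImplicit false

namespace Pool.Agent.Helper83.CD

open MeasureTheory ProbabilityTheory Metric Set TopologicalSpace
open scoped ENNReal NNReal unitInterval
open Pool.Agent.Helper16.CD

variable {Ω : Type} [MeasurableSpace Ω]

/-- piece F16-1: nonempty open sets have positive measure in `I` -/
instance : (volume : Measure I).IsOpenPosMeasure := by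
  refine ⟨fun U hU hne h0 => ?_⟩
  have h1 : (volume : Measure ℝ) ((↑) '' U : Set ℝ) = 0 := by
    rw [← volume_image_subtype_coe measurableSet_Icc U] at h0
    exact h0
  obtain ⟨V, hV, rfl⟩ := isOpen_induced_iff.1 hU
  obtain ⟨x, hx⟩ := hne
  have hx1 : (x : ℝ) ∈ closure (Ioo (0 : ℝ) 1) := by
    rw [closure_Ioo zero_ne_one]
    exact x.2
  have h2 : (V ∩ Ioo (0 : ℝ) 1).Nonempty := mem_closure_iff.1 hx1 V hV hx
  have h3 : 0 < (volume : Measure ℝ) (V ∩ Ioo (0 : ℝ) 1) :=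
    (hV.inter isOpen_Ioo).measure_pos volume h2
  have h4 : V ∩ Ioo (0 : ℝ) 1 ⊆ ((↑) '' ((↑) ⁻¹' V : Set I) : Set ℝ) := by
    rintro y ⟨hy, hy1⟩
    exact ⟨⟨y, hy1.1.le, hy1.2.le⟩, hy, rfl⟩
  exact (h3.trans_le (measure_mono h4)).ne' h1

private lemma cl_bd (k : ℕ) (t : I) : 0 ≤ cl k t ∧ cl k t ≤ 1 :=
  ⟨le_max_left _ _, max_le zero_le_one (min_le_left _ _)⟩

private lemma gam_bd (t : I) : |(gam t).1 - 7 / 64| ≤ 3 ∧ |(gam t).2 - 7 / 64| ≤ 3 := by
  have h0 := cl_bd 0 t
  have h1 := cl_bd 1 t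
  have h2 := cl_bd 2 t
  have h3 := cl_bd 3 t
  have h4 := cl_bd 4 t
  have h5 := cl_bd 5 t
  have h6 := cl_bd 6 t
  have h7 := cl_bd 7 t
  have h8 := cl_bd 8 t
  have h9 := cl_bd 9 t
  have h10 := cl_bd 10 t
  have h11 := cl_bd 11 t
  simp only [gam, Finset.sum_range_succ, Finset.sum_range_zero, vx, vy, abs_le]
  refine ⟨⟨?_, ?_⟩, ⟨?_, ?_⟩⟩ <;> linarith

private lemma one_le_dur (x : I) : 1 ≤ √(dur x) := by
  rw [Real.one_le_sqrt, dur, le_div_iff₀ (by linarith [x.2.2])]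
  linarith [x.2.1]

private lemma continuous_dur : Continuous dur := by
  unfold dur
  refine continuous_const.div (by fun_prop) fun x => ?_
  linarith [x.2.2]

private lemma coord {u d b g : ℝ} (hu : |u - 7 / 64| < 1 / 1024) (h1 : 1 ≤ d)
    (h2 : d < 1 + 1 / 1024) (hb : |b - (g - 7 / 64)| < 1 / 1024) (hg : |g - 7 / 64| ≤ 3) :
    |u + d * b - g| < 1 / 128 := by
  have e : u + d * b - g = (u - 7 / 64) + (d * (b - (g - 7 / 64)) + (d - 1) * (g - 7 / 64)) := by
    ring
  rw [e]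
  have h3 : |d * (b - (g - 7 / 64))| ≤ 2 * (1 / 1024) := by
    rw [abs_mul, abs_of_pos (by linarith)]
    exact mul_le_mul (by linarith) hb.le (abs_nonneg _) (by norm_num)
  have h4 : |(d - 1) * (g - 7 / 64)| ≤ 1 / 1024 * 3 := by
    rw [abs_mul, abs_of_nonneg (by linarith)]
    exact mul_le_mul (by linarith) hg (abs_nonneg _) (by norm_num)
  have h5 := abs_add_le (u - 7 / 64) (d * (b - (g - 7 / 64)) + (d - 1) * (g - 7 / 64))
  have h6 := abs_add_le (d * (b - (g - 7 / 64))) ((d - 1) * (g - 7 / 64))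
  linarith

private def UU : Set (I × I × I) :=
  {e | |(e.1 : ℝ) - 7 / 64| < 1 / 1024 ∧ |(e.2.1 : ℝ) - 7 / 64| < 1 / 1024 ∧
    √(dur e.2.2) < 1 + 1 / 1024}

private lemma isOpen_UU : IsOpen UU := by
  have h1 : Continuous fun e : I × I × I => |(e.1 : ℝ) - 7 / 64| := by fun_prop
  have h2 : Continuous fun e : I × I × I => |(e.2.1 : ℝ) - 7 / 64| := by fun_prop
  have h3 : Continuous fun e : I × I × I => √(dur e.2.2) :=
    Real.continuous_sqrt.comp (continuous_dur.comp (continuous_snd.comp continuous_snd))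
  exact (isOpen_lt h1 continuous_const).inter
    ((isOpen_lt h2 continuous_const).inter (isOpen_lt h3 continuous_const))

private lemma UU_nonempty : UU.Nonempty := by
  refine ⟨(⟨7 / 64, by norm_num, by norm_num⟩, ⟨7 / 64, by norm_num, by norm_num⟩, 0), ?_, ?_, ?_⟩
  · norm_num
  · norm_num
  · simp [dur]

/-- piece F16-2 (field `good`).
Proof: `γ = gam - (7/64, 7/64)` is continuous, `γ 0 = γ 1 = 0`, `|γ| ≤ 1`.  Take
`support_bridge` for `γ` with `ε = 1/1024`, giving `A`; `U` the open set of `(u₁, u₂, x)` with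
`|u_i - 7/64| < 1/1024` and `√(dur x) < 1 + 1/1024` (contains `x = 0`).  For
`e ∈ U ×ˢ A`: `|shf e s - gam s| ≤ 1/1024 + √dur |bridge - γ| + (√dur - 1) |γ| < 1/128`, and
`near_gam`.  The measure of `U ×ˢ A` is `volume U * P A > 0` (`Measure.prod_prod`,
`IsOpen.measure_pos`). -/
lemma good_brown {P : Measure Ω} [IsProbabilityMeasure P] {B₁ B₂ : ℝ≥0 → Ω → ℝ}
    (h : IsPlanarBM P B₁ B₂) :
    0 < ((volume : Measure (I × I × I)).prod P) (Lset (shapeB B₁ B₂)) := by
  obtain ⟨A, -, hA, hAB⟩ := support_bridge h (fun s => (gam s).1 - 7 / 64)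
    (fun s => (gam s).2 - 7 / 64) (continuous_gam.fst.sub continuous_const)
    (continuous_gam.snd.sub continuous_const) (by simp [gam_zero]) (by simp [gam_zero])
    (by simp [gam_one]) (by simp [gam_one]) (ε := 1 / 1024) (by norm_num)
  have i1 : (volume : Measure (I × I)).IsOpenPosMeasure := by
    rw [Measure.volume_eq_prod]
    infer_instance
  have i2 : (volume : Measure (I × I × I)).IsOpenPosMeasure := by
    rw [Measure.volume_eq_prod]
    infer_instance
  have hU : 0 < (volume : Measure (I × I × I)) UU := isOpen_UU.measure_pos _ UU_nonempty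
  have hsub : UU ×ˢ A ⊆ Lset (shapeB B₁ B₂) := by
    rintro e ⟨⟨h1, h2, h3⟩, h4⟩
    have hd := one_le_dur e.1.2.2
    have hn : ∀ t, dist (shf B₁ B₂ e t) (gam t) < 1 / 128 := by
      intro t
      rw [Prod.dist_eq, max_lt_iff, Real.dist_eq, Real.dist_eq]
      exact ⟨coord h1 hd h3 (hAB _ h4 t).1 (gam_bd t).1,
        coord h2 hd h3 (hAB _ h4 t).2 (gam_bd t).2⟩
    have h01 : shf B₁ B₂ e 0 = shf B₁ B₂ e 1 := by
      simp [shf, bridge_zero, bridge_one]
    exact near_gam (continuous_shf h e) h01 hn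
  refine lt_of_lt_of_le ?_ (measure_mono hsub)
  rw [Measure.prod_prod]
  exact ENNReal.mul_pos hU.ne' hA.ne'

end Pool.Agent.Helper83.CD
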