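import Pool.Agent.Helper83.CD.Path

/-!
# CD frame F, piece CD-F9a: first half of the bridge, independence and laws
-/

set_option autoImplicit false

namespace Pool.Agent.Helper83.CD

open MeasureTheory ProbabilityTheory Metric Set TopologicalSpace
open scoped ENNReal NNReal unitInterval
open Pool.Agent.Helper16.CD

variable {Ω : Type} [MeasurableSpace Ω]

/-- the first half of the path, minus its chord: `B (s / 2) - s B (1/2)` -/
noncomputable def hbr (B : ℝ≥0 → Ω → ℝ) (ω : Ω) (s : I) : ℝ :=
  B (Real.toNNReal (s / 2)) ω - s * B (1 / 2) ω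

/-- the slope in the bridge: `B (1/2) - B 1 / 2` -/
noncomputable def slo (B : ℝ≥0 → Ω → ℝ) (ω : Ω) : ℝ := B (1 / 2) ω - B 1 ω / 2

/-- the first half of the bridge (if `B 0 = 0`): `B (s / 2) - (s / 2) B 1` -/
noncomputable def fbr (B : ℝ≥0 → Ω → ℝ) (ω : Ω) (s : I) : ℝ :=
  B (Real.toNNReal (s / 2)) ω - s / 2 * B 1 ω

omit [MeasurableSpace Ω] in
lemma fbr_eq (B : ℝ≥0 → Ω → ℝ) (ω : Ω) (s : I) : fbr B ω s = hbr B ω s + s * slo B ω := by
  unfold fbr hbr slo
  ring

/-- joint process: `hbr` together with a linear combination of `B (1/2)` and `B 1` -/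
private lemma half1_gp {P : Measure Ω} {B : ℝ≥0 → Ω → ℝ} (hB : IsPreBrownianReal B P) (c d : ℝ) :
    IsGaussianProcess (Sum.elim (fun (s : I) ω => hbr B ω s)
      (fun (_ : Unit) ω => c * B (1 / 2) ω + d * B 1 ω)) P := by
  apply hB.isGaussianProcess.of_isGaussianProcess
  rintro (s | u)
  · exact ⟨{Real.toNNReal (s / 2), 1 / 2},
      { toFun x := x ⟨Real.toNNReal (s / 2), by simp⟩ - s * x ⟨1 / 2, by simp⟩
        map_add' x y := by simp only [Pi.add_apply]; ring
        map_smul' e x := by
          simp only [Pi.smul_apply, smul_eq_mul, RingHom.id_apply]; ring }, fun ω => rfl⟩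
  · exact ⟨{1 / 2, 1},
      { toFun x := c * x ⟨1 / 2, by simp⟩ + d * x ⟨1, by simp⟩
        map_add' x y := by simp only [Pi.add_apply]; ring
        map_smul' e x := by
          simp only [Pi.smul_apply, smul_eq_mul, RingHom.id_apply]; ring }, fun ω => rfl⟩

private lemma half1_cov {P : Measure Ω} {B : ℝ≥0 → Ω → ℝ} (hB : IsPreBrownianReal B P) (s : I)
    (c d : ℝ) : cov[fun ω => hbr B ω s, fun ω => c * B (1 / 2) ω + d * B 1 ω; P] = 0 := by
  have := hB.isGaussianProcess.isProbabilityMeasure
  have hL : ∀ t, MemLp (B t) 2 P := fun t =>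
    (hB.isGaussianProcess.hasGaussianLaw_eval t).memLp_two
  have hs0 : (0 : ℝ) ≤ s / 2 := by have := s.2.1; positivity
  have hs1 : ((s : ℝ) / 2) ≤ 1 / 2 := by have := s.2.2; linarith
  have e1 : (fun ω => hbr B ω s) = B (Real.toNNReal (s / 2)) - (s : ℝ) • B (1 / 2) := by
    funext ω
    simp [hbr]
  have e2 : (fun ω => c * B (1 / 2) ω + d * B 1 ω) = c • B (1 / 2) + d • B 1 := by
    funext ω
    simp
  rw [e1, e2, covariance_sub_left (hL _) ((hL _).const_smul _)
    (((hL _).const_smul _).add ((hL _).const_smul _)),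
    covariance_add_right (hL _) ((hL _).const_smul _) ((hL _).const_smul _),
    covariance_add_right ((hL _).const_smul _) ((hL _).const_smul _) ((hL _).const_smul _)]
  simp only [covariance_smul_left, covariance_smul_right, hB.covariance_eval]
  have h3 : Real.toNNReal (s / 2) ≤ 1 / 2 := by
    rw [Real.toNNReal_le_iff_le_coe]
    simpa using hs1
  have h4 : (1 / 2 : ℝ≥0) ≤ 1 := by
    rw [← NNReal.coe_le_coe]
    norm_num
  rw [min_eq_left h3, min_eq_left (h3.trans h4), min_self, min_eq_left h4,
    Real.coe_toNNReal _ hs0]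
  push_cast
  ring

private lemma half1_indep {P : Measure Ω} {B : ℝ≥0 → Ω → ℝ} (hB : IsPreBrownianReal B P)
    (c d : ℝ) : IndepFun (hbr B) (fun ω => c * B (1 / 2) ω + d * B 1 ω) P := by
  have hm : ∀ t, AEMeasurable (B t) P := hB.aemeasurable
  have h := IsGaussianProcess.indepFun_of_covariance_eq_zero (half1_gp hB c d)
    (fun s => (hm _).sub ((hm _).const_mul _))
    (fun _ => ((hm _).const_mul _).add ((hm _).const_mul _)) (fun s _ => half1_cov hB s c d)
  exact h.comp measurable_id (measurable_pi_apply ())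

/-- piece F9-1.
Proof: `IsGaussianProcess.indepFun_of_covariance_eq_zero` with `X s = hbr B · s` and the one
point process `Y = B (1/2)` (then compose with the evaluation at the point);
`cov = min (s/2) (1/2) - s * (1/2) = 0`. -/
lemma indep_hbr_half {P : Measure Ω} {B : ℝ≥0 → Ω → ℝ} (hB : IsPreBrownianReal B P)
    (hm : ∀ t, Measurable (B t)) : IndepFun (hbr B) (B (1 / 2)) P := by
  have h := half1_indep hB 1 0
  simpa using h

/-- piece F9-2.
Proof: the same, `cov (B (s/2) - s B (1/2)) (B (1/2) - B 1 / 2) =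
(s/2 - s/2) - (s/2 - s/2) / 2 = 0`. -/
lemma indep_hbr_slo {P : Measure Ω} {B : ℝ≥0 → Ω → ℝ} (hB : IsPreBrownianReal B P)
    (hm : ∀ t, Measurable (B t)) : IndepFun (hbr B) (slo B) P := by
  have h := half1_indep hB 1 (-1 / 2)
  have e : slo B = fun ω => 1 * B (1 / 2) ω + (-1 / 2) * B 1 ω := by
    funext ω
    unfold slo
    ring
  rw [e]
  exact h

/-- piece F9-3 (absolute continuity of the laws).
Proof: `slo B` is Gaussian (`hasGaussianLaw`, linear combination), so its law is some
`gaussianReal m v` (`HasGaussianLaw.map_eq_gaussianReal`) with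
`v = 1/2 - 2 (1/2)(1/2) + 1/4 = 1/4 ≠ 0`, absolutely continuous for Lebesgue measure
(`gaussianReal_absolutelyContinuous`), which is absolutely continuous for
`gaussianReal 0 (1/2)`, the law of `B (1/2)` (`gaussianReal_absolutelyContinuous'`). -/
lemma slo_ac {P : Measure Ω} {B : ℝ≥0 → Ω → ℝ} (hB : IsPreBrownianReal B P)
    (hm : ∀ t, Measurable (B t)) : P.map (slo B) ≪ P.map (B (1 / 2)) := by
  have := hB.isGaussianProcess.isProbabilityMeasure
  have hL : ∀ t, MemLp (B t) 2 P := fun t =>
    (hB.isGaussianProcess.hasGaussianLaw_eval t).memLp_two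
  have e : slo B = B (1 / 2) - (1 / 2 : ℝ) • B 1 := by
    funext ω
    simp only [slo, Pi.sub_apply, Pi.smul_apply, smul_eq_mul]
    ring
  have hG : HasGaussianLaw (slo B) P := by
    have h := (half1_gp hB 1 (-1 / 2)).hasGaussianLaw_eval (Sum.inr ())
    have e' : slo B = fun ω => 1 * B (1 / 2) ω + (-1 / 2) * B 1 ω := by
      funext ω
      unfold slo
      ring
    rw [e']
    exact h
  have hms : Measurable (slo B) := by
    rw [e]
    exact (hm _).sub ((hm _).const_smul _)
  have hV : Var[slo B; P] = 1 / 4 := by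
    rw [← covariance_self hms.aemeasurable, e,
      covariance_sub_sub (hL _) ((hL _).const_smul _) (hL _) ((hL _).const_smul _)]
    simp only [covariance_smul_left, covariance_smul_right, hB.covariance_eval]
    have h4 : (1 / 2 : ℝ≥0) ≤ 1 := by
      rw [← NNReal.coe_le_coe]
      norm_num
    rw [min_self, min_eq_left h4, min_eq_right h4, min_self]
    push_cast
    norm_num
  rw [hG.map_eq_gaussianReal, (hB.hasLaw_eval (1 / 2)).map_eq]
  have hv : (Var[slo B; P]).toNNReal ≠ 0 := by
    rw [hV]
    simp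
  exact (gaussianReal_absolutelyContinuous _ hv).trans
    (gaussianReal_absolutelyContinuous' 0 (by simp))

end Pool.Agent.Helper83.CD
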