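import Pool.Agent.Helper83.CD.Trans

/-!
# CD frame F, piece CD-F7b: independence of past and future of planar Brownian motion
-/

set_option autoImplicit false

namespace Pool.Agent.Helper83.CD

open MeasureTheory ProbabilityTheory Metric Set TopologicalSpace
open scoped ENNReal NNReal unitInterval
open Pool.Agent.Helper16.CD

variable {Ω : Type} [MeasurableSpace Ω]

/-- piece F7-3 (rearrangement of independence).
Proof: the law of `((X₁, Y₁), (X₂, Y₂))` is `(law X₁ ⊗ law Y₁) ⊗ (law X₂ ⊗ law Y₂)`; the law of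
`((X₁, X₂), (Y₁, Y₂))` is its image by the exchange of the middle factors, which maps
`(a ⊗ b) ⊗ (c ⊗ d)` to `(a ⊗ c) ⊗ (b ⊗ d)` (`measurePreserving_prodAssoc`, `Measure.prod_swap`,
or `Measure.prod_eq_generateFrom`/rectangles); `indepFun_iff_map_prod_eq_prod_map_map`. -/
lemma indep_rearr {P : Measure Ω} [IsProbabilityMeasure P] {α β γ δ : Type}
    [MeasurableSpace α] [MeasurableSpace β] [MeasurableSpace γ] [MeasurableSpace δ]
    {X₁ : Ω → α} {Y₁ : Ω → β} {X₂ : Ω → γ} {Y₂ : Ω → δ} (mX₁ : Measurable X₁)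
    (mY₁ : Measurable Y₁) (mX₂ : Measurable X₂) (mY₂ : Measurable Y₂)
    (h : IndepFun (fun ω => (X₁ ω, Y₁ ω)) (fun ω => (X₂ ω, Y₂ ω)) P) (h₁ : IndepFun X₁ Y₁ P)
    (h₂ : IndepFun X₂ Y₂ P) :
    IndepFun (fun ω => (X₁ ω, X₂ ω)) (fun ω => (Y₁ ω, Y₂ ω)) P := by
  have hX : IndepFun X₁ X₂ P := h.comp measurable_fst measurable_fst
  have hY : IndepFun Y₁ Y₂ P := h.comp measurable_snd measurable_snd
  have eX := (indepFun_iff_map_prod_eq_prod_map_map mX₁.aemeasurable mX₂.aemeasurable).1 hX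
  have eY := (indepFun_iff_map_prod_eq_prod_map_map mY₁.aemeasurable mY₂.aemeasurable).1 hY
  haveI := Measure.isProbabilityMeasure_map (μ := P) mX₁.aemeasurable
  haveI := Measure.isProbabilityMeasure_map (μ := P) mX₂.aemeasurable
  haveI := Measure.isProbabilityMeasure_map (μ := P) mY₁.aemeasurable
  haveI := Measure.isProbabilityMeasure_map (μ := P) mY₂.aemeasurable
  rw [indepFun_iff_map_prod_eq_prod_map_map (mX₁.prodMk mX₂).aemeasurable
    (mY₁.prodMk mY₂).aemeasurable, eX, eY]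
  refine (Measure.prod_eq_generateFrom generateFrom_prod generateFrom_prod isPiSystem_prod
    isPiSystem_prod
    ((P.map X₁).toFiniteSpanningSetsIn.prod (P.map X₂).toFiniteSpanningSetsIn)
    ((P.map Y₁).toFiniteSpanningSetsIn.prod (P.map Y₂).toFiniteSpanningSetsIn) ?_).symm
  rintro _ ⟨a, ha, c, hc, rfl⟩ _ ⟨b, hb, d, hd, rfl⟩
  rw [mem_ofPred_eq] at ha hb hc hd
  rw [Measure.map_apply ((mX₁.prodMk mX₂).prodMk (mY₁.prodMk mY₂))
    ((ha.prod hc).prod (hb.prod hd)), Measure.prod_prod, Measure.prod_prod,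
    Measure.map_apply mX₁ ha, Measure.map_apply mX₂ hc, Measure.map_apply mY₁ hb,
    Measure.map_apply mY₂ hd]
  have e : (fun ω => ((X₁ ω, X₂ ω), (Y₁ ω, Y₂ ω))) ⁻¹' ((a ×ˢ c) ×ˢ (b ×ˢ d)) =
      (fun ω => (X₁ ω, Y₁ ω)) ⁻¹' (a ×ˢ b) ∩ (fun ω => (X₂ ω, Y₂ ω)) ⁻¹' (c ×ˢ d) := by
    ext ω
    simp only [mem_preimage, mem_prod, mem_inter_iff]
    tauto
  have e₁ : (fun ω => (X₁ ω, Y₁ ω)) ⁻¹' (a ×ˢ b) = X₁ ⁻¹' a ∩ Y₁ ⁻¹' b := by
    ext ω
    simp
  have e₂ : (fun ω => (X₂ ω, Y₂ ω)) ⁻¹' (c ×ˢ d) = X₂ ⁻¹' c ∩ Y₂ ⁻¹' d := by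
    ext ω
    simp
  rw [e, h.measure_inter_preimage_eq_mul _ _ (ha.prod hb) (hc.prod hd), e₁, e₂,
    h₁.measure_inter_preimage_eq_mul _ _ ha hb, h₂.measure_inter_preimage_eq_mul _ _ hc hd]
  ring

/-- past and future of one coordinate -/
private lemma indep_rev_shi_one {P : Measure Ω} {B : ℝ≥0 → Ω → ℝ} (h : IsPreBrownianReal B P) :
    IndepFun (fun ω (s : I) => rev B (Real.toNNReal s) ω)
      (fun ω (s : I) => shi B 1 (Real.toNNReal s) ω) P := by
  have h0 := (h.indepFun_shift 1).symm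
  have hf : Measurable fun (x : Iic (1 : ℝ≥0) → ℝ) (s : I) =>
      x ⟨1 - Real.toNNReal s, mem_Iic.2 tsub_le_self⟩ + x ⟨1, mem_Iic.2 le_rfl⟩ - 2 * x ⟨1, mem_Iic.2 le_rfl⟩ := by
    refine measurable_pi_lambda _ fun s => ?_
    fun_prop
  have hg : Measurable fun (x : ℝ≥0 → ℝ) (s : I) => x (Real.toNNReal s) := by
    refine measurable_pi_lambda _ fun s => ?_
    fun_prop
  have h1 := h0.comp hf hg
  have e1 : ((fun (x : Iic (1 : ℝ≥0) → ℝ) (s : I) =>
      x ⟨1 - Real.toNNReal s, mem_Iic.2 tsub_le_self⟩ + x ⟨1, mem_Iic.2 le_rfl⟩ - 2 * x ⟨1, mem_Iic.2 le_rfl⟩) ∘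
      fun ω (t : Iic (1 : ℝ≥0)) => B t ω) =
      fun ω (s : I) => rev B (Real.toNNReal s) ω := by
    funext ω s
    have hs : Real.toNNReal (s : ℝ) ≤ 1 := by
      rw [Real.toNNReal_le_one]
      exact s.2.2
    simp only [Function.comp_apply, rev, max_eq_left hs]
  rw [e1] at h1
  exact h1

/-- piece F7-4 (past and future of planar Brownian motion at time `1`).
Proof: for each coordinate `indepFun_shift 1`: the path `pth (shi B 1)` is a function of the
shifted process, and `pth (rev B)` (for `s ≤ 1`: `rev B s = B (1 - s) - B 1`) a function of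
`(B t)_{t ≤ 1}`; then F7-3 with `h.indep`. -/
lemma indep_rev_shi {P : Measure Ω} [IsProbabilityMeasure P] {B₁ B₂ : ℝ≥0 → Ω → ℝ}
    (h : IsPlanarBM P B₁ B₂) :
    IndepFun (pth (rev B₁) (rev B₂)) (pth (shi B₁ 1) (shi B₂ 1)) P := by
  have hf : Measurable fun (x : ℝ≥0 → ℝ) =>
      ((fun s : I => x (1 - Real.toNNReal s) + x (max 1 (Real.toNNReal s)) - 2 * x 1,
        fun s : I => x (1 + Real.toNNReal s) - x 1) : Pth) := by
    refine (measurable_pi_lambda _ fun s => ?_).prodMk (measurable_pi_lambda _ fun s => ?_)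
    · fun_prop
    · fun_prop
  have m₁ := h.meas₁
  have m₂ := h.meas₂
  refine indep_rearr (X₁ := fun ω (s : I) => rev B₁ (Real.toNNReal s) ω)
    (X₂ := fun ω (s : I) => rev B₂ (Real.toNNReal s) ω)
    (Y₁ := fun ω (s : I) => shi B₁ 1 (Real.toNNReal s) ω)
    (Y₂ := fun ω (s : I) => shi B₂ 1 (Real.toNNReal s) ω) ?_ ?_ ?_ ?_ ?_
    (indep_rev_shi_one h.bm₁) (indep_rev_shi_one h.bm₂)
  · refine measurable_pi_lambda _ fun s => ?_
    unfold rev
    fun_prop
  · refine measurable_pi_lambda _ fun s => ?_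
    unfold shi
    fun_prop
  · refine measurable_pi_lambda _ fun s => ?_
    unfold rev
    fun_prop
  · refine measurable_pi_lambda _ fun s => ?_
    unfold shi
    fun_prop
  · exact h.indep.comp hf hf

end Pool.Agent.Helper83.CD
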