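import Pool.Agent.Helper83.CD.Rev

/-!
# CD frame F, shifted, scaled and reversed planar Brownian motion (complete)
-/

set_option autoImplicit false

namespace Pool.Agent.Helper83.CD

open MeasureTheory ProbabilityTheory Metric Set TopologicalSpace
open scoped ENNReal NNReal unitInterval
open Pool.Agent.Helper16.CD

variable {Ω : Type} [MeasurableSpace Ω]

/-- piece F6-2: the reversed planar Brownian motion (independence by composition of the
processes with the measurable map `x ↦ (t ↦ x (1 - t) + x (max 1 t) - 2 x 1)`). -/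
lemma planar_rev {P : Measure Ω} {B₁ B₂ : ℝ≥0 → Ω → ℝ} (h : IsPlanarBM P B₁ B₂) :
    IsPlanarBM P (rev B₁) (rev B₂) where
  bm₁ := isPreBrownianReal_rev h.bm₁
  bm₂ := isPreBrownianReal_rev h.bm₂
  indep := by
    have hg : Measurable fun (x : ℝ≥0 → ℝ) (t : ℝ≥0) => x (1 - t) + x (max 1 t) - 2 * x 1 :=
      measurable_pi_lambda _ fun t => by fun_prop
    exact h.indep.comp hg hg
  meas₁ t := by
    have := h.meas₁
    unfold rev
    fun_prop
  meas₂ t := by
    have := h.meas₂
    unfold rev
    fun_prop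
  cont₁ ω := by
    have h1 := h.cont₁ ω
    have h2 : Continuous fun t : ℝ≥0 => B₁ (1 - t) ω :=
      h1.comp (continuous_const.sub continuous_id)
    have h3 : Continuous fun t : ℝ≥0 => B₁ (max 1 t) ω :=
      h1.comp (continuous_const.max continuous_id)
    exact (h2.add h3).sub continuous_const
  cont₂ ω := by
    have h1 := h.cont₂ ω
    have h2 : Continuous fun t : ℝ≥0 => B₂ (1 - t) ω :=
      h1.comp (continuous_const.sub continuous_id)
    have h3 : Continuous fun t : ℝ≥0 => B₂ (max 1 t) ω :=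
      h1.comp (continuous_const.max continuous_id)
    exact (h2.add h3).sub continuous_const

/-- piece F6-3: the shifted planar Brownian motion -/
lemma planar_shi {P : Measure Ω} {B₁ B₂ : ℝ≥0 → Ω → ℝ} (h : IsPlanarBM P B₁ B₂) (a : ℝ≥0) :
    IsPlanarBM P (shi B₁ a) (shi B₂ a) where
  bm₁ := h.bm₁.shift a
  bm₂ := h.bm₂.shift a
  indep := by
    have hg : Measurable fun (x : ℝ≥0 → ℝ) (t : ℝ≥0) => x (a + t) - x a :=
      measurable_pi_lambda _ fun t => by fun_prop
    exact h.indep.comp hg hg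
  meas₁ t := by
    have := h.meas₁
    unfold shi
    fun_prop
  meas₂ t := by
    have := h.meas₂
    unfold shi
    fun_prop
  cont₁ ω := by
    have h1 := h.cont₁ ω
    exact (h1.comp (continuous_const.add continuous_id)).sub continuous_const
  cont₂ ω := by
    have h1 := h.cont₂ ω
    exact (h1.comp (continuous_const.add continuous_id)).sub continuous_const

/-- piece F6-4: the scaled planar Brownian motion -/
lemma planar_sca {P : Measure Ω} {B₁ B₂ : ℝ≥0 → Ω → ℝ} (h : IsPlanarBM P B₁ B₂) {c : ℝ≥0}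
    (hc : c ≠ 0) : IsPlanarBM P (sca B₁ c) (sca B₂ c) where
  bm₁ := h.bm₁.smul hc
  bm₂ := h.bm₂.smul hc
  indep := by
    have hg : Measurable fun (x : ℝ≥0 → ℝ) (t : ℝ≥0) => (√c)⁻¹ * x (c * t) :=
      measurable_pi_lambda _ fun t => by fun_prop
    exact h.indep.comp hg hg
  meas₁ t := by
    have := h.meas₁
    unfold sca
    fun_prop
  meas₂ t := by
    have := h.meas₂
    unfold sca
    fun_prop
  cont₁ ω := by
    have h1 := h.cont₁ ω
    exact continuous_const.mul (h1.comp (continuous_const.mul continuous_id))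
  cont₂ ω := by
    have h1 := h.cont₂ ω
    exact continuous_const.mul (h1.comp (continuous_const.mul continuous_id))

/-- continuity of the path on `[0, 1]` -/
lemma continuous_pth {P : Measure Ω} {B₁ B₂ : ℝ≥0 → Ω → ℝ} (h : IsPlanarBM P B₁ B₂) (ω : Ω) :
    Continuous (pt (pth B₁ B₂ ω)) := by
  have h1 := h.cont₁ ω
  have h2 := h.cont₂ ω
  have h3 : Continuous fun s : I => Real.toNNReal s :=
    continuous_real_toNNReal.comp continuous_subtype_val
  exact (h1.comp h3).prodMk (h2.comp h3)

/-- continuity of the path `s ↦ B (a + T s)` -/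
lemma continuous_seg {P : Measure Ω} {B₁ B₂ : ℝ≥0 → Ω → ℝ} (h : IsPlanarBM P B₁ B₂)
    (a T : ℝ≥0) (ω : Ω) : Continuous (pt (seg B₁ B₂ a T ω)) := by
  have h1 := h.cont₁ ω
  have h2 := h.cont₂ ω
  have h3 : Continuous fun s : I => a + T * Real.toNNReal s :=
    continuous_const.add
      (continuous_const.mul (continuous_real_toNNReal.comp continuous_subtype_val))
  exact (h1.comp h3).prodMk (h2.comp h3)

/-- continuity of the bridge -/
lemma continuous_brp {P : Measure Ω} {B₁ B₂ : ℝ≥0 → Ω → ℝ} (h : IsPlanarBM P B₁ B₂) (ω : Ω) :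
    Continuous (pt (brp B₁ B₂ ω)) := by
  have h1 := h.cont₁ ω
  have h2 := h.cont₂ ω
  have h3 : Continuous fun s : I => Real.toNNReal s :=
    continuous_real_toNNReal.comp continuous_subtype_val
  have h4 : Continuous fun s : I => (s : ℝ) := continuous_subtype_val
  have h5 := h1.comp h3
  have h6 := h2.comp h3
  unfold brp pt bridge
  exact ((h5.sub continuous_const).sub (h4.mul continuous_const)).prodMk
    ((h6.sub continuous_const).sub (h4.mul continuous_const))

/-- measurability of the path -/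
lemma measurable_pth {P : Measure Ω} {B₁ B₂ : ℝ≥0 → Ω → ℝ} (h : IsPlanarBM P B₁ B₂) :
    Measurable (pth B₁ B₂) := by
  have h1 := h.meas₁
  have h2 := h.meas₂
  exact (measurable_pi_lambda _ fun s => h1 _).prodMk (measurable_pi_lambda _ fun s => h2 _)

/-- measurability of the path -/
lemma measurable_seg {P : Measure Ω} {B₁ B₂ : ℝ≥0 → Ω → ℝ} (h : IsPlanarBM P B₁ B₂)
    (a T : ℝ≥0) : Measurable (seg B₁ B₂ a T) := by
  have h1 := h.meas₁
  have h2 := h.meas₂
  exact (measurable_pi_lambda _ fun s => h1 _).prodMk (measurable_pi_lambda _ fun s => h2 _)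

/-- measurability of the bridge -/
lemma measurable_brp {P : Measure Ω} {B₁ B₂ : ℝ≥0 → Ω → ℝ} (h : IsPlanarBM P B₁ B₂) :
    Measurable (brp B₁ B₂) := by
  have h1 := h.meas₁
  have h2 := h.meas₂
  refine (measurable_pi_lambda _ fun s => ?_).prodMk (measurable_pi_lambda _ fun s => ?_)
  · exact ((h1 _).sub (h1 _)).sub (((h1 _).sub (h1 _)).const_mul _)
  · exact ((h2 _).sub (h2 _)).sub (((h2 _).sub (h2 _)).const_mul _)

lemma planar_zero {P : Measure Ω} {B₁ B₂ : ℝ≥0 → Ω → ℝ} (h : IsPlanarBM P B₁ B₂) :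
    ∀ᵐ ω ∂P, B₁ 0 ω = 0 ∧ B₂ 0 ω = 0 := by
  filter_upwards [h.bm₁.eval_zero_ae_eq_zero, h.bm₂.eval_zero_ae_eq_zero] with ω h1 h2
  exact ⟨h1, h2⟩

end Pool.Agent.Helper83.CD
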