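import Pool.Agent.Helper83.CD.Area
import Pool.Agent.Helper83.CD.Trans

/-!
# CD frame F, piece CD-F8b: inclusion and exclusion of ranges
-/

set_option autoImplicit false

namespace Pool.Agent.Helper83.CD

open MeasureTheory ProbabilityTheory Metric Set TopologicalSpace
open scoped ENNReal NNReal unitInterval
open Pool.Agent.Helper16.CD

variable {Ω : Type} [MeasurableSpace Ω]

private lemma Levy2_mem {w : Pth} (hw : Continuous (pt w)) (z : Plane) :
    dd z w ≤ 0 ↔ z ∈ range (pt w) := by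
  have hc : IsClosed (range (pt w)) := (isCompact_range hw).isClosed
  rw [dd_eq hw, nonpos_iff_eq_zero, ← mem_closure_iff_infEDist_zero, hc.closure_eq]

private lemma Levy2_range (b : ℝ≥0 → Plane) (a T : ℝ≥0) (hT : T ≠ 0) :
    (range fun s : I => b (a + T * Real.toNNReal s)) = b '' Icc a (a + T) := by
  ext z
  constructor
  · rintro ⟨s, rfl⟩
    refine ⟨_, ⟨le_self_add, ?_⟩, rfl⟩
    have h1 : Real.toNNReal s ≤ 1 := by
      rw [← Real.toNNReal_one]
      exact Real.toNNReal_le_toNNReal s.2.2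
    have h2 : T * Real.toNNReal s ≤ T := by
      calc T * Real.toNNReal s ≤ T * 1 := by gcongr
        _ = T := mul_one T
    gcongr
  · rintro ⟨t, ⟨ht1, ht2⟩, rfl⟩
    obtain ⟨u, rfl⟩ := exists_add_of_le ht1
    have hu : u ≤ T := by simpa using ht2
    have hu1 : ((u / T : ℝ≥0) : ℝ) ≤ 1 := by
      have : u / T ≤ 1 := div_le_one_of_le₀ hu zero_le
      exact_mod_cast this
    refine ⟨⟨((u / T : ℝ≥0) : ℝ), (u / T).2, hu1⟩, ?_⟩
    change b (a + T * Real.toNNReal ((u / T : ℝ≥0) : ℝ)) = b (a + u)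
    rw [Real.toNNReal_coe, mul_div_cancel₀ _ hT]

private lemma Levy2_range' (b : ℝ≥0 → Plane) :
    (range fun s : I => b (Real.toNNReal s)) = b '' Icc 0 1 := by
  have h := Levy2_range b 0 1 one_ne_zero
  simpa using h

/-- piece F8-4 (inclusion and exclusion, translated by `-B 1`).
Proof: `ar_zero_eq`; the range of `seg 0 2` is the union of the ranges of `pth` and `seg 1 1`
(`s ≤ 1/2` or `s ≥ 1/2`), `measure_union_add_inter` (ranges are compact); the intersection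
translated by `-(B₁ 1 ω, B₂ 1 ω)` is the intersection of the ranges of `pth (rev B₁) (rev B₂)`
(`rev B s = B (1 - s) - B 1` for `s ≤ 1`) and of `pth (shi B₁ 1) (shi B₂ 1)`;
membership in a compact range is `dd z _ ≤ 0` (`dd_eq`, `mem_closure_iff_infEDist_zero`);
`measure_preimage_add_right`. -/
lemma ar_inter {P : Measure Ω} {B₁ B₂ : ℝ≥0 → Ω → ℝ} (h : IsPlanarBM P B₁ B₂) (ω : Ω) :
    ar 0 (seg B₁ B₂ 0 2 ω) +
      volume {z : Plane | dd z (pth (rev B₁) (rev B₂) ω) ≤ 0 ∧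
        dd z (pth (shi B₁ 1) (shi B₂ 1) ω) ≤ 0} =
      ar 0 (pth B₁ B₂ ω) + ar 0 (seg B₁ B₂ 1 1 ω) := by
  obtain ⟨b, hb⟩ : ∃ b : ℝ≥0 → Plane, b = fun t => (B₁ t ω, B₂ t ω) := ⟨_, rfl⟩
  have e1 : range (pt (pth B₁ B₂ ω)) = b '' Icc 0 1 := by
    rw [← Levy2_range', hb]
    rfl
  have e2 : range (pt (seg B₁ B₂ 1 1 ω)) = b '' Icc 1 2 := by
    have h2 : (1 : ℝ≥0) + 1 = 2 := by norm_num
    rw [← h2, ← Levy2_range b 1 1 one_ne_zero, hb]
    rfl
  have e3 : range (pt (seg B₁ B₂ 0 2 ω)) = b '' Icc 0 2 := by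
    have h2 : (0 : ℝ≥0) + 2 = 2 := by norm_num
    have h3 := Levy2_range b 0 2 two_ne_zero
    rw [h2] at h3
    rw [← h3, hb]
    rfl
  rw [ar_zero_eq (continuous_seg h 0 2 ω), ar_zero_eq (continuous_pth h ω),
    ar_zero_eq (continuous_seg h 1 1 ω)]
  have hunion : range (pt (seg B₁ B₂ 0 2 ω)) =
      range (pt (pth B₁ B₂ ω)) ∪ range (pt (seg B₁ B₂ 1 1 ω)) := by
    rw [e1, e2, e3, ← image_union, Icc_union_Icc_eq_Icc (by norm_num) (by norm_num)]
  have hc1 := continuous_pth (planar_rev h) ω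
  have hc2 := continuous_pth (planar_shi h 1) ω
  have f1 : ∀ z : Plane, z ∈ range (pt (pth (rev B₁) (rev B₂) ω)) ↔ z + b 1 ∈ b '' Icc 0 1 := by
    intro z
    obtain ⟨r, hr⟩ : ∃ r : ℝ≥0 → Plane, r = fun t => (rev B₁ t ω, rev B₂ t ω) := ⟨_, rfl⟩
    have g1 : range (pt (pth (rev B₁) (rev B₂) ω)) = r '' Icc 0 1 := by
      rw [← Levy2_range', hr]
      rfl
    have g2 : ∀ t : ℝ≥0, t ≤ 1 → r t + b 1 = b (1 - t) := by
      intro t ht
      rw [hr, hb]
      have g3 : max 1 t = 1 := max_eq_left ht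
      apply Prod.ext
      · change B₁ (1 - t) ω + B₁ (max 1 t) ω - 2 * B₁ 1 ω + B₁ 1 ω = B₁ (1 - t) ω
        rw [g3]
        ring
      · change B₂ (1 - t) ω + B₂ (max 1 t) ω - 2 * B₂ 1 ω + B₂ 1 ω = B₂ (1 - t) ω
        rw [g3]
        ring
    rw [g1]
    constructor
    · rintro ⟨t, ⟨-, ht⟩, rfl⟩
      exact ⟨1 - t, ⟨zero_le, tsub_le_self⟩, (g2 t ht).symm⟩
    · rintro ⟨t, ⟨-, ht⟩, hz⟩
      refine ⟨1 - t, ⟨zero_le, tsub_le_self⟩, ?_⟩
      have g4 := g2 (1 - t) tsub_le_self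
      rw [tsub_tsub_cancel_of_le ht, hz] at g4
      exact add_right_cancel g4
  have f2 : ∀ z : Plane, z ∈ range (pt (pth (shi B₁ 1) (shi B₂ 1) ω)) ↔
      z + b 1 ∈ b '' Icc 1 2 := by
    intro z
    obtain ⟨r, hr⟩ : ∃ r : ℝ≥0 → Plane, r = fun t => (shi B₁ 1 t ω, shi B₂ 1 t ω) := ⟨_, rfl⟩
    have g1 : range (pt (pth (shi B₁ 1) (shi B₂ 1) ω)) = r '' Icc 0 1 := by
      rw [← Levy2_range', hr]
      rfl
    have g2 : ∀ t : ℝ≥0, r t + b 1 = b (1 + t) := by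
      intro t
      rw [hr, hb]
      apply Prod.ext
      · change B₁ (1 + t) ω - B₁ 1 ω + B₁ 1 ω = B₁ (1 + t) ω
        ring
      · change B₂ (1 + t) ω - B₂ 1 ω + B₂ 1 ω = B₂ (1 + t) ω
        ring
    rw [g1]
    constructor
    · rintro ⟨t, ⟨-, ht⟩, rfl⟩
      refine ⟨1 + t, ⟨le_self_add, ?_⟩, (g2 t).symm⟩
      calc 1 + t ≤ 1 + 1 := by gcongr
        _ = 2 := by norm_num
    · rintro ⟨t, ⟨ht1, ht2⟩, hz⟩
      obtain ⟨u, rfl⟩ := exists_add_of_le ht1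
      refine ⟨u, ⟨zero_le, ?_⟩, ?_⟩
      · have h2 : (1 : ℝ≥0) + u ≤ 1 + 1 := ht2.trans (by norm_num)
        simpa using h2
      · rw [← g2] at hz
        exact add_right_cancel hz
  have hset : {z : Plane | dd z (pth (rev B₁) (rev B₂) ω) ≤ 0 ∧
      dd z (pth (shi B₁ 1) (shi B₂ 1) ω) ≤ 0} =
      (fun z => z + b 1) ⁻¹' (range (pt (pth B₁ B₂ ω)) ∩ range (pt (seg B₁ B₂ 1 1 ω))) := by
    ext z
    simp only [mem_ofPred_eq, mem_preimage, mem_inter_iff]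
    rw [Levy2_mem hc1, Levy2_mem hc2, f1, f2, e1, e2]
  rw [hset, measure_preimage_add_right, hunion]
  exact measure_union_add_inter _ (isCompact_range (continuous_seg h 1 1 ω)).measurableSet

end Pool.Agent.Helper83.CD
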