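import Pool.Agent.Helper83.CD.Levy1
import Pool.Agent.Helper83.CD.Levy2
import Pool.Agent.Helper83.CD.Law2

/-!
# CD frame F, piece CD-F8c: the range of planar Brownian motion has area zero (Levy)
-/

set_option autoImplicit false

namespace Pool.Agent.Helper83.CD

open MeasureTheory ProbabilityTheory Metric Set TopologicalSpace
open scoped ENNReal NNReal unitInterval
open Pool.Agent.Helper16.CD

variable {Ω : Type} [MeasurableSpace Ω]

private lemma levy_ms (z : Plane) : MeasurableSet {w : Pth | dd z w ≤ 0} := by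
  have h0 : Measurable fun w : Pth => ((z, w) : Plane × Pth) := measurable_prodMk_left
  have h := measurable_dd.comp h0
  exact measurableSet_le h measurable_const

private lemma levy_S {F : Ω → Pth} (hF : Measurable F) :
    MeasurableSet {p : Plane × Ω | dd p.1 (F p.2) ≤ 0} := by
  have h0 : Measurable fun p : Plane × Ω => ((p.1, F p.2) : Plane × Pth) :=
    measurable_fst.prodMk (hF.comp measurable_snd)
  have m1 := measurable_dd.comp h0
  exact measurableSet_le m1 measurable_const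

/-- probability of hitting `z` -/
noncomputable def qz (P : Measure Ω) (B₁ B₂ : ℝ≥0 → Ω → ℝ) (z : Plane) : ℝ≥0∞ :=
  P {ω | dd z (pth B₁ B₂ ω) ≤ 0}

/-- piece F8-5: `qz` does not depend on the Brownian motion (`law_planar` with the indicator of
`{w | dd z w ≤ 0}`, `lintegral_indicator_one`). -/
lemma qz_eq {P : Measure Ω} [IsProbabilityMeasure P] {B₁ B₂ B₁' B₂' : ℝ≥0 → Ω → ℝ}
    (h : IsPlanarBM P B₁ B₂) (h' : IsPlanarBM P B₁' B₂') (z : Plane) :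
    qz P B₁ B₂ z = qz P B₁' B₂' z := by
  have key : ∀ {C₁ C₂ : ℝ≥0 → Ω → ℝ}, IsPlanarBM P C₁ C₂ →
      ∫⁻ ω, ({w : Pth | dd z w ≤ 0}.indicator 1 : Pth → ℝ≥0∞) (pth C₁ C₂ ω) ∂P =
        qz P C₁ C₂ z := by
    intro C₁ C₂ hC
    have hm : MeasurableSet ((pth C₁ C₂) ⁻¹' {w : Pth | dd z w ≤ 0}) :=
      measurable_pth hC (levy_ms z)
    have h1 : (fun ω => ({w : Pth | dd z w ≤ 0}.indicator 1 : Pth → ℝ≥0∞) (pth C₁ C₂ ω)) =
        ((pth C₁ C₂) ⁻¹' {w : Pth | dd z w ≤ 0}).indicator 1 := by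
      ext ω
      rfl
    rw [h1, lintegral_indicator_one hm]
    rfl
  rw [← key h, ← key h']
  exact law_planar h h' (measurable_one.indicator (levy_ms z))

private lemma levy_inter {P : Measure Ω} [IsProbabilityMeasure P] {F G : Ω → Pth}
    (hF : Measurable F) (hG : Measurable G) (hi : IndepFun F G P) :
    ∫⁻ ω, volume {z : Plane | dd z (F ω) ≤ 0 ∧ dd z (G ω) ≤ 0} ∂P =
      ∫⁻ z, P {ω | dd z (F ω) ≤ 0} * P {ω | dd z (G ω) ≤ 0} := by
  obtain ⟨S, hS⟩ : ∃ S : Set (Plane × Ω), S = {p : Plane × Ω | dd p.1 (F p.2) ≤ 0} ∩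
    {p : Plane × Ω | dd p.1 (G p.2) ≤ 0} := ⟨_, rfl⟩
  have mS : MeasurableSet S := by
    rw [hS]
    exact (levy_S hF).inter (levy_S hG)
  have e1 := Measure.prod_apply_symm (μ := (volume : Measure Plane)) (ν := P) mS
  have e2 := Measure.prod_apply (μ := (volume : Measure Plane)) (ν := P) mS
  have e3 : ∫⁻ ω, volume {z : Plane | dd z (F ω) ≤ 0 ∧ dd z (G ω) ≤ 0} ∂P =
      ∫⁻ ω, volume ((fun z => (z, ω)) ⁻¹' S) ∂P := by
    refine lintegral_congr fun ω => ?_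
    congr 1
    ext z
    rw [hS]
    exact Iff.rfl
  rw [e3, ← e1, e2]
  refine lintegral_congr fun z => ?_
  have e4 : Prod.mk z ⁻¹' S = F ⁻¹' {w : Pth | dd z w ≤ 0} ∩ G ⁻¹' {w : Pth | dd z w ≤ 0} := by
    ext ω
    rw [hS]
    exact Iff.rfl
  have e5 := hi.measure_inter_preimage_eq_mul {w : Pth | dd z w ≤ 0} {w : Pth | dd z w ≤ 0}
    (levy_ms z) (levy_ms z)
  rw [e4, e5]
  congr 1

/-- piece F8-6 (Tonelli and independence).
Proof: the set `{(z, ω) | ...}` is measurable (`measurable_dd`); exchange the integrals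
(`lintegral_lintegral_swap` for the indicator, or `Measure.prod_apply`/`prod_apply_symm`); for
fixed `z` use `indep_rev_shi` (`IndepFun.measure_inter_preimage_eq_mul`), `planar_rev`,
`planar_shi` and `qz_eq`. -/
lemma lintegral_inter {P : Measure Ω} [IsProbabilityMeasure P] {B₁ B₂ : ℝ≥0 → Ω → ℝ}
    (h : IsPlanarBM P B₁ B₂) :
    ∫⁻ ω, volume {z : Plane | dd z (pth (rev B₁) (rev B₂) ω) ≤ 0 ∧
        dd z (pth (shi B₁ 1) (shi B₂ 1) ω) ≤ 0} ∂P = ∫⁻ z, qz P B₁ B₂ z ^ 2 := by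
  have hr := planar_rev h
  have hs := planar_shi h 1
  rw [levy_inter (measurable_pth hr) (measurable_pth hs) (indep_rev_shi h)]
  refine lintegral_congr fun z => ?_
  have e5 : P {ω | dd z (pth (rev B₁) (rev B₂) ω) ≤ 0} = qz P B₁ B₂ z := qz_eq hr h z
  have e6 : P {ω | dd z (pth (shi B₁ 1) (shi B₂ 1) ω) ≤ 0} = qz P B₁ B₂ z := qz_eq hs h z
  rw [e5, e6, sq]

/-- piece F8-7: Tonelli for one path -/
lemma lintegral_ar_eq {P : Measure Ω} [IsProbabilityMeasure P] {B₁ B₂ : ℝ≥0 → Ω → ℝ}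
    (h : IsPlanarBM P B₁ B₂) :
    ∫⁻ ω, ar 0 (pth B₁ B₂ ω) ∂P = ∫⁻ z, qz P B₁ B₂ z := by
  set S : Set (Plane × Ω) := {p | dd p.1 (pth B₁ B₂ p.2) ≤ 0} with hS
  have mS : MeasurableSet S := levy_S (measurable_pth h)
  have e1 := Measure.prod_apply_symm (μ := (volume : Measure Plane)) (ν := P) mS
  have e2 := Measure.prod_apply (μ := (volume : Measure Plane)) (ν := P) mS
  have e3 : ∫⁻ ω, ar 0 (pth B₁ B₂ ω) ∂P = ∫⁻ ω, volume ((fun z => (z, ω)) ⁻¹' S) ∂P := rfl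
  rw [e3, ← e1, e2]
  rfl

/-- piece F8-8 (Levy).
Proof: let `a = ∫⁻ ar 0 (pth B₁ B₂)`, finite by F8-1.  Integrate F8-4: `2 a + b = a + a` with
`b = ∫⁻ z, qz z ^ 2` (F8-2, F8-3, F8-6), so `b = 0`; `qz = 0` almost everywhere
(`lintegral_eq_zero_iff`), and `a = ∫⁻ qz = 0` by F8-7. -/
theorem levy {P : Measure Ω} [IsProbabilityMeasure P] {B₁ B₂ : ℝ≥0 → Ω → ℝ}
    (h : IsPlanarBM P B₁ B₂) : ∫⁻ ω, ar 0 (pth B₁ B₂ ω) ∂P = 0 := by
  have hr := planar_rev h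
  have hs := planar_shi h 1
  have ma : Measurable fun ω => ar 0 (pth B₁ B₂ ω) := (measurable_ar 0).comp (measurable_pth h)
  have ms : Measurable fun ω => ar 0 (seg B₁ B₂ 0 2 ω) :=
    (measurable_ar 0).comp (measurable_seg h 0 2)
  have e0 : ∫⁻ ω, (ar 0 (seg B₁ B₂ 0 2 ω) +
      volume {z : Plane | dd z (pth (rev B₁) (rev B₂) ω) ≤ 0 ∧
        dd z (pth (shi B₁ 1) (shi B₂ 1) ω) ≤ 0}) ∂P =
      ∫⁻ ω, (ar 0 (pth B₁ B₂ ω) + ar 0 (seg B₁ B₂ 1 1 ω)) ∂P :=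
    lintegral_congr fun ω => ar_inter h ω
  rw [lintegral_add_left ms, lintegral_add_left ma, lintegral_ar_two h, lintegral_ar_shift h,
    lintegral_inter h] at e0
  have hfin : ∫⁻ ω, ar 0 (pth B₁ B₂ ω) ∂P ≠ ⊤ := by
    have := lintegral_ar_lt h 0
    rw [ENNReal.coe_zero] at this
    exact this.ne
  have hb : ∫⁻ z, qz P B₁ B₂ z ^ 2 = 0 := by
    rw [two_mul] at e0
    have h2 : ∫⁻ ω, ar 0 (pth B₁ B₂ ω) ∂P + ∫⁻ ω, ar 0 (pth B₁ B₂ ω) ∂P ≠ ⊤ :=
      ENNReal.add_ne_top.2 ⟨hfin, hfin⟩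
    have h3 : ∫⁻ ω, ar 0 (pth B₁ B₂ ω) ∂P + ∫⁻ ω, ar 0 (pth B₁ B₂ ω) ∂P +
        ∫⁻ z, qz P B₁ B₂ z ^ 2 =
        ∫⁻ ω, ar 0 (pth B₁ B₂ ω) ∂P + ∫⁻ ω, ar 0 (pth B₁ B₂ ω) ∂P + 0 := by
      rw [e0, add_zero]
    exact (ENNReal.add_right_inj h2).1 h3
  have mq : Measurable fun z => qz P B₁ B₂ z := by
    have mS : MeasurableSet {p : Plane × Ω | dd p.1 (pth B₁ B₂ p.2) ≤ 0} :=
      levy_S (measurable_pth h)
    exact measurable_measure_prodMk_left mS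
  rw [lintegral_eq_zero_iff (mq.pow_const 2)] at hb
  rw [lintegral_ar_eq h, lintegral_eq_zero_iff mq]
  filter_upwards [hb] with z hz
  simpa using hz

end Pool.Agent.Helper83.CD
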