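import Pool.Agent.Helper83.CD.Half1
import Pool.Agent.Helper83.CD.Levy

/-!
# CD frame F, piece CD-F9b: the first half of the bridge has area zero
-/

set_option autoImplicit false

namespace Pool.Agent.Helper83.CD

open MeasureTheory ProbabilityTheory Metric Set TopologicalSpace
open scoped ENNReal NNReal unitInterval
open Pool.Agent.Helper16.CD

variable {Ω : Type} [MeasurableSpace Ω]

/-- the path `w` plus the line with slope `x` -/
private def addLine (p : Pth × (ℝ × ℝ)) : Pth :=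
  (fun s => p.1.1 s + (s : ℝ) * p.2.1, fun s => p.1.2 s + (s : ℝ) * p.2.2)

private lemma measurable_addLine : Measurable addLine := by
  refine (measurable_pi_lambda _ fun s => ?_).prodMk (measurable_pi_lambda _ fun s => ?_)
  · exact ((measurable_pi_apply s).comp (measurable_fst.comp measurable_fst)).add
      ((measurable_fst.comp measurable_snd).const_mul _)
  · exact ((measurable_pi_apply s).comp (measurable_snd.comp measurable_fst)).add
      ((measurable_snd.comp measurable_snd).const_mul _)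

private lemma measurable_hbr {B : ℝ≥0 → Ω → ℝ} (hm : ∀ t, Measurable (B t)) :
    Measurable (hbr B) :=
  measurable_pi_lambda _ fun s => (hm _).sub ((hm _).const_mul _)

private lemma measurable_slo {B : ℝ≥0 → Ω → ℝ} (hm : ∀ t, Measurable (B t)) :
    Measurable (slo B) := (hm _).sub ((hm _).div_const _)

/-- law of two independent pairs -/
private lemma law_pairs {P : Measure Ω} [IsProbabilityMeasure P] {b₁ b₂ : Ω → I → ℝ}
    {y₁ y₂ : Ω → ℝ} (mb₁ : Measurable b₁) (mb₂ : Measurable b₂) (my₁ : Measurable y₁)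
    (my₂ : Measurable y₂)
    (h : IndepFun (fun ω => (b₁ ω, y₁ ω)) (fun ω => (b₂ ω, y₂ ω)) P) (h₁ : IndepFun b₁ y₁ P)
    (h₂ : IndepFun b₂ y₂ P) :
    P.map (fun ω => ((b₁ ω, b₂ ω), (y₁ ω, y₂ ω))) =
      (P.map fun ω => (b₁ ω, b₂ ω)).prod ((P.map y₁).prod (P.map y₂)) := by
  have h3 := indep_rearr mb₁ my₁ mb₂ my₂ h h₁ h₂
  have h4 : IndepFun y₁ y₂ P := h.comp measurable_snd measurable_snd
  rw [(indepFun_iff_map_prod_eq_prod_map_map (mb₁.prodMk mb₂).aemeasurable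
    (my₁.prodMk my₂).aemeasurable).1 h3,
    (indepFun_iff_map_prod_eq_prod_map_map my₁.aemeasurable my₂.aemeasurable).1 h4]

/-- the first half of the path has area zero -/
private lemma area_first {P : Measure Ω} [IsProbabilityMeasure P] {B₁ B₂ : ℝ≥0 → Ω → ℝ}
    (h : IsPlanarBM P B₁ B₂) :
    ∀ᵐ ω ∂P, ar 0 (addLine ((hbr B₁ ω, hbr B₂ ω), (B₁ (1 / 2) ω, B₂ (1 / 2) ω))) = 0 := by
  have hc : (1 / 2 : ℝ≥0) ≠ 0 := by norm_num
  have h1 := (lintegral_eq_zero_iff ((measurable_ar 0).comp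
    (measurable_pth (planar_sca h hc)))).1 (levy (planar_sca h hc))
  filter_upwards [h1] with ω hω
  have hs : (0 : ℝ) < √((1 / 2 : ℝ≥0) : ℝ) := by
    apply Real.sqrt_pos.2
    norm_num
  have ht : ∀ s : I, Real.toNNReal ((s : ℝ) / 2) = 1 / 2 * Real.toNNReal s := by
    intro s
    ext
    rw [Real.coe_toNNReal _ (div_nonneg s.2.1 (by norm_num))]
    push_cast
    rw [Real.coe_toNNReal _ s.2.1]
    ring
  have h2 : addLine ((hbr B₁ ω, hbr B₂ ω), (B₁ (1 / 2) ω, B₂ (1 / 2) ω)) =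
      (fun s => √((1 / 2 : ℝ≥0) : ℝ) * (pth (sca B₁ (1 / 2)) (sca B₂ (1 / 2)) ω).1 s,
        fun s => √((1 / 2 : ℝ≥0) : ℝ) * (pth (sca B₁ (1 / 2)) (sca B₂ (1 / 2)) ω).2 s) := by
    refine Prod.ext (funext fun s => ?_) (funext fun s => ?_)
    · simp only [addLine, hbr, pth, sca]
      rw [ht s, sub_add_cancel, mul_inv_cancel_left₀ hs.ne']
    · simp only [addLine, hbr, pth, sca]
      rw [ht s, sub_add_cancel, mul_inv_cancel_left₀ hs.ne']
  rw [h2, ar_smul _ hs]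
  have h3 : ar 0 (pth (sca B₁ (1 / 2)) (sca B₂ (1 / 2)) ω) = 0 := hω
  rw [h3, mul_zero]

/-- piece F9-4 (first half of the bridge).
Proof: let `g (w, x) = ar 0 (w + s x)` on `Pth × Plane` (measurable), `b = (hbr B₁, hbr B₂)`,
`η = (B₁ (1/2), B₂ (1/2))`, `ξ = (slo B₁, slo B₂)`.  By F9-1, F9-2 and `indep_rearr` both `η` and
`ξ` are independent of `b`; the law of `(b, ξ)` is `law b ⊗ (law ξ₁ ⊗ law ξ₂)` which is absolutely
continuous for `law b ⊗ (law η₁ ⊗ law η₂)`, the law of `(b, η)`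
(`Measure.AbsolutelyContinuous.prod`, F9-3).  `g (b, η)` is the area of `s ↦ B (s / 2)`, that is
`√(1/2)` times `pth (sca B₁ (1/2)) (sca B₂ (1/2))`, almost surely zero by `levy`
(`lintegral_eq_zero_iff`) and `ar_smul`.  Hence `g (b, ξ) = 0` almost surely (`fbr_eq`). -/
theorem area_fbr {P : Measure Ω} [IsProbabilityMeasure P] {B₁ B₂ : ℝ≥0 → Ω → ℝ}
    (h : IsPlanarBM P B₁ B₂) : ∀ᵐ ω ∂P, ar 0 (fbr B₁ ω, fbr B₂ ω) = 0 := by
  have hN : MeasurableSet {p : Pth × (ℝ × ℝ) | ar 0 (addLine p) ≠ 0} :=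
    ((measurable_ar 0).comp measurable_addLine) (measurableSet_singleton 0).compl
  have mb₁ := measurable_hbr h.meas₁
  have mb₂ := measurable_hbr h.meas₂
  have ms₁ := measurable_slo h.meas₁
  have ms₂ := measurable_slo h.meas₂
  have g1 : Measurable fun x : ℝ≥0 → ℝ =>
      ((fun s : I => x (Real.toNNReal ((s : ℝ) / 2)) - (s : ℝ) * x (1 / 2)), x (1 / 2)) := by
    refine Measurable.prodMk (measurable_pi_lambda _ fun s => ?_) (measurable_pi_apply _)
    fun_prop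
  have g2 : Measurable fun x : ℝ≥0 → ℝ =>
      ((fun s : I => x (Real.toNNReal ((s : ℝ) / 2)) - (s : ℝ) * x (1 / 2)),
        x (1 / 2) - x 1 / 2) := by
    refine Measurable.prodMk (measurable_pi_lambda _ fun s => ?_) ?_
    · fun_prop
    · fun_prop
  have i1 : IndepFun (fun ω => (hbr B₁ ω, B₁ (1 / 2) ω)) (fun ω => (hbr B₂ ω, B₂ (1 / 2) ω)) P :=
    h.indep.comp g1 g1
  have i2 : IndepFun (fun ω => (hbr B₁ ω, slo B₁ ω)) (fun ω => (hbr B₂ ω, slo B₂ ω)) P :=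
    h.indep.comp g2 g2
  have l1 := law_pairs mb₁ mb₂ (h.meas₁ _) (h.meas₂ _) i1 (indep_hbr_half h.bm₁ h.meas₁)
    (indep_hbr_half h.bm₂ h.meas₂)
  have l2 := law_pairs mb₁ mb₂ ms₁ ms₂ i2 (indep_hbr_slo h.bm₁ h.meas₁)
    (indep_hbr_slo h.bm₂ h.meas₂)
  have hac : P.map (fun ω => ((hbr B₁ ω, hbr B₂ ω), (slo B₁ ω, slo B₂ ω))) ≪
      P.map (fun ω => ((hbr B₁ ω, hbr B₂ ω), (B₁ (1 / 2) ω, B₂ (1 / 2) ω))) := by
    have : IsProbabilityMeasure (P.map (B₁ (1 / 2))) :=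
      Measure.isProbabilityMeasure_map (h.meas₁ _).aemeasurable
    have : IsProbabilityMeasure (P.map (B₂ (1 / 2))) :=
      Measure.isProbabilityMeasure_map (h.meas₂ _).aemeasurable
    rw [l1, l2]
    exact Measure.AbsolutelyContinuous.rfl.prod
      ((slo_ac h.bm₁ h.meas₁).prod (slo_ac h.bm₂ h.meas₂))
  have mη : Measurable fun ω => ((hbr B₁ ω, hbr B₂ ω), (B₁ (1 / 2) ω, B₂ (1 / 2) ω)) :=
    (mb₁.prodMk mb₂).prodMk ((h.meas₁ _).prodMk (h.meas₂ _))
  have mξ : Measurable fun ω => ((hbr B₁ ω, hbr B₂ ω), (slo B₁ ω, slo B₂ ω)) :=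
    (mb₁.prodMk mb₂).prodMk (ms₁.prodMk ms₂)
  have z1 : P.map (fun ω => ((hbr B₁ ω, hbr B₂ ω), (B₁ (1 / 2) ω, B₂ (1 / 2) ω)))
      {p | ar 0 (addLine p) ≠ 0} = 0 := by
    rw [Measure.map_apply mη hN]
    exact area_first h
  have z2 := hac z1
  rw [Measure.map_apply mξ hN] at z2
  have z3 : ∀ᵐ ω ∂P, ar 0 (addLine ((hbr B₁ ω, hbr B₂ ω), (slo B₁ ω, slo B₂ ω))) = 0 := z2
  filter_upwards [z3] with ω hω
  have h5 : addLine ((hbr B₁ ω, hbr B₂ ω), (slo B₁ ω, slo B₂ ω)) = (fbr B₁ ω, fbr B₂ ω) := by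
    refine Prod.ext (funext fun s => ?_) (funext fun s => ?_)
    · exact (fbr_eq B₁ ω s).symm
    · exact (fbr_eq B₂ ω s).symm
  rw [← h5]
  exact hω

end Pool.Agent.Helper83.CD
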