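import Pool.Agent.Helper83.CD.Fold
import Pool.Agent.Helper83.CD.Trans

/-!
# CD frame F, piece CD-F5a: expected number of loops meeting a ball as an expected area
-/

set_option autoImplicit false

namespace Pool.Agent.Helper83.CD

open MeasureTheory ProbabilityTheory Metric Set TopologicalSpace
open scoped ENNReal NNReal unitInterval
open Pool.Agent.Helper16.CD

variable {Ω : Type} [MeasurableSpace Ω]

/-- the scaled bridge, `q = (x, ω)` -/
noncomputable def srp (B₁ B₂ : ℝ≥0 → Ω → ℝ) (q : I × Ω) : Pth :=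
  (fun s => √(dur q.1) * bridge B₁ q.2 s, fun s => √(dur q.1) * bridge B₂ q.2 s)

/-- piece F5-1: measurability of the scaled bridge -/
lemma measurable_srp {P : Measure Ω} {B₁ B₂ : ℝ≥0 → Ω → ℝ} (h : IsPlanarBM P B₁ B₂) :
    Measurable (srp B₁ B₂) := by
  have h1 := h.meas₁
  have h2 := h.meas₂
  have hd : Measurable fun q : I × Ω => √(dur q.1) := by
    unfold dur
    fun_prop
  refine (measurable_pi_lambda _ fun s => ?_).prodMk (measurable_pi_lambda _ fun s => ?_)
  · refine hd.mul ?_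
    exact (((h1 _).comp measurable_snd).sub ((h1 _).comp measurable_snd)).sub
      ((((h1 _).comp measurable_snd).sub ((h1 _).comp measurable_snd)).const_mul _)
  · refine hd.mul ?_
    exact (((h2 _).comp measurable_snd).sub ((h2 _).comp measurable_snd)).sub
      ((((h2 _).comp measurable_snd).sub ((h2 _).comp measurable_snd)).const_mul _)

private lemma continuous_srp {P : Measure Ω} {B₁ B₂ : ℝ≥0 → Ω → ℝ} (h : IsPlanarBM P B₁ B₂)
    (q : I × Ω) : Continuous (pt (srp B₁ B₂ q)) := by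
  have h1 := continuous_brp h q.2
  have h2 : Continuous (bridge B₁ q.2) := continuous_fst.comp h1
  have h3 : Continuous (bridge B₂ q.2) := continuous_snd.comp h1
  exact (continuous_const.mul h2).prodMk (continuous_const.mul h3)

/-- piece F5-2 (the shape is a translate of the range of `srp`; meeting a ball) -/
lemma meets_iff {P : Measure Ω} {B₁ B₂ : ℝ≥0 → Ω → ℝ} (h : IsPlanarBM P B₁ B₂) (v : ℤ × ℤ)
    (e : Mark Ω) (x : Plane) (t : ℝ) (ht : 0 ≤ t) :
    (lp (shapeB B₁ B₂) ((0, v), e) ∩ closedBall x t).Nonempty ↔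
      dd (x - ((v.1 : ℝ) + e.1.1, (v.2 : ℝ) + e.1.2.1)) (srp B₁ B₂ (e.1.2.2, e.2)) ≤
        ENNReal.ofReal t := by
  have hc := continuous_srp h (e.1.2.2, e.2)
  set c : Plane := ((v.1 : ℝ) + e.1.1, (v.2 : ℝ) + e.1.2.1) with hcdef
  have hpos : ∀ s : I, pos (0, v) ((e.1.1 : ℝ) + √(dur e.1.2.2) * bridge B₁ e.2 s,
      (e.1.2.1 : ℝ) + √(dur e.1.2.2) * bridge B₂ e.2 s) =
      c + pt (srp B₁ B₂ (e.1.2.2, e.2)) s := by
    intro s
    have hside : side ((0, v) : Idx) = 1 := by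
      unfold side
      simp
    unfold pos
    rw [hside]
    apply Prod.ext
    · show (1 : ℝ) * ((v.1 : ℝ) + ((e.1.1 : ℝ) + √(dur e.1.2.2) * bridge B₁ e.2 s)) =
        ((v.1 : ℝ) + e.1.1) + √(dur e.1.2.2) * bridge B₁ e.2 s
      ring
    · show (1 : ℝ) * ((v.2 : ℝ) + ((e.1.2.1 : ℝ) + √(dur e.1.2.2) * bridge B₂ e.2 s)) =
        ((v.2 : ℝ) + e.1.2.1) + √(dur e.1.2.2) * bridge B₂ e.2 s
      ring
  have key : ∀ s : I, dist (c + pt (srp B₁ B₂ (e.1.2.2, e.2)) s) x ≤ t ↔
      edist (x - c) (pt (srp B₁ B₂ (e.1.2.2, e.2)) s) ≤ ENNReal.ofReal t := by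
    intro s
    rw [edist_dist, ENNReal.ofReal_le_ofReal_iff ht]
    have : dist (x - c) (pt (srp B₁ B₂ (e.1.2.2, e.2)) s) =
        dist (c + pt (srp B₁ B₂ (e.1.2.2, e.2)) s) x := by
      rw [dist_eq_norm, dist_eq_norm, ← norm_neg]
      congr 1
      abel
    rw [this]
  rw [dd_eq hc]
  constructor
  · rintro ⟨z, ⟨y, ⟨s, rfl⟩, rfl⟩, hz⟩
    rw [mem_closedBall] at hz
    have hz' : dist (c + pt (srp B₁ B₂ (e.1.2.2, e.2)) s) x ≤ t := by
      rw [← hpos s]
      exact hz
    exact (infEDist_le_edist_of_mem (mem_range_self s)).trans ((key s).1 hz')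
  · intro hle
    obtain ⟨y, ⟨s, rfl⟩, hy⟩ := (isCompact_range hc).exists_infEDist_eq_edist
      (range_nonempty _) (x - c)
    rw [hy] at hle
    have hz := (key s).2 hle
    refine ⟨c + pt (srp B₁ B₂ (e.1.2.2, e.2)) s, ?_, mem_closedBall.2 hz⟩
    exact ⟨_, ⟨s, rfl⟩, hpos s⟩

/-- exchange of sum and integral -/
private lemma tsum_swap (P : Measure Ω) [IsProbabilityMeasure P]
    (f : ℤ × ℤ → (I × I) → (I × Ω) → ℝ≥0∞)
    (hf : ∀ v, Measurable fun p : (I × I) × (I × Ω) => f v p.1 p.2) :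
    ∑' v, ∫⁻ q, ∫⁻ u, f v u q ∂(volume : Measure (I × I)) ∂((volume : Measure I).prod P) =
      ∫⁻ q, ∑' v, ∫⁻ u, f v u q ∂(volume : Measure (I × I)) ∂((volume : Measure I).prod P) := by
  symm
  refine lintegral_tsum fun v => ?_
  have hsw : Measurable fun p : (I × Ω) × (I × I) => f v p.2 p.1 :=
    (hf v).comp (measurable_snd.prodMk measurable_fst)
  exact hsw.lintegral_prod_right'.aemeasurable

/-- reflection -/
private lemma ar_reflect (r : ℝ≥0∞) (x : Plane) (w : Pth) :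
    volume {y : Plane | dd (x - y) w ≤ r} = ar r w := by
  have hm2 : MeasurableSet {z : Plane | dd z w ≤ r} :=
    (measurable_dd.comp measurable_prodMk_right) measurableSet_Iic
  have h5 : {y : Plane | dd (x - y) w ≤ r} = (fun y : Plane => x - y) ⁻¹' {z | dd z w ≤ r} := by
    ext y
    rfl
  rw [h5, (Measure.measurePreserving_sub_left volume x).measure_preimage hm2.nullMeasurableSet]
  rfl

/-- regrouping of the variables -/
private lemma regroup (P : Measure Ω) [IsProbabilityMeasure P] (f : (I × I) → (I × Ω) → ℝ≥0∞)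
    (hf : Measurable fun p : (I × I) × (I × Ω) => f p.1 p.2) :
    ∫⁻ e : (I × I × I) × Ω, f (e.1.1, e.1.2.1) (e.1.2.2, e.2)
        ∂((volume : Measure (I × I × I)).prod P) =
      ∫⁻ q, ∫⁻ u, f u q ∂(volume : Measure (I × I)) ∂((volume : Measure I).prod P) := by
  have hreg : Measurable fun e : (I × I × I) × Ω =>
      (((e.1.1, e.1.2.1), (e.1.2.2, e.2)) : (I × I) × (I × Ω)) := by fun_prop
  have hG : Measurable fun e : (I × I × I) × Ω => f (e.1.1, e.1.2.1) (e.1.2.2, e.2) :=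
    hf.comp hreg
  have hG1 : Measurable fun a : I × I × I => ∫⁻ ω, f (a.1, a.2.1) (a.2.2, ω) ∂P :=
    hG.lintegral_prod_right'
  have hH : Measurable fun u : I × I => ∫⁻ q, f u q ∂((volume : Measure I).prod P) :=
    hf.lintegral_prod_right'
  calc ∫⁻ e : (I × I × I) × Ω, f (e.1.1, e.1.2.1) (e.1.2.2, e.2)
        ∂((volume : Measure (I × I × I)).prod P)
      = ∫⁻ a : I × I × I, ∫⁻ ω, f (a.1, a.2.1) (a.2.2, ω) ∂P := lintegral_prod _ hG.aemeasurable
    _ = ∫⁻ a : I, ∫⁻ b : I × I, ∫⁻ ω, f (a, b.1) (b.2, ω) ∂P := by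
        rw [Measure.volume_eq_prod I (I × I)]
        exact lintegral_prod _ hG1.aemeasurable
    _ = ∫⁻ a : I, ∫⁻ b₁ : I, ∫⁻ b₂ : I, ∫⁻ ω, f (a, b₁) (b₂, ω) ∂P := by
        refine lintegral_congr fun a => ?_
        rw [Measure.volume_eq_prod I I]
        exact lintegral_prod _ (hG1.comp measurable_prodMk_left).aemeasurable
    _ = ∫⁻ a : I, ∫⁻ b : I, ∫⁻ q, f (a, b) q ∂((volume : Measure I).prod P) := by
        refine lintegral_congr fun a => lintegral_congr fun b => ?_
        exact (lintegral_prod _ (hf.comp measurable_prodMk_left).aemeasurable).symm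
    _ = ∫⁻ u : I × I, ∫⁻ q, f u q ∂((volume : Measure I).prod P) := by
        rw [Measure.volume_eq_prod I I]
        exact (lintegral_prod _ hH.aemeasurable).symm
    _ = ∫⁻ q, ∫⁻ u, f u q ∂(volume : Measure (I × I)) ∂((volume : Measure I).prod P) :=
        lintegral_lintegral_swap hf.aemeasurable

/-- piece F5-3 (expected number of loops meeting a ball is an expected area).
Proof: by F5-2 and `Measure.prod_apply_symm`/Tonelli on `(I × I × I) × Ω` (regroup as
`(I × I) × (I × Ω)`), the left side is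
`∑' v, ∫⁻ q, ∫⁻ u : I × I, 1{dd (x - (v + u)) (srp q) ≤ ofReal t}`; exchange sum and integral,
F4, and `y ↦ x - y` preserves the measure (`Measure.measurePreserving_sub_left`). -/
lemma tsum_hit {P : Measure Ω} [IsProbabilityMeasure P] {B₁ B₂ : ℝ≥0 → Ω → ℝ}
    (h : IsPlanarBM P B₁ B₂) (x : Plane) (t : ℝ) (ht : 0 ≤ t) :
    ∑' v : ℤ × ℤ, ((volume : Measure (I × I × I)).prod P)
        {e | (lp (shapeB B₁ B₂) ((0, v), e) ∩ closedBall x t).Nonempty} =
      ∫⁻ q, ar (ENNReal.ofReal t) (srp B₁ B₂ q) ∂((volume : Measure I).prod P) := by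
  set r := ENNReal.ofReal t with hr
  -- the indicator
  set F : ℤ × ℤ → (I × I) → (I × Ω) → ℝ≥0∞ := fun v u q =>
    ({z : Plane × Pth | dd (x - z.1) z.2 ≤ r}.indicator (fun _ => (1 : ℝ≥0∞)))
      (((v.1 : ℝ) + u.1, (v.2 : ℝ) + u.2), srp B₁ B₂ q) with hF
  have hset : MeasurableSet {z : Plane × Pth | dd (x - z.1) z.2 ≤ r} := by
    have h1 : Measurable fun z : Plane × Pth => (x - z.1, z.2) :=
      (measurable_const.sub measurable_fst).prodMk measurable_snd
    exact (measurable_dd.comp h1) measurableSet_Iic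
  have hind : Measurable ({z : Plane × Pth | dd (x - z.1) z.2 ≤ r}.indicator
      (fun _ => (1 : ℝ≥0∞))) := measurable_const.indicator hset
  have hsrp := measurable_srp h
  have hFm : ∀ v, Measurable fun p : (I × I) × (I × Ω) => F v p.1 p.2 := by
    intro v
    refine hind.comp ?_
    refine Measurable.prodMk ?_ (hsrp.comp measurable_snd)
    fun_prop
  have hA : ∀ v : ℤ × ℤ, ((volume : Measure (I × I × I)).prod P)
      {e | (lp (shapeB B₁ B₂) ((0, v), e) ∩ closedBall x t).Nonempty} =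
      ∫⁻ q, ∫⁻ u, F v u q ∂(volume : Measure (I × I)) ∂((volume : Measure I).prod P) := by
    intro v
    have hSm : MeasurableSet {e : (I × I × I) × Ω |
        dd (x - ((v.1 : ℝ) + e.1.1, (v.2 : ℝ) + e.1.2.1)) (srp B₁ B₂ (e.1.2.2, e.2)) ≤ r} := by
      have h2 : Measurable fun e : (I × I × I) × Ω =>
          ((((v.1 : ℝ) + e.1.1, (v.2 : ℝ) + e.1.2.1), srp B₁ B₂ (e.1.2.2, e.2)) : Plane × Pth) := by
        refine Measurable.prodMk ?_ (hsrp.comp ?_) <;> fun_prop
      exact h2 hset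
    have e1 : {e : (I × I × I) × Ω |
        (lp (shapeB B₁ B₂) ((0, v), e) ∩ closedBall x t).Nonempty} =
        {e : (I × I × I) × Ω |
        dd (x - ((v.1 : ℝ) + e.1.1, (v.2 : ℝ) + e.1.2.1)) (srp B₁ B₂ (e.1.2.2, e.2)) ≤ r} := by
      ext e
      exact meets_iff h v e x t ht
    rw [e1, ← lintegral_indicator_one hSm]
    have e2 : ∀ e : (I × I × I) × Ω, ({e : (I × I × I) × Ω |
        dd (x - ((v.1 : ℝ) + e.1.1, (v.2 : ℝ) + e.1.2.1)) (srp B₁ B₂ (e.1.2.2, e.2)) ≤ r}.indicator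
        (1 : (I × I × I) × Ω → ℝ≥0∞)) e = F v (e.1.1, e.1.2.1) (e.1.2.2, e.2) := by
      intro e
      rfl
    rw [lintegral_congr e2]
    exact regroup P (F v) (hFm v)
  rw [tsum_congr hA, tsum_swap P F hFm]
  refine lintegral_congr fun q => ?_
  have hfold := fold (F := fun y : Plane =>
    ({z : Plane × Pth | dd (x - z.1) z.2 ≤ r}.indicator (fun _ => (1 : ℝ≥0∞)))
    (y, srp B₁ B₂ q)) (hind.comp measurable_prodMk_right)
  refine hfold.trans ?_
  have hm1 : MeasurableSet {y : Plane | dd (x - y) (srp B₁ B₂ q) ≤ r} :=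
    measurable_prodMk_right hset
  have e4 : ∀ y : Plane, ({z : Plane × Pth | dd (x - z.1) z.2 ≤ r}.indicator
      (fun _ => (1 : ℝ≥0∞))) (y, srp B₁ B₂ q) =
      ({y : Plane | dd (x - y) (srp B₁ B₂ q) ≤ r}.indicator (1 : Plane → ℝ≥0∞)) y := by
    intro y
    rfl
  rw [lintegral_congr e4, lintegral_indicator_one hm1]
  exact ar_reflect r x _

end Pool.Agent.Helper83.CD
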