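import Pool.Agent.Helper83.CD.Trans

/-!
# CD frame F, piece CD-F7a: the law of planar Brownian motion
-/

set_option autoImplicit false

namespace Pool.Agent.Helper83.CD

open MeasureTheory ProbabilityTheory Metric Set TopologicalSpace
open scoped ENNReal NNReal unitInterval
open Pool.Agent.Helper16.CD

variable {Ω : Type} [MeasurableSpace Ω]

/-- piece F7-1: uniqueness of the law of real Brownian motion.
Proof: both laws are projective limits of `BrownianReal.projectiveFamily`
(`IsProjectiveLimit.unique`; `hasLaw I`, `Measure.map_map`). -/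
lemma law_real {Ω' : Type} [MeasurableSpace Ω'] {P : Measure Ω} {P' : Measure Ω'}
    {B : ℝ≥0 → Ω → ℝ} {B' : ℝ≥0 → Ω' → ℝ} (h : IsPreBrownianReal B P)
    (h' : IsPreBrownianReal B' P') (hm : ∀ t, Measurable (B t)) (hm' : ∀ t, Measurable (B' t)) :
    P.map (fun ω t => B t ω) = P'.map (fun ω t => B' t ω) := by
  have key : ∀ {Ω'' : Type} [MeasurableSpace Ω''] {Q : Measure Ω''} {C : ℝ≥0 → Ω'' → ℝ},
      IsPreBrownianReal C Q → (∀ t, Measurable (C t)) →
      IsProjectiveLimit (Q.map fun ω t => C t ω) BrownianReal.projectiveFamily := by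
    intro Ω'' _ Q C hC hmC J
    rw [Measure.map_map (by fun_prop) (measurable_pi_lambda _ hmC)]
    exact (hC.hasLaw J).map_eq
  exact (key h hm).unique (key h' hm')

/-- piece F7-2: integrals of functionals of the path do not depend on the Brownian motion.
Proof: by independence (`indepFun_iff_map_prod_eq_prod_map_map`) the law of the pair of processes
is the product of the laws, equal by F7-1; compose with the restriction to `I` and use
`lintegral_map`. -/
lemma law_planar {Ω' : Type} [MeasurableSpace Ω'] {P : Measure Ω} {P' : Measure Ω'}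
    [IsProbabilityMeasure P] [IsProbabilityMeasure P']
    {B₁ B₂ : ℝ≥0 → Ω → ℝ} {B₁' B₂' : ℝ≥0 → Ω' → ℝ} (h : IsPlanarBM P B₁ B₂)
    (h' : IsPlanarBM P' B₁' B₂') {F : Pth → ℝ≥0∞} (hF : Measurable F) :
    ∫⁻ ω, F (pth B₁ B₂ ω) ∂P = ∫⁻ ω, F (pth B₁' B₂' ω) ∂P' := by
  have key : ∀ {Ω'' : Type} [MeasurableSpace Ω''] {Q : Measure Ω''} [IsProbabilityMeasure Q]
      {C₁ C₂ : ℝ≥0 → Ω'' → ℝ}, IsPlanarBM Q C₁ C₂ →
      ∫⁻ ω, F (pth C₁ C₂ ω) ∂Q = ∫⁻ p, F (fun s : I => p.1 (Real.toNNReal s),
        fun s : I => p.2 (Real.toNNReal s))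
        ∂((Q.map fun ω t => C₁ t ω).prod (Q.map fun ω t => C₂ t ω)) := by
    intro Ω'' _ Q _ C₁ C₂ hC
    have m1 : Measurable fun ω t => C₁ t ω := measurable_pi_lambda _ hC.meas₁
    have m2 : Measurable fun ω t => C₂ t ω := measurable_pi_lambda _ hC.meas₂
    rw [← (indepFun_iff_map_prod_eq_prod_map_map m1.aemeasurable m2.aemeasurable).1 hC.indep,
      lintegral_map ?_ (m1.prodMk m2)]
    · rfl
    · refine hF.comp ?_
      refine Measurable.prodMk ?_ ?_
      · exact measurable_pi_lambda _ fun s => (measurable_pi_apply _).comp measurable_fst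
      · exact measurable_pi_lambda _ fun s => (measurable_pi_apply _).comp measurable_snd
  rw [key h, key h', law_real h.bm₁ h'.bm₁ h.meas₁ h'.meas₁,
    law_real h.bm₂ h'.bm₂ h.meas₂ h'.meas₂]

end Pool.Agent.Helper83.CD
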