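import Pool.Agent.Helper83.CD.Path

/-!
# CD frame F, piece CD-F1b: two estimates for the chaining
-/

set_option autoImplicit false

namespace Pool.Agent.Helper83.CD

open MeasureTheory ProbabilityTheory Metric Set TopologicalSpace
open scoped ENNReal NNReal unitInterval
open Pool.Agent.Helper16.CD

/-- piece F1-2 (weights instead of the inequality of Hoelder).
Proof: `a n ≤ (9/10) ^ n * S` with `S = ⨆ n, (10/9) ^ n * a n`, so `∑' a n ≤ 10 * S`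
(`ENNReal.tsum_geometric`) and `S ^ 4 = ⨆ ((10/9) ^ n a n) ^ 4 ≤ ∑' (10/9) ^ (4 n) * a n ^ 4`. -/
lemma tsum_pow_four_le (a : ℕ → ℝ≥0∞) :
    (∑' n, a n) ^ 4 ≤ 10 ^ 4 * ∑' n, ((10 / 9 : ℝ≥0∞) ^ (4 * n)) * a n ^ 4 := by
  set S : ℝ≥0∞ := ⨆ n, (10 / 9 : ℝ≥0∞) ^ n * a n with hS
  have h1 : (9 / 10 : ℝ≥0∞) * (10 / 9) = 1 := by
    rw [ENNReal.div_eq_inv_mul, ENNReal.div_eq_inv_mul]
    calc (10 : ℝ≥0∞)⁻¹ * 9 * (9⁻¹ * 10) = (10⁻¹ * 10) * (9 * 9⁻¹) := by ring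
      _ = 1 := by
        rw [ENNReal.inv_mul_cancel (by norm_num) (by norm_num),
          ENNReal.mul_inv_cancel (by norm_num) (by norm_num), mul_one]
  have h2 : ∀ n, a n ≤ (9 / 10 : ℝ≥0∞) ^ n * S := by
    intro n
    calc a n = (9 / 10 : ℝ≥0∞) ^ n * ((10 / 9 : ℝ≥0∞) ^ n * a n) := by
          rw [← mul_assoc, ← mul_pow, h1, one_pow, one_mul]
      _ ≤ (9 / 10 : ℝ≥0∞) ^ n * S := by
          gcongr
          exact le_iSup (fun n => (10 / 9 : ℝ≥0∞) ^ n * a n) n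
  have h3 : (1 - 9 / 10 : ℝ≥0∞)⁻¹ = 10 := by
    have h4 : (1 : ℝ≥0∞) - 9 / 10 = 10⁻¹ := by
      have h5 : (10 : ℝ≥0∞)⁻¹ + 9 / 10 = 1 := by
        rw [ENNReal.div_eq_inv_mul]
        calc (10 : ℝ≥0∞)⁻¹ + 10⁻¹ * 9 = 10⁻¹ * 10 := by ring
          _ = 1 := ENNReal.inv_mul_cancel (by norm_num) (by norm_num)
      have h6 : (9 / 10 : ℝ≥0∞) ≠ ⊤ := ENNReal.div_ne_top (by norm_num) (by norm_num)
      rw [← h5]
      exact ENNReal.add_sub_cancel_right h6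
    rw [h4, inv_inv]
  have h4 : ∑' n, a n ≤ 10 * S := by
    calc ∑' n, a n ≤ ∑' n, (9 / 10 : ℝ≥0∞) ^ n * S := ENNReal.tsum_le_tsum h2
      _ = 10 * S := by rw [ENNReal.tsum_mul_right, ENNReal.tsum_geometric, h3]
  have h5 : S ^ 4 ≤ ∑' n, ((10 / 9 : ℝ≥0∞) ^ (4 * n)) * a n ^ 4 := by
    rw [hS, ENNReal.iSup_pow]
    refine iSup_le fun n => ?_
    refine le_trans (le_of_eq ?_)
      (ENNReal.le_tsum (f := fun n => ((10 / 9 : ℝ≥0∞) ^ (4 * n)) * a n ^ 4) n)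
    rw [mul_pow, ← pow_mul, mul_comm n 4]
  calc (∑' n, a n) ^ 4 ≤ (10 * S) ^ 4 := by gcongr
    _ = 10 ^ 4 * S ^ 4 := mul_pow _ _ _
    _ ≤ _ := by gcongr

/-- piece F1-3 (fourth moment of an increment).
Proof: `hB.hasLaw_sub s t`: `B s - B t` has law `gaussianReal 0 v`, `v = nndist s t`, the image of
`gaussianReal 0 1` by `x ↦ √v x` (`gaussianReal_map_const_mul`); `C = ∫⁻ ‖x‖ₑ ^ 4` for
`gaussianReal 0 1`, finite by `memLp_id_gaussianReal`. -/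
lemma lintegral_increment :
    ∃ C : ℝ≥0∞, C ≠ ⊤ ∧ ∀ (Ω : Type) [MeasurableSpace Ω] (P : Measure Ω) (B : ℝ≥0 → Ω → ℝ),
      IsPreBrownianReal B P → ∀ s t : ℝ≥0,
        ∫⁻ ω, edist (B s ω) (B t ω) ^ 4 ∂P ≤ C * (nndist s t : ℝ≥0∞) ^ 2 := by
  refine ⟨∫⁻ x, ‖x‖ₑ ^ 4 ∂(gaussianReal 0 1), ?_, ?_⟩
  · have h1 : MemLp id 4 (gaussianReal 0 1) := memLp_id_gaussianReal' 4 (by norm_num)
    have h2 := lintegral_rpow_enorm_lt_top_of_eLpNorm_lt_top (by norm_num) (by norm_num) h1.2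
    have h3 : ((4 : ℝ≥0∞).toReal) = ((4 : ℕ) : ℝ) := by norm_num
    simp only [h3, ENNReal.rpow_natCast, id] at h2
    exact h2.ne
  · intro Ω _ P B hB s t
    have h1 := hB.hasLaw_sub s t
    set v : ℝ≥0 := nndist s t with hv
    have hv' : nndist s.1 t.1 = v := rfl
    rw [hv'] at h1
    have h2 : gaussianReal 0 v = (gaussianReal 0 1).map (√(v : ℝ) * ·) := by
      rw [gaussianReal_map_const_mul, mul_zero, mul_one]
      congr 1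
      ext
      exact (Real.sq_sqrt v.2).symm
    have h3 : ∫⁻ ω, edist (B s ω) (B t ω) ^ 4 ∂P = ∫⁻ x, ‖x‖ₑ ^ 4 ∂(gaussianReal 0 v) := by
      rw [← h1.lintegral_comp (f := fun x => ‖x‖ₑ ^ 4) (by fun_prop)]
      refine lintegral_congr fun ω => ?_
      rw [edist_eq_enorm_sub]
      rfl
    rw [h3, h2, lintegral_map (by fun_prop) (by fun_prop)]
    have h4 : ∀ x : ℝ, ‖√(v : ℝ) * x‖ₑ ^ 4 = (v : ℝ≥0∞) ^ 2 * ‖x‖ₑ ^ 4 := by
      intro x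
      rw [enorm_mul, mul_pow]
      congr 1
      have h5 : ‖√(v : ℝ)‖ₑ ^ 2 = (v : ℝ≥0∞) := by
        rw [← enorm_pow, Real.sq_sqrt (NNReal.coe_nonneg v),
          Real.enorm_eq_ofReal (NNReal.coe_nonneg v)]
        exact ENNReal.ofReal_coe_nnreal
      calc ‖√(v : ℝ)‖ₑ ^ 4 = (‖√(v : ℝ)‖ₑ ^ 2) ^ 2 := by rw [← pow_mul]
        _ = _ := by rw [h5]
    simp only [h4]
    rw [lintegral_const_mul _ (by fun_prop), mul_comm]

end Pool.Agent.Helper83.CD
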