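import Pool.Agent.Helper83.CD.Sup1
import Pool.Agent.Helper83.CD.Sup2

/-!
# CD frame F, piece CD-F1c: fourth moment of the maximum of Brownian motion
-/

set_option autoImplicit false

namespace Pool.Agent.Helper83.CD

open MeasureTheory ProbabilityTheory Metric Set TopologicalSpace
open scoped ENNReal NNReal unitInterval
open Pool.Agent.Helper16.CD

variable {Ω : Type} [MeasurableSpace Ω]

private lemma Sup_dyInc_pow (x : ℝ≥0 → ℝ) (n : ℕ) :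
    dyInc x n ^ 4 ≤ ∑ k ∈ Finset.range (2 ^ n),
      edist (x ((k + 1 : ℕ) / 2 ^ n)) (x ((k : ℕ) / 2 ^ n)) ^ 4 := by
  have h1 : dyInc x n ≤ (∑ k ∈ Finset.range (2 ^ n),
      edist (x ((k + 1 : ℕ) / 2 ^ n)) (x ((k : ℕ) / 2 ^ n)) ^ 4) ^ (1 / 4 : ℝ) := by
    unfold dyInc
    refine iSup₂_le fun k hk => ?_
    calc edist (x ((k + 1 : ℕ) / 2 ^ n)) (x ((k : ℕ) / 2 ^ n))
        = (edist (x ((k + 1 : ℕ) / 2 ^ n)) (x ((k : ℕ) / 2 ^ n)) ^ 4) ^ (1 / 4 : ℝ) := by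
          rw [← ENNReal.rpow_natCast, ← ENNReal.rpow_mul]
          norm_num
      _ ≤ _ := ENNReal.rpow_le_rpow
          (Finset.single_le_sum (f := fun k : ℕ =>
            edist (x ((k + 1 : ℕ) / 2 ^ n)) (x ((k : ℕ) / 2 ^ n)) ^ 4)
            (fun _ _ => zero_le) hk) (by norm_num)
  calc dyInc x n ^ 4 ≤ ((∑ k ∈ Finset.range (2 ^ n),
      edist (x ((k + 1 : ℕ) / 2 ^ n)) (x ((k : ℕ) / 2 ^ n)) ^ 4) ^ (1 / 4 : ℝ)) ^ 4 :=
        pow_le_pow_left' h1 4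
    _ = _ := by
      rw [← ENNReal.rpow_natCast, ← ENNReal.rpow_mul]
      norm_num

private lemma Sup_nndist (n k : ℕ) :
    nndist (((k + 1 : ℕ) : ℝ≥0) / 2 ^ n) (((k : ℕ) : ℝ≥0) / 2 ^ n) = (2⁻¹) ^ n := by
  rw [← NNReal.coe_inj, coe_nndist, NNReal.dist_eq]
  push_cast
  rw [← sub_div, add_sub_cancel_left, abs_of_nonneg (by positivity), one_div, inv_pow]

private lemma Sup_ratio : (10 / 9 : ℝ≥0∞) ^ 4 * 2⁻¹ < 1 := by
  have h1 : (10 / 9 : ℝ≥0∞) ^ 4 * 2⁻¹ = (((10 / 9 : ℝ≥0) ^ 4 * 2⁻¹ : ℝ≥0) : ℝ≥0∞) := by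
    rw [ENNReal.coe_mul, ENNReal.coe_pow, ENNReal.coe_div (by norm_num),
      ENNReal.coe_inv (by norm_num)]
    rfl
  rw [h1, ENNReal.coe_lt_one_iff, ← NNReal.coe_lt_coe]
  push_cast
  norm_num

/-- piece F1-4.
Proof: by F1-1 the integrand is at most `(∑' n, dyInc (B · ω) n) ^ 4`, by F1-2 at most
`10 ^ 4 * ∑' n, (10/9) ^ (4 n) * dyInc ^ 4`, and
`dyInc ^ 4 ≤ ∑ k ∈ range (2 ^ n), edist (B ((k+1)/2^n)) (B (k/2^n)) ^ 4` has integral at most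
`2 ^ n * C * 4 ^ -n = C * 2 ^ -n` by F1-3.  `lintegral_tsum`; the series
`∑' ((10/9)^4 / 2) ^ n` converges since `(10/9) ^ 4 < 2`. -/
theorem lintegral_sup {P : Measure Ω} {B : ℝ≥0 → Ω → ℝ} (hB : IsPreBrownianReal B P)
    (hm : ∀ t, Measurable (B t)) (hc : ∀ ω, Continuous fun t => B t ω) :
    ∫⁻ ω, (⨆ s : I, edist (B (Real.toNNReal s) ω) (B 0 ω)) ^ 4 ∂P < ⊤ := by
  obtain ⟨C, hC, hinc⟩ := lintegral_increment
  have hpt : ∀ ω, (⨆ s : I, edist (B (Real.toNNReal s) ω) (B 0 ω)) ^ 4 ≤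
      10 ^ 4 * ∑' n, ((10 / 9 : ℝ≥0∞) ^ (4 * n)) * ∑ k ∈ Finset.range (2 ^ n),
        edist (B ((k + 1 : ℕ) / 2 ^ n) ω) (B ((k : ℕ) / 2 ^ n) ω) ^ 4 := by
    intro ω
    have h1 : (⨆ s : I, edist (B (Real.toNNReal s) ω) (B 0 ω)) ≤
        ∑' n, dyInc (fun t => B t ω) n := by
      refine iSup_le fun s => ?_
      refine edist_le_tsum_dyInc (hc ω) (Real.toNNReal s) ?_
      rw [Real.toNNReal_le_one]
      exact s.2.2
    refine (pow_le_pow_left' h1 4).trans ((tsum_pow_four_le _).trans ?_)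
    refine mul_le_mul_right (ENNReal.tsum_le_tsum fun n => ?_) _
    exact mul_le_mul_right (Sup_dyInc_pow (fun t => B t ω) n) _
  have hmeas : ∀ n k : ℕ, Measurable fun ω =>
      edist (B ((k + 1 : ℕ) / 2 ^ n) ω) (B ((k : ℕ) / 2 ^ n) ω) ^ 4 := fun n k =>
    ((hm _).edist (hm _)).pow_const 4
  have hmeas' : ∀ n : ℕ, Measurable fun ω => ∑ k ∈ Finset.range (2 ^ n),
      edist (B ((k + 1 : ℕ) / 2 ^ n) ω) (B ((k : ℕ) / 2 ^ n) ω) ^ 4 := fun n =>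
    Finset.measurable_sum _ fun k _ => hmeas n k
  have hint : ∀ n : ℕ, ∫⁻ ω, ∑ k ∈ Finset.range (2 ^ n),
      edist (B ((k + 1 : ℕ) / 2 ^ n) ω) (B ((k : ℕ) / 2 ^ n) ω) ^ 4 ∂P ≤ C * (2⁻¹) ^ n := by
    intro n
    rw [lintegral_finsetSum _ fun k _ => hmeas n k]
    calc ∑ k ∈ Finset.range (2 ^ n), ∫⁻ ω,
          edist (B ((k + 1 : ℕ) / 2 ^ n) ω) (B ((k : ℕ) / 2 ^ n) ω) ^ 4 ∂P
        ≤ ∑ k ∈ Finset.range (2 ^ n), C * ((2⁻¹ : ℝ≥0∞) ^ n) ^ 2 := by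
          refine Finset.sum_le_sum fun k _ => ?_
          refine (hinc Ω P B hB _ _).trans (le_of_eq ?_)
          rw [Sup_nndist, ENNReal.coe_pow, ENNReal.coe_inv two_ne_zero]
          rfl
      _ = C * (2⁻¹) ^ n := by
          rw [Finset.sum_const, Finset.card_range, nsmul_eq_mul]
          have h2 : (2 : ℝ≥0∞) ^ n * 2⁻¹ ^ n = 1 := by
            rw [← mul_pow, ENNReal.mul_inv_cancel two_ne_zero ENNReal.ofNat_ne_top, one_pow]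
          calc ((2 ^ n : ℕ) : ℝ≥0∞) * (C * (2⁻¹ ^ n) ^ 2)
              = C * ((2 : ℝ≥0∞) ^ n * 2⁻¹ ^ n) * 2⁻¹ ^ n := by
                push_cast
                ring
            _ = C * 2⁻¹ ^ n := by rw [h2, mul_one]
  calc ∫⁻ ω, (⨆ s : I, edist (B (Real.toNNReal s) ω) (B 0 ω)) ^ 4 ∂P
      ≤ ∫⁻ ω, 10 ^ 4 * ∑' n, ((10 / 9 : ℝ≥0∞) ^ (4 * n)) * ∑ k ∈ Finset.range (2 ^ n),
        edist (B ((k + 1 : ℕ) / 2 ^ n) ω) (B ((k : ℕ) / 2 ^ n) ω) ^ 4 ∂P := lintegral_mono hpt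
    _ = 10 ^ 4 * ∑' n, ((10 / 9 : ℝ≥0∞) ^ (4 * n)) * ∫⁻ ω, ∑ k ∈ Finset.range (2 ^ n),
        edist (B ((k + 1 : ℕ) / 2 ^ n) ω) (B ((k : ℕ) / 2 ^ n) ω) ^ 4 ∂P := by
        rw [lintegral_const_mul _ (Measurable.ennreal_tsum fun n => (hmeas' n).const_mul _),
          lintegral_tsum fun n => ((hmeas' n).const_mul _).aemeasurable]
        congr 1
        refine tsum_congr fun n => ?_
        rw [lintegral_const_mul _ (hmeas' n)]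
    _ ≤ 10 ^ 4 * ∑' n, C * ((10 / 9 : ℝ≥0∞) ^ 4 * 2⁻¹) ^ n := by
        refine mul_le_mul_right (ENNReal.tsum_le_tsum fun n => ?_) _
        calc ((10 / 9 : ℝ≥0∞) ^ (4 * n)) * ∫⁻ ω, ∑ k ∈ Finset.range (2 ^ n),
              edist (B ((k + 1 : ℕ) / 2 ^ n) ω) (B ((k : ℕ) / 2 ^ n) ω) ^ 4 ∂P
            ≤ ((10 / 9 : ℝ≥0∞) ^ (4 * n)) * (C * (2⁻¹) ^ n) := mul_le_mul_right (hint n) _
          _ = C * ((10 / 9 : ℝ≥0∞) ^ 4 * 2⁻¹) ^ n := by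
            rw [mul_pow, ← pow_mul]
            ring
    _ < ⊤ := by
        rw [ENNReal.tsum_mul_left, ENNReal.tsum_geometric]
        have h3 : (1 - (10 / 9 : ℝ≥0∞) ^ 4 * 2⁻¹)⁻¹ ≠ ⊤ := by
          rw [Ne, ENNReal.inv_eq_top]
          exact (tsub_pos_of_lt Sup_ratio).ne'
        exact (ENNReal.mul_ne_top (by norm_num) (ENNReal.mul_ne_top hC h3)).lt_top

end Pool.Agent.Helper83.CD
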