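import Pool.Agent.Helper83.CD.Area
import Pool.Agent.Helper83.CD.Sup
import Pool.Agent.Helper83.CD.Law1

/-!
# CD frame F, piece CD-F8a: expected areas (finite, scaling, shift)
-/

set_option autoImplicit false

namespace Pool.Agent.Helper83.CD

open MeasureTheory ProbabilityTheory Metric Set TopologicalSpace
open scoped ENNReal NNReal unitInterval
open Pool.Agent.Helper16.CD

variable {Ω : Type} [MeasurableSpace Ω]

private lemma Levy1_sup_eq {f : I → ℝ} (hf : Continuous f) :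
    (⨆ s : I, edist (f s) (f 0)) = ⨆ n : ℕ, edist (f (denseSeq I n)) (f 0) := by
  refine le_antisymm (iSup_le fun s => ?_) (iSup_le fun n => le_iSup (fun s => edist (f s) (f 0)) _)
  have hc : IsClosed {s : I | edist (f s) (f 0) ≤ ⨆ n : ℕ, edist (f (denseSeq I n)) (f 0)} :=
    isClosed_le (hf.edist continuous_const) continuous_const
  have h1 : range (denseSeq I) ⊆
      {s : I | edist (f s) (f 0) ≤ ⨆ n : ℕ, edist (f (denseSeq I n)) (f 0)} := by
    rintro _ ⟨n, rfl⟩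
    exact le_iSup (fun n : ℕ => edist (f (denseSeq I n)) (f 0)) n
  have h2 := closure_minimal h1 hc
  rw [(denseRange_denseSeq I).closure_range] at h2
  exact h2 (mem_univ s)

private lemma Levy1_meas {B : ℝ≥0 → Ω → ℝ} (hm : ∀ t, Measurable (B t))
    (hc : ∀ ω, Continuous fun t => B t ω) :
    Measurable fun ω => (⨆ s : I, edist (B (Real.toNNReal s) ω) (B 0 ω)) := by
  have h1 : (fun ω => (⨆ s : I, edist (B (Real.toNNReal s) ω) (B 0 ω))) =
      fun ω => ⨆ n : ℕ, edist (B (Real.toNNReal (denseSeq I n : I)) ω) (B 0 ω) := by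
    funext ω
    have h3 : Continuous fun s : I => B (Real.toNNReal s) ω :=
      (hc ω).comp (continuous_real_toNNReal.comp continuous_subtype_val)
    have h4 := Levy1_sup_eq h3
    simpa using h4
  rw [h1]
  exact Measurable.iSup fun n => (hm _).edist (hm _)

private lemma Levy1_bound (a b c : ℝ≥0∞) :
    (2 * (a + b + c)) ^ 2 ≤ 1 + 1296 * c ^ 4 + (1296 * a ^ 4 + 1296 * b ^ 4) := by
  have h1 : ∀ x : ℝ≥0∞, x ^ 2 ≤ 1 + x ^ 4 := by
    intro x
    rcases le_total x 1 with h | h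
    · exact (pow_le_one' h 2).trans le_self_add
    · exact (pow_le_pow_right₀ h (by norm_num)).trans le_add_self
  refine (h1 _).trans ?_
  have h2 : a + b + c ≤ 3 * max a (max b c) := by
    calc a + b + c ≤ max a (max b c) + max a (max b c) + max a (max b c) := by
          gcongr
          · exact le_max_left _ _
          · exact (le_max_left _ _).trans (le_max_right _ _)
          · exact (le_max_right _ _).trans (le_max_right _ _)
      _ = 3 * max a (max b c) := by ring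
  have h3 : (max a (max b c)) ^ 4 ≤ a ^ 4 + b ^ 4 + c ^ 4 := by
    rcases le_total a (max b c) with h | h
    · rw [max_eq_right h]
      rcases le_total b c with h' | h'
      · rw [max_eq_right h']
        exact le_add_self
      · rw [max_eq_left h']
        exact (le_add_self (a := b ^ 4) (b := a ^ 4)).trans le_self_add
    · rw [max_eq_left h]
      exact (le_self_add (a := a ^ 4) (b := b ^ 4)).trans le_self_add
  calc 1 + (2 * (a + b + c)) ^ 4 ≤ 1 + (2 * (3 * max a (max b c))) ^ 4 := by gcongr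
    _ = 1 + 1296 * (max a (max b c)) ^ 4 := by ring
    _ ≤ 1 + 1296 * (a ^ 4 + b ^ 4 + c ^ 4) := by gcongr
    _ = 1 + 1296 * c ^ 4 + (1296 * a ^ 4 + 1296 * b ^ 4) := by ring

/-- piece F8-1 (finite expected area of the neighbourhoods).
Proof: `ar_le`; `edist` in the plane is at most the sum of the coordinate `edist`s, so with
`S i = ⨆ s, edist (B i s) (B i 0)` the integrand is at most `(2 (S 1 + S 2 + r)) ^ 2`, at most
`12 (S 1 ^ 2 + S 2 ^ 2 + r ^ 2)` and `x ^ 2 ≤ 1 + x ^ 4`; `lintegral_sup`. -/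
lemma lintegral_ar_lt {P : Measure Ω} [IsProbabilityMeasure P] {B₁ B₂ : ℝ≥0 → Ω → ℝ}
    (h : IsPlanarBM P B₁ B₂) (r : ℝ≥0) : ∫⁻ ω, ar r (pth B₁ B₂ ω) ∂P < ⊤ := by
  have hm1 := Levy1_meas h.meas₁ h.cont₁
  have hm2 := Levy1_meas h.meas₂ h.cont₂
  have hpt : ∀ ω, ar r (pth B₁ B₂ ω) ≤ 1 + 1296 * (r : ℝ≥0∞) ^ 4 +
      (1296 * (⨆ s : I, edist (B₁ (Real.toNNReal s) ω) (B₁ 0 ω)) ^ 4 +
        1296 * (⨆ s : I, edist (B₂ (Real.toNNReal s) ω) (B₂ 0 ω)) ^ 4) := by
    intro ω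
    refine (ar_le r _).trans ?_
    refine le_trans ?_ (Levy1_bound _ _ _)
    have h1 : (⨆ s : I, edist (pt (pth B₁ B₂ ω) s) (pt (pth B₁ B₂ ω) 0)) ≤
        (⨆ s : I, edist (B₁ (Real.toNNReal s) ω) (B₁ 0 ω)) +
          (⨆ s : I, edist (B₂ (Real.toNNReal s) ω) (B₂ 0 ω)) := by
      refine iSup_le fun s => ?_
      have h0 : pt (pth B₁ B₂ ω) 0 = (B₁ 0 ω, B₂ 0 ω) := by
        simp [pt, pth]
      have hs : pt (pth B₁ B₂ ω) s = (B₁ (Real.toNNReal s) ω, B₂ (Real.toNNReal s) ω) := rfl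
      rw [h0, hs, Prod.edist_eq]
      refine max_le ?_ ?_
      · exact (le_iSup (fun s : I => edist (B₁ (Real.toNNReal s) ω) (B₁ 0 ω)) s).trans
          le_self_add
      · exact (le_iSup (fun s : I => edist (B₂ (Real.toNNReal s) ω) (B₂ 0 ω)) s).trans
          le_add_self
    gcongr
  refine lt_of_le_of_lt (lintegral_mono hpt) ?_
  rw [lintegral_add_left measurable_const, lintegral_const, measure_univ, mul_one,
    lintegral_add_left ((hm1.pow_const 4).const_mul _),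
    lintegral_const_mul _ (hm1.pow_const 4), lintegral_const_mul _ (hm2.pow_const 4)]
  have e1 := lintegral_sup h.bm₁ h.meas₁ h.cont₁
  have e2 := lintegral_sup h.bm₂ h.meas₂ h.cont₂
  have e3 : (1296 : ℝ≥0∞) ≠ ⊤ := by norm_num
  refine ENNReal.add_lt_top.2 ⟨ENNReal.add_lt_top.2 ⟨ENNReal.one_lt_top,
    ENNReal.mul_lt_top e3.lt_top (ENNReal.pow_lt_top ENNReal.coe_lt_top)⟩,
    ENNReal.add_lt_top.2 ⟨ENNReal.mul_lt_top e3.lt_top e1, ENNReal.mul_lt_top e3.lt_top e2⟩⟩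

/-- piece F8-2 (scaling).
Proof: `seg B₁ B₂ 0 2 ω` is `√2` times `pth (sca B₁ 2) (sca B₂ 2) ω`; `ar_smul`, `planar_sca`,
`law_planar`. -/
lemma lintegral_ar_two {P : Measure Ω} [IsProbabilityMeasure P] {B₁ B₂ : ℝ≥0 → Ω → ℝ}
    (h : IsPlanarBM P B₁ B₂) :
    ∫⁻ ω, ar 0 (seg B₁ B₂ 0 2 ω) ∂P = 2 * ∫⁻ ω, ar 0 (pth B₁ B₂ ω) ∂P := by
  have h2 : (0 : ℝ) < √((2 : ℝ≥0) : ℝ) := Real.sqrt_pos.2 (by norm_num)
  have hs := planar_sca h (c := 2) two_ne_zero
  have e1 : ∀ ω, ar 0 (seg B₁ B₂ 0 2 ω) =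
      2 * ar 0 (pth (sca B₁ 2) (sca B₂ 2) ω) := by
    intro ω
    have e2 := ar_smul (√((2 : ℝ≥0) : ℝ)) h2 (pth (sca B₁ 2) (sca B₂ 2) ω)
    have e3 : (fun s => √((2 : ℝ≥0) : ℝ) * (pth (sca B₁ 2) (sca B₂ 2) ω).1 s,
        fun s => √((2 : ℝ≥0) : ℝ) * (pth (sca B₁ 2) (sca B₂ 2) ω).2 s) =
        seg B₁ B₂ 0 2 ω := by
      unfold pth sca seg
      refine Prod.ext ?_ ?_
      · funext s
        simp only [zero_add]
        rw [← mul_assoc, mul_inv_cancel₀ h2.ne', one_mul]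
      · funext s
        simp only [zero_add]
        rw [← mul_assoc, mul_inv_cancel₀ h2.ne', one_mul]
    rw [e3] at e2
    rw [e2, Real.sq_sqrt (by positivity)]
    congr 1
    norm_num
  simp_rw [e1]
  have hme : Measurable fun ω => ar 0 (pth (sca B₁ 2) (sca B₂ 2) ω) :=
    (measurable_ar 0).comp (measurable_pth hs)
  rw [lintegral_const_mul _ hme]
  congr 1
  exact law_planar hs h (measurable_ar 0)

/-- piece F8-3 (shift).
Proof: `seg B₁ B₂ 1 1 ω` is `pth (shi B₁ 1) (shi B₂ 1) ω` translated by `(B₁ 1 ω, B₂ 1 ω)`;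
`ar_add`, `planar_shi`, `law_planar`. -/
lemma lintegral_ar_shift {P : Measure Ω} [IsProbabilityMeasure P] {B₁ B₂ : ℝ≥0 → Ω → ℝ}
    (h : IsPlanarBM P B₁ B₂) :
    ∫⁻ ω, ar 0 (seg B₁ B₂ 1 1 ω) ∂P = ∫⁻ ω, ar 0 (pth B₁ B₂ ω) ∂P := by
  have hs := planar_shi h 1
  have e1 : ∀ ω, ar 0 (seg B₁ B₂ 1 1 ω) = ar 0 (pth (shi B₁ 1) (shi B₂ 1) ω) := by
    intro ω
    have e2 := ar_add 0 (B₁ 1 ω, B₂ 1 ω) (pth (shi B₁ 1) (shi B₂ 1) ω)
    rw [← e2]
    congr 1
    unfold pth shi seg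
    refine Prod.ext ?_ ?_
    · funext s
      simp
    · funext s
      simp
  simp_rw [e1]
  exact law_planar hs h (measurable_ar 0)

end Pool.Agent.Helper83.CD
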