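import Pool.Agent.Helper16.CD.Stmt

/-!
# PROJECT CD (MP_c9b794_pr), frame F: functionals of paths

A path is a pair of real functions on the unit interval `I` (product sigma algebra).  The closed
range of a continuous path is described by the distances to its points at the times of a
countable dense set, so that everything is measurable for the product sigma algebra.
-/

set_option autoImplicit false

namespace Pool.Agent.Helper83.CD

open MeasureTheory ProbabilityTheory Metric Set TopologicalSpace
open scoped ENNReal NNReal unitInterval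
open Pool.Agent.Helper16.CD

/-- pairs of real functions on the unit interval -/
abbrev Pth : Type := (I → ℝ) × (I → ℝ)

/-- the point at time `s` -/
def pt (w : Pth) (s : I) : Plane := (w.1 s, w.2 s)

/-- distance of `z` to the points of `w` at the times of a countable dense set -/
noncomputable def dd (z : Plane) (w : Pth) : ℝ≥0∞ :=
  ⨅ n : ℕ, edist z (pt w (denseSeq I n))

/-- area of the `r`-neighbourhood of these points -/
noncomputable def ar (r : ℝ≥0∞) (w : Pth) : ℝ≥0∞ := volume {z : Plane | dd z w ≤ r}

/-- the path of two processes on `[0, 1]` -/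
def pth {Ω : Type} (B₁ B₂ : ℝ≥0 → Ω → ℝ) (ω : Ω) : Pth :=
  (fun s => B₁ (Real.toNNReal s) ω, fun s => B₂ (Real.toNNReal s) ω)

/-- the path `s ↦ B (a + T s)` -/
def seg {Ω : Type} (B₁ B₂ : ℝ≥0 → Ω → ℝ) (a T : ℝ≥0) (ω : Ω) : Pth :=
  (fun s => B₁ (a + T * Real.toNNReal s) ω, fun s => B₂ (a + T * Real.toNNReal s) ω)

/-- the path of the bridge -/
noncomputable def brp {Ω : Type} (B₁ B₂ : ℝ≥0 → Ω → ℝ) (ω : Ω) : Pth :=
  (bridge B₁ ω, bridge B₂ ω)

/-- reversed process: `B (1 - t) - B 1` for `t ≤ 1`, then `(B 0 - B 1) + (B t - B 1)` -/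
noncomputable def rev {Ω : Type} (B : ℝ≥0 → Ω → ℝ) (t : ℝ≥0) (ω : Ω) : ℝ :=
  B (1 - t) ω + B (max 1 t) ω - 2 * B 1 ω

/-- shifted process -/
def shi {Ω : Type} (B : ℝ≥0 → Ω → ℝ) (a : ℝ≥0) (t : ℝ≥0) (ω : Ω) : ℝ :=
  B (a + t) ω - B a ω

/-- scaled process -/
noncomputable def sca {Ω : Type} (B : ℝ≥0 → Ω → ℝ) (c : ℝ≥0) (t : ℝ≥0) (ω : Ω) : ℝ :=
  (√c)⁻¹ * B (c * t) ω

section

lemma measurable_pt (s : I) : Measurable fun w : Pth => pt w s := by
  unfold pt
  fun_prop

/-- F0: joint measurability -/
lemma measurable_dd : Measurable fun p : Plane × Pth => dd p.1 p.2 := by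
  unfold dd
  refine Measurable.iInf fun n => ?_
  exact measurable_fst.edist ((measurable_pt _).comp measurable_snd)

/-- F0 -/
lemma measurable_ar (r : ℝ≥0∞) : Measurable (ar r) := by
  have h : MeasurableSet {p : Plane × Pth | dd p.1 p.2 ≤ r} :=
    measurable_dd measurableSet_Iic
  exact measurable_measure_prodMk_right h

/-- F0: for a continuous path `dd` is the distance to the range -/
lemma dd_eq {w : Pth} (hw : Continuous (pt w)) (z : Plane) :
    dd z w = infEDist z (range (pt w)) := by
  have h1 : infEDist z (range (pt w)) = infEDist z (range fun n => pt w (denseSeq I n)) := by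
    refine le_antisymm (infEDist_anti ?_) ?_
    · rintro _ ⟨n, rfl⟩
      exact ⟨_, rfl⟩
    · rw [← infEDist_closure (s := range fun n => pt w (denseSeq I n))]
      refine infEDist_anti ?_
      rintro _ ⟨s, rfl⟩
      have h2 := (denseRange_denseSeq I).closure_range
      have h3 : s ∈ closure (range (denseSeq I)) := by rw [h2]; trivial
      have h4 := image_closure_subset_closure_image hw (mem_image_of_mem _ h3)
      rwa [← range_comp] at h4
  rw [h1, infEDist, iInf_range]
  rfl

/-- F0 -/
lemma ar_zero_eq {w : Pth} (hw : Continuous (pt w)) : ar 0 w = volume (range (pt w)) := by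
  unfold ar
  congr 1
  ext z
  have hc : IsClosed (range (pt w)) := (isCompact_range hw).isClosed
  simp only [mem_ofPred_eq, dd_eq hw, nonpos_iff_eq_zero]
  rw [← mem_closure_iff_infEDist_zero, hc.closure_eq]

/-- F0: translation -/
lemma dd_add (z c : Plane) (w : Pth) :
    dd (z + c) (fun s => w.1 s + c.1, fun s => w.2 s + c.2) = dd z w := by
  unfold dd
  congr 1
  ext n
  have : pt (fun s => w.1 s + c.1, fun s => w.2 s + c.2) (denseSeq I n) =
      pt w (denseSeq I n) + c := rfl
  rw [this, edist_add_right]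

/-- F0: translation -/
lemma ar_add (r : ℝ≥0∞) (c : Plane) (w : Pth) :
    ar r (fun s => w.1 s + c.1, fun s => w.2 s + c.2) = ar r w := by
  unfold ar
  have h : {z : Plane | dd z w ≤ r} =
      (fun z => z + c) ⁻¹' {z | dd z (fun s => w.1 s + c.1, fun s => w.2 s + c.2) ≤ r} := by
    ext z
    simp only [mem_preimage, mem_ofPred_eq, dd_add]
  rw [h, measure_preimage_add_right]

end

end Pool.Agent.Helper83.CD
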