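import Pool.Agent.Helper83.CD.Path

/-!
# CD frame F, piece CD-F13a: the closed polygon around Hset
-/

set_option autoImplicit false

namespace Pool.Agent.Helper83.CD

open MeasureTheory ProbabilityTheory Metric Set TopologicalSpace
open scoped ENNReal NNReal unitInterval
open Pool.Agent.Helper16.CD

/-- first coordinates of the vertices, in units of `1/64` -/
def vx : ℕ → ℝ
  | 0 => 7 | 1 => 57 | 2 => 57 | 3 => 7 | 4 => 7 | 5 => 17 | 6 => 17 | 7 => 47 | 8 => 47
  | 9 => 17 | 10 => 17 | 11 => 7 | _ => 7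

/-- second coordinates of the vertices, in units of `1/64` -/
def vy : ℕ → ℝ
  | 0 => 7 | 1 => 7 | 2 => 57 | 3 => 57 | 4 => 31 | 5 => 31 | 6 => 47 | 7 => 47 | 8 => 17
  | 9 => 17 | 10 => 25 | 11 => 25 | _ => 7

/-- clamped time on the edge `k` -/
noncomputable def cl (k : ℕ) (t : I) : ℝ := max 0 (min 1 (12 * (t : ℝ) - k))

/-- the closed polygon through the vertices `(vx k, vy k) / 64`, `k = 0, ..., 12` -/
noncomputable def gam (t : I) : Plane :=
  ((vx 0 + ∑ k ∈ Finset.range 12, cl k t * (vx (k + 1) - vx k)) / 64,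
    (vy 0 + ∑ k ∈ Finset.range 12, cl k t * (vy (k + 1) - vy k)) / 64)

lemma continuous_gam : Continuous gam := by
  unfold gam cl
  fun_prop

private lemma Poly1_sum (v : ℕ → ℝ) (k : ℕ) (hk : k < 12) (t : I) (h1 : (k : ℝ) / 12 ≤ t)
    (h2 : (t : ℝ) ≤ (k + 1) / 12) :
    v 0 + ∑ j ∈ Finset.range 12, cl j t * (v (j + 1) - v j) =
      v k + (12 * t - k) * (v (k + 1) - v k) := by
  have h3 : (k : ℝ) ≤ 12 * (t : ℝ) := by linarith
  have h4 : 12 * (t : ℝ) ≤ (k : ℝ) + 1 := by linarith
  have hcl : ∀ j : ℕ, cl j t = if j < k then 1 else if j = k then 12 * (t : ℝ) - k else 0 := by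
    intro j
    unfold cl
    split_ifs with hj hj'
    · have h5 : (j : ℝ) + 1 ≤ k := by exact_mod_cast hj
      rw [min_eq_left (by linarith), max_eq_right (by norm_num)]
    · subst hj'
      rw [min_eq_right (by linarith), max_eq_right (by linarith)]
    · have h5 : (k : ℝ) + 1 ≤ j := by
        have h6 : k + 1 ≤ j := by omega
        exact_mod_cast h6
      rw [min_eq_right (by linarith), max_eq_left (by linarith)]
  have hs : ∀ n : ℕ, k ≤ n →
      v 0 + ∑ j ∈ Finset.range (n + 1), cl j t * (v (j + 1) - v j) =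
        v k + (12 * t - k) * (v (k + 1) - v k) := by
    intro n hn
    induction n, hn using Nat.le_induction with
    | base =>
      rw [Finset.sum_range_succ, hcl k, if_neg (lt_irrefl k), if_pos rfl]
      have h5 : ∑ j ∈ Finset.range k, cl j t * (v (j + 1) - v j) = v k - v 0 := by
        rw [← Finset.sum_range_sub v k]
        refine Finset.sum_congr rfl fun j hj => ?_
        rw [hcl j, if_pos (Finset.mem_range.1 hj), one_mul]
      rw [h5]
      ring
    | succ m hm ih =>
      rw [Finset.sum_range_succ, ← add_assoc, ih, hcl (m + 1), if_neg (by omega),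
        if_neg (by omega)]
      ring
  exact hs 11 (by omega)

/-- piece F13-1: on the edge `k` -/
lemma gam_edge (k : ℕ) (hk : k < 12) (t : I) (h1 : (k : ℝ) / 12 ≤ t) (h2 : (t : ℝ) ≤ (k + 1) / 12) :
    gam t = ((vx k + (12 * t - k) * (vx (k + 1) - vx k)) / 64,
      (vy k + (12 * t - k) * (vy (k + 1) - vy k)) / 64) := by
  unfold gam
  rw [Poly1_sum vx k hk t h1 h2, Poly1_sum vy k hk t h1 h2]

/-- piece F13-2: every point is on an edge -/
lemma exists_edge (t : I) : ∃ k : ℕ, k < 12 ∧ (k : ℝ) / 12 ≤ t ∧ (t : ℝ) ≤ (k + 1) / 12 := by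
  have h0 : (0 : ℝ) ≤ 12 * (t : ℝ) := by
    have := t.2.1
    linarith
  by_cases h : (t : ℝ) < 1
  · have h1 := Nat.floor_le h0
    have h2 := Nat.lt_floor_add_one (12 * (t : ℝ))
    refine ⟨⌊12 * (t : ℝ)⌋₊, ?_, by linarith, by linarith⟩
    have h3 : ((⌊12 * (t : ℝ)⌋₊ : ℕ) : ℝ) < (12 : ℕ) := by
      push_cast
      linarith
    exact_mod_cast h3
  · have h1 : (t : ℝ) = 1 := le_antisymm t.2.2 (not_lt.1 h)
    refine ⟨11, by norm_num, ?_, ?_⟩ <;> rw [h1] <;> norm_num

lemma gam_zero : gam 0 = (7 / 64, 7 / 64) := by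
  rw [gam_edge 0 (by norm_num) 0 (by simp) (by simp)]
  simp [vx, vy]

lemma gam_one : gam 1 = (7 / 64, 7 / 64) := by
  rw [gam_edge 11 (by norm_num) 1 (by norm_num) (by norm_num)]
  norm_num [vx, vy]

/-- piece F13-3: points of `Hset` satisfy the inequalities that are needed.
Proof: `d = (i, j)` is one of the 19 positions (`isR`): `i, j ∈ {1..6}`, one of them in
`{1, 6}`, not `(1, 3)`; `omega` on the integers, cast, `linarith`. -/
lemma Hset_sub {z : Plane} (hz : z ∈ Hset) :
    1 / 8 ≤ z.1 ∧ z.1 ≤ 7 / 8 ∧ 1 / 8 ≤ z.2 ∧ z.2 ≤ 7 / 8 ∧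
      (z.1 ≤ 1 / 4 ∨ 3 / 4 ≤ z.1 ∨ z.2 ≤ 1 / 4 ∨ 3 / 4 ≤ z.2) ∧
      (z.2 ≤ 3 / 8 ∨ 1 / 2 ≤ z.2 ∨ 3 / 4 ≤ z.1) := by
  obtain ⟨⟨i, j⟩, ⟨a1, a2, b1, b2, hc, hne⟩, c1, c2, c3, c4⟩ := hz
  simp only at a1 a2 b1 b2 hc c1 c2 c3 c4
  have a1' : (1 : ℝ) ≤ i := by exact_mod_cast a1
  have a2' : (i : ℝ) ≤ 6 := by exact_mod_cast a2
  have b1' : (1 : ℝ) ≤ j := by exact_mod_cast b1
  have b2' : (j : ℝ) ≤ 6 := by exact_mod_cast b2
  refine ⟨by linarith, by linarith, by linarith, by linarith, ?_, ?_⟩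
  · rcases hc with rfl | rfl | rfl | rfl
    · left
      push_cast at c2
      linarith
    · right; left
      push_cast at c1
      linarith
    · right; right; left
      push_cast at c4
      linarith
    · right; right; right
      push_cast at c3
      linarith
  · rcases lt_trichotomy j 3 with hj | hj | hj
    · left
      have h1 : (j : ℝ) ≤ 2 := by
        have h2 : j ≤ 2 := by omega
        exact_mod_cast h2
      linarith
    · right; right
      have hi : i = 6 := by
        rcases hc with h | h | h | h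
        · exact absurd (by rw [h, hj]) hne
        · exact h
        · omega
        · omega
      rw [hi] at c1
      push_cast at c1
      linarith
    · right; left
      have h1 : (4 : ℝ) ≤ j := by
        have h2 : 4 ≤ j := by omega
        exact_mod_cast h2
      linarith

private lemma Poly1_idx {x : ℝ} (h1 : 1 / 8 ≤ x) (h2 : x ≤ 7 / 8) :
    ∃ i : ℤ, 1 ≤ i ∧ i ≤ 6 ∧ (i : ℝ) / 8 ≤ x ∧ x ≤ (i + 1) / 8 := by
  by_cases h : x < 7 / 8
  · have h3 := Int.floor_le (8 * x)
    have h4 := Int.lt_floor_add_one (8 * x)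
    refine ⟨⌊8 * x⌋, ?_, ?_, by linarith, by linarith⟩
    · rw [Int.le_floor]
      push_cast
      linarith
    · have h5 : (⌊8 * x⌋ : ℝ) < (7 : ℤ) := by
        push_cast
        linarith
      have h6 : ⌊8 * x⌋ < 7 := by exact_mod_cast h5
      omega
  · exact ⟨6, by norm_num, by norm_num, by push_cast; linarith, by push_cast; linarith⟩

/-- piece F13-4: converse, on the part used for F13-5 -/
lemma mem_Hset {z : Plane} (h1 : 1 / 8 ≤ z.1) (h2 : z.1 ≤ 7 / 8) (h3 : 1 / 8 ≤ z.2)
    (h4 : z.2 ≤ 7 / 8) (h5 : z.1 ≤ 1 / 4 ∨ 3 / 4 ≤ z.1 ∨ z.2 ≤ 1 / 4 ∨ 3 / 4 ≤ z.2)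
    (h6 : z.2 ≤ 3 / 8 ∨ 1 / 2 ≤ z.2 ∨ 3 / 4 ≤ z.1) : z ∈ Hset := by
  obtain ⟨i, i1, i2, i3, i4⟩ := Poly1_idx h1 h2
  obtain ⟨j, j1, j2, j3, j4⟩ := Poly1_idx h3 h4
  rcases h5 with h | h | h | h
  · -- the left column
    have key : ∃ j : ℤ, 1 ≤ j ∧ j ≤ 6 ∧ j ≠ 3 ∧ (j : ℝ) / 8 ≤ z.2 ∧ z.2 ≤ (j + 1) / 8 := by
      rcases h6 with h6 | h6 | h6
      · rcases le_total z.2 (1 / 4) with h7 | h7
        · exact ⟨1, by norm_num, by norm_num, by norm_num, by push_cast; linarith,
            by push_cast; linarith⟩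
        · exact ⟨2, by norm_num, by norm_num, by norm_num, by push_cast; linarith,
            by push_cast; linarith⟩
      · rcases le_total z.2 (5 / 8) with h7 | h7
        · exact ⟨4, by norm_num, by norm_num, by norm_num, by push_cast; linarith,
            by push_cast; linarith⟩
        · rcases le_total z.2 (3 / 4) with h8 | h8
          · exact ⟨5, by norm_num, by norm_num, by norm_num, by push_cast; linarith,
              by push_cast; linarith⟩
          · exact ⟨6, by norm_num, by norm_num, by norm_num, by push_cast; linarith,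
              by push_cast; linarith⟩
      · exfalso
        linarith
    obtain ⟨j, j1, j2, jne, j3, j4⟩ := key
    refine ⟨(1, j), ⟨by norm_num, by norm_num, j1, j2, Or.inl rfl, ?_⟩, ?_, ?_, j3, j4⟩
    · intro h7
      exact jne (congrArg Prod.snd h7)
    · push_cast
      linarith
    · push_cast
      linarith
  · refine ⟨(6, j), ⟨by norm_num, by norm_num, j1, j2, Or.inr (Or.inl rfl), ?_⟩, ?_, ?_, j3, j4⟩
    · intro h7
      have h8 := congrArg Prod.fst h7
      norm_num at h8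
    · push_cast
      linarith
    · push_cast
      linarith
  · refine ⟨(i, 1), ⟨i1, i2, by norm_num, by norm_num, Or.inr (Or.inr (Or.inl rfl)), ?_⟩,
      i3, i4, ?_, ?_⟩
    · intro h7
      have h8 := congrArg Prod.snd h7
      norm_num at h8
    · push_cast
      linarith
    · push_cast
      linarith
  · refine ⟨(i, 6), ⟨i1, i2, by norm_num, by norm_num, Or.inr (Or.inr (Or.inr rfl)), ?_⟩,
      i3, i4, ?_, ?_⟩
    · intro h7
      have h8 := congrArg Prod.snd h7
      norm_num at h8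
    · push_cast
      linarith
    · push_cast
      linarith

end Pool.Agent.Helper83.CD
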