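import Pool.Agent.Helper83.CD.Path

/-!
# CD frame F, piece CD-F6: time reversal of real Brownian motion
-/

set_option autoImplicit false

namespace Pool.Agent.Helper83.CD

open MeasureTheory ProbabilityTheory Metric Set TopologicalSpace
open scoped ENNReal NNReal unitInterval
open Pool.Agent.Helper16.CD

variable {Ω : Type} [MeasurableSpace Ω]

private lemma Rev_cov (s t : ℝ≥0) (hst : s ≤ t) :
    ((min (1 - s) (1 - t) : ℝ≥0) : ℝ) + ((min (1 - s) (max 1 t) : ℝ≥0) : ℝ) -
      2 * ((min (1 - s) 1 : ℝ≥0) : ℝ) +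
      (((min (max 1 s) (1 - t) : ℝ≥0) : ℝ) + ((min (max 1 s) (max 1 t) : ℝ≥0) : ℝ) -
      2 * ((min (max 1 s) 1 : ℝ≥0) : ℝ)) -
      2 * (((min 1 (1 - t) : ℝ≥0) : ℝ) + ((min 1 (max 1 t) : ℝ≥0) : ℝ) -
      2 * ((min 1 1 : ℝ≥0) : ℝ)) = s := by
  rcases le_total t 1 with ht | ht
  · have hs : s ≤ 1 := hst.trans ht
    rw [max_eq_left ht, max_eq_left hs, min_eq_right (tsub_le_tsub_left hst 1),
      min_eq_left (tsub_le_self : (1 : ℝ≥0) - s ≤ 1), min_eq_right (tsub_le_self : (1 : ℝ≥0) - t ≤ 1),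
      min_self, NNReal.coe_sub ht, NNReal.coe_sub hs, NNReal.coe_one]
    ring
  · rcases le_total s 1 with hs | hs
    · rw [max_eq_right ht, max_eq_left hs, tsub_eq_zero_of_le ht,
        min_eq_right (zero_le : (0 : ℝ≥0) ≤ 1 - s), min_eq_right (zero_le : (0 : ℝ≥0) ≤ 1),
        min_eq_left ((tsub_le_self : (1 : ℝ≥0) - s ≤ 1).trans ht),
        min_eq_left (tsub_le_self : (1 : ℝ≥0) - s ≤ 1), min_eq_left ht, min_self,
        NNReal.coe_sub hs, NNReal.coe_one, NNReal.coe_zero]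
      ring
    · rw [max_eq_right ht, max_eq_right hs, tsub_eq_zero_of_le ht, tsub_eq_zero_of_le hs, min_self,
        min_eq_left (zero_le : (0 : ℝ≥0) ≤ t), min_eq_left (zero_le : (0 : ℝ≥0) ≤ 1),
        min_eq_right (zero_le : (0 : ℝ≥0) ≤ s), min_eq_left hst, min_eq_right hs,
        min_eq_right (zero_le : (0 : ℝ≥0) ≤ 1), min_eq_left ht, min_self,
        NNReal.coe_one, NNReal.coe_zero]
      ring

/-- piece F6-1 (reversal).
Proof: `IsGaussianProcess.isPreBrownianReal_of_covariance`.  Gaussian: `of_isGaussianProcess`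
with the finite set `{1 - t, max 1 t, 1}`.  Mean zero: `integral_eval`.  Covariance: bilinearity
(`covariance_fun_add_left`, `covariance_fun_sub_left`, ... or write
`rev B t = (B (1 - t) - B 1) + (B (max 1 t) - B 1)`), `covariance_fun_eval`, and the identity
`min (1-s) (1-t) + min (1-s) (max 1 t) - 2 min (1-s) 1 + min (max 1 s) (1-t)
 + min (max 1 s) (max 1 t) - 2 min (max 1 s) 1 - 2 min 1 (1-t) - 2 min 1 (max 1 t) + 4 = s`
for `s ≤ t` (cases `t ≤ 1`, `s ≤ 1 ≤ t`, `1 ≤ s`; cast `NNReal` to reals). -/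
lemma isPreBrownianReal_rev {P : Measure Ω} {B : ℝ≥0 → Ω → ℝ} (hB : IsPreBrownianReal B P) :
    IsPreBrownianReal (rev B) P := by
  have hP := hB.isGaussianProcess.isProbabilityMeasure
  have hM : ∀ t, MemLp (B t) 2 P := fun t => (hB.isGaussianProcess.hasGaussianLaw_eval t).memLp_two
  have hI : ∀ t, Integrable (B t) P := fun t => hB.integrable_eval t
  refine IsGaussianProcess.isPreBrownianReal_of_covariance ?_ (fun t ↦ ?_) (fun s t hst ↦ ?_)
  · refine hB.isGaussianProcess.of_isGaussianProcess fun t => ?_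
    exact ⟨{1 - t, max 1 t, 1},
      { toFun x := x ⟨1 - t, by simp⟩ + x ⟨max 1 t, by simp⟩ - 2 * x ⟨1, by simp⟩
        map_add' x y := by simp; ring
        map_smul' c x := by simp; ring }, fun ω => by simp [rev]⟩
  · unfold rev
    have h1 : ∫ ω, (B (1 - t) ω + B (max 1 t) ω - 2 * B 1 ω) ∂P =
        ∫ ω, (B (1 - t) ω + B (max 1 t) ω) ∂P - ∫ ω, 2 * B 1 ω ∂P :=
      integral_sub ((hI _).add (hI _)) ((hI _).const_mul 2)
    have h2 : ∫ ω, (B (1 - t) ω + B (max 1 t) ω) ∂P = ∫ ω, B (1 - t) ω ∂P + ∫ ω, B (max 1 t) ω ∂P :=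
      integral_add (hI _) (hI _)
    rw [h1, h2, integral_const_mul, hB.integral_eval, hB.integral_eval, hB.integral_eval]
    ring
  · have hMa : ∀ t, MemLp (fun ω => B (1 - t) ω + B (max 1 t) ω) 2 P := fun t =>
      (hM _).add (hM _)
    have hMc : MemLp (fun ω => 2 * B 1 ω) 2 P := (hM 1).const_mul 2
    have hr : ∀ r t, cov[fun ω => B r ω, fun ω => B (1 - t) ω + B (max 1 t) ω - 2 * B 1 ω; P] =
        ((min r (1 - t) : ℝ≥0) : ℝ) + ((min r (max 1 t) : ℝ≥0) : ℝ) -
          2 * ((min r 1 : ℝ≥0) : ℝ) := by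
      intro r t
      have h2 : cov[fun ω => B r ω, fun ω => B (1 - t) ω + B (max 1 t) ω; P] =
          cov[fun ω => B r ω, fun ω => B (1 - t) ω; P] +
            cov[fun ω => B r ω, fun ω => B (max 1 t) ω; P] :=
        covariance_add_right (hM r) (hM _) (hM _)
      rw [covariance_fun_sub_right (hM r) (hMa t) hMc, h2,
        covariance_const_mul_right, hB.covariance_fun_eval, hB.covariance_fun_eval,
        hB.covariance_fun_eval]
    have hMr : MemLp (fun ω => B (1 - t) ω + B (max 1 t) ω - 2 * B 1 ω) 2 P := (hMa t).sub hMc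
    have h1 : cov[rev B s, rev B t; P] =
        cov[fun ω => B (1 - s) ω + B (max 1 s) ω - 2 * B 1 ω,
          fun ω => B (1 - t) ω + B (max 1 t) ω - 2 * B 1 ω; P] := rfl
    have h2 : cov[fun ω => B (1 - s) ω + B (max 1 s) ω,
          fun ω => B (1 - t) ω + B (max 1 t) ω - 2 * B 1 ω; P] =
        cov[fun ω => B (1 - s) ω, fun ω => B (1 - t) ω + B (max 1 t) ω - 2 * B 1 ω; P] +
          cov[fun ω => B (max 1 s) ω, fun ω => B (1 - t) ω + B (max 1 t) ω - 2 * B 1 ω; P] :=
      covariance_add_left (hM _) (hM _) hMr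
    rw [h1, covariance_fun_sub_left (hMa s) hMc hMr, h2,
      covariance_const_mul_left, hr, hr, hr]
    exact Rev_cov s t hst

end Pool.Agent.Helper83.CD
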