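import Pool.Agent.Helper83.CD.Trans

/-!
# CD frame F, piece CD-F2: the parametrised shape and its measurability
-/

set_option autoImplicit false

namespace Pool.Agent.Helper83.CD

open MeasureTheory ProbabilityTheory Metric Set TopologicalSpace
open scoped ENNReal NNReal unitInterval
open Pool.Agent.Helper16.CD

variable {Ω : Type} [MeasurableSpace Ω]

/-- the parametrised shape -/
noncomputable def shf (B₁ B₂ : ℝ≥0 → Ω → ℝ) (e : Mark Ω) (s : I) : Plane :=
  ((e.1.1 : ℝ) + √(dur e.1.2.2) * bridge B₁ e.2 s,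
    (e.1.2.1 : ℝ) + √(dur e.1.2.2) * bridge B₂ e.2 s)

lemma continuous_shf {P : Measure Ω} {B₁ B₂ : ℝ≥0 → Ω → ℝ} (h : IsPlanarBM P B₁ B₂)
    (e : Mark Ω) : Continuous (shf B₁ B₂ e) := by
  have h1 := h.cont₁ e.2
  have h2 := h.cont₂ e.2
  have h3 : Continuous fun s : I => Real.toNNReal s :=
    continuous_real_toNNReal.comp continuous_subtype_val
  have h4 : Continuous fun s : I => (s : ℝ) := continuous_subtype_val
  have h5 : Continuous (bridge B₁ e.2) :=
    ((h1.comp h3).sub continuous_const).sub (h4.mul continuous_const)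
  have h6 : Continuous (bridge B₂ e.2) :=
    ((h2.comp h3).sub continuous_const).sub (h4.mul continuous_const)
  exact (continuous_const.add (continuous_const.mul h5)).prodMk
    (continuous_const.add (continuous_const.mul h6))

omit [MeasurableSpace Ω] in
lemma bridge_zero (B : ℝ≥0 → Ω → ℝ) (ω : Ω) : bridge B ω 0 = 0 := by
  simp [bridge]

omit [MeasurableSpace Ω] in
lemma bridge_one (B : ℝ≥0 → Ω → ℝ) (ω : Ω) : bridge B ω 1 = 0 := by
  simp [bridge]

/-- piece F2 (field `meas`).
Proof: `infDist z (range f)` is `(infEDist z (range f)).toReal`, and for the continuous curve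
`shf B₁ B₂ e` it is `⨅ n, edist z (shf B₁ B₂ e (denseSeq I n))` (as in `dd_eq`), each term
measurable in `e` (`dur` is continuous, `bridge B ω s` measurable in `ω`). -/
lemma meas_brown {P : Measure Ω} {B₁ B₂ : ℝ≥0 → Ω → ℝ} (h : IsPlanarBM P B₁ B₂) (z : Plane) :
    Measurable fun e => infDist z (shapeB B₁ B₂ e) := by
  have hb1 : ∀ s : I, Measurable fun ω => bridge B₁ ω s := fun s =>
    ((h.meas₁ _).sub (h.meas₁ 0)).sub (((h.meas₁ 1).sub (h.meas₁ 0)).const_mul _)
  have hb2 : ∀ s : I, Measurable fun ω => bridge B₂ ω s := fun s =>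
    ((h.meas₂ _).sub (h.meas₂ 0)).sub (((h.meas₂ 1).sub (h.meas₂ 0)).const_mul _)
  have hd : Measurable fun e : Mark Ω => √(dur e.1.2.2) := by
    have h1 : Measurable fun e : Mark Ω => ((e.1.2.2 : I) : ℝ) :=
      measurable_subtype_coe.comp measurable_fst.snd.snd
    exact (measurable_const.div (measurable_const.sub (h1.const_mul _))).sqrt
  have hx : Measurable fun e : Mark Ω => ((e.1.1 : I) : ℝ) :=
    measurable_subtype_coe.comp measurable_fst.fst
  have hy : Measurable fun e : Mark Ω => ((e.1.2.1 : I) : ℝ) :=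
    measurable_subtype_coe.comp measurable_fst.snd.fst
  have hs : ∀ s : I, Measurable fun e : Mark Ω => shf B₁ B₂ e s := fun s =>
    (hx.add (hd.mul ((hb1 s).comp measurable_snd))).prodMk
      (hy.add (hd.mul ((hb2 s).comp measurable_snd)))
  have heq : ∀ e : Mark Ω, infDist z (shapeB B₁ B₂ e) =
      (⨅ n : ℕ, edist z (shf B₁ B₂ e (denseSeq I n))).toReal := by
    intro e
    have h1 := dd_eq (w := (fun s => (shf B₁ B₂ e s).1, fun s => (shf B₁ B₂ e s).2))
      (continuous_shf h e) z
    have h2 : infDist z (shapeB B₁ B₂ e) =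
        (infEDist z (range (pt (fun s => (shf B₁ B₂ e s).1, fun s => (shf B₁ B₂ e s).2)))).toReal :=
      rfl
    rw [h2, ← h1]
    rfl
  simp only [heq]
  exact (Measurable.iInf fun n => measurable_const.edist (hs _)).ennreal_toReal

end Pool.Agent.Helper83.CD
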