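import Pool.Agent.Helper83.CD.Path

/-!
# CD frame F, piece CD-F1a: deterministic dyadic chaining
-/

set_option autoImplicit false

namespace Pool.Agent.Helper83.CD

open MeasureTheory ProbabilityTheory Metric Set TopologicalSpace
open scoped ENNReal NNReal unitInterval
open Pool.Agent.Helper16.CD

/-- the largest dyadic increment of order `n` of `x : ℝ≥0 → ℝ` on `[0, 1]` -/
noncomputable def dyInc (x : ℝ≥0 → ℝ) (n : ℕ) : ℝ≥0∞ :=
  ⨆ k ∈ Finset.range (2 ^ n), edist (x ((k + 1 : ℕ) / 2 ^ n)) (x ((k : ℕ) / 2 ^ n))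

private lemma le_dyInc (x : ℝ≥0 → ℝ) (n k : ℕ) (hk : k < 2 ^ n) :
    edist (x ((k + 1 : ℕ) / 2 ^ n)) (x ((k : ℕ) / 2 ^ n)) ≤ dyInc x n :=
  le_iSup₂_of_le (f := fun k (_ : k ∈ Finset.range (2 ^ n)) =>
    edist (x ((k + 1 : ℕ) / 2 ^ n)) (x ((k : ℕ) / 2 ^ n))) k (Finset.mem_range.2 hk) le_rfl

private lemma chain_dyadic (x : ℝ≥0 → ℝ) (n : ℕ) : ∀ k ≤ 2 ^ n,
    edist (x ((k : ℕ) / 2 ^ n)) (x 0) ≤ ∑ m ∈ Finset.range (n + 1), dyInc x m := by
  induction n with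
  | zero =>
    intro k hk
    have hk1 : k = 0 ∨ k = 1 := by
      rw [pow_zero] at hk
      omega
    rcases hk1 with rfl | rfl
    · simp
    · have h := le_dyInc x 0 0 (by norm_num)
      simpa using h
  | succ n ih =>
    intro k hk
    rw [Finset.sum_range_succ]
    obtain ⟨j, hj | hj⟩ : ∃ j, k = 2 * j ∨ k = 2 * j + 1 := ⟨k / 2, by omega⟩
    · have hj2 : j ≤ 2 ^ n := by
        rw [pow_succ] at hk
        omega
      have h1 : ((k : ℕ) / 2 ^ (n + 1) : ℝ≥0) = (j : ℕ) / 2 ^ n := by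
        rw [hj, pow_succ, mul_comm 2 j, Nat.cast_mul]
        exact mul_div_mul_right _ _ (by norm_num)
      rw [h1]
      exact (ih j hj2).trans le_self_add
    · have hj2 : j ≤ 2 ^ n := by
        rw [pow_succ] at hk
        omega
      have h1 : (((2 * j : ℕ) : ℕ) / 2 ^ (n + 1) : ℝ≥0) = (j : ℕ) / 2 ^ n := by
        rw [pow_succ, mul_comm 2 j, Nat.cast_mul]
        exact mul_div_mul_right _ _ (by norm_num)
      have h2 := le_dyInc x (n + 1) (2 * j) (by omega)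
      rw [h1] at h2
      rw [hj]
      calc edist (x (((2 * j + 1 : ℕ) : ℕ) / 2 ^ (n + 1))) (x 0)
          ≤ edist (x (((2 * j + 1 : ℕ) : ℕ) / 2 ^ (n + 1))) (x ((j : ℕ) / 2 ^ n)) +
            edist (x ((j : ℕ) / 2 ^ n)) (x 0) := edist_triangle _ _ _
        _ ≤ dyInc x (n + 1) + ∑ m ∈ Finset.range (n + 1), dyInc x m := add_le_add h2 (ih j hj2)
        _ = _ := add_comm _ _

/-- piece F1-1 (deterministic chaining).
Proof: first for `t = k / 2 ^ n`, `k ≤ 2 ^ n`: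
`edist (x t) (x 0) ≤ ∑ m ∈ range (n + 1), dyInc x m` by induction on `n` (`k` even:
`k / 2 ^ n = (k / 2) / 2 ^ (n - 1)`; `k = 2 j + 1`: triangle inequality with `2 j / 2 ^ n`, which
is a point of order `n - 1`).  Then for all `t ≤ 1` by continuity: `⌊2 ^ n t⌋₊ / 2 ^ n → t` and
`le_of_tendsto` (`ENNReal.sum_le_tsum`). -/
lemma edist_le_tsum_dyInc {x : ℝ≥0 → ℝ} (hx : Continuous x) (t : ℝ≥0) (ht : t ≤ 1) :
    edist (x t) (x 0) ≤ ∑' n, dyInc x n := by
  have h1 : Filter.Tendsto (fun n : ℕ => ((⌊(t : ℝ) * 2 ^ n⌋₊ : ℕ) : ℝ≥0) / 2 ^ n) Filter.atTop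
      (nhds t) := by
    rw [← NNReal.tendsto_coe]
    have h2 := (tendsto_nat_floor_mul_div_atTop (R := ℝ) t.2).comp
      (tendsto_pow_atTop_atTop_of_one_lt (one_lt_two (α := ℝ)))
    refine h2.congr fun n => ?_
    simp
  have h3 : Filter.Tendsto (fun n : ℕ => edist
      (x (((⌊(t : ℝ) * 2 ^ n⌋₊ : ℕ) : ℝ≥0) / 2 ^ n)) (x 0)) Filter.atTop
      (nhds (edist (x t) (x 0))) :=
    ((hx.tendsto t).comp h1).edist tendsto_const_nhds
  refine le_of_tendsto h3 (Filter.Eventually.of_forall fun n => ?_)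
  refine (chain_dyadic x n _ ?_).trans (ENNReal.sum_le_tsum _)
  have h4 : (t : ℝ) * 2 ^ n ≤ ((2 ^ n : ℕ) : ℝ) := by
    have h5 : (t : ℝ) ≤ 1 := by exact_mod_cast ht
    push_cast
    have h6 : (0 : ℝ) < 2 ^ n := by positivity
    nlinarith
  exact Nat.floor_le_of_le h4

end Pool.Agent.Helper83.CD
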