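import Pool.Agent.Helper83.CD.Path

/-!
# CD frame F, piece CD-F14: continuous logarithm of a closed curve seen from an unbounded component
-/

set_option autoImplicit false

namespace Pool.Agent.Helper83.CD

open MeasureTheory ProbabilityTheory Metric Set TopologicalSpace
open scoped ENNReal NNReal unitInterval
open Pool.Agent.Helper16.CD

/-- the point of `ℂ` -/
def toC (z : Plane) : ℂ := ⟨z.1, z.2⟩

/-- the closed curve `f - a` has a continuous closed logarithm -/
def HasLog (f : I → Plane) (a : Plane) : Prop :=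
  ∃ g : I → ℂ, Continuous g ∧ g 0 = g 1 ∧ ∀ t, Complex.exp (g t) = toC (f t - a)

private lemma Wind1_sub (a b : Plane) : toC (a - b) = toC a - toC b := by
  apply Complex.ext <;> simp [toC]

private lemma Wind1_cont : Continuous toC := by
  have h : toC = fun z : Plane => Complex.equivRealProdCLM.symm z := by
    funext z
    apply Complex.ext <;> simp [toC]
  rw [h]
  exact Complex.equivRealProdCLM.symm.continuous

private lemma Wind1_le (z : Plane) : ‖z‖ ≤ ‖toC z‖ := by
  rw [Prod.norm_def]
  refine max_le ?_ ?_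
  · exact Complex.abs_re_le_norm (toC z)
  · exact Complex.abs_im_le_norm (toC z)

private lemma Wind1_ge (z : Plane) : ‖toC z‖ ≤ 2 * ‖z‖ := by
  have h1 : ‖toC z‖ ≤ |z.1| + |z.2| := Complex.norm_le_abs_re_add_abs_im (toC z)
  have h2 : |z.1| ≤ ‖z‖ := norm_fst_le z
  have h3 : |z.2| ≤ ‖z‖ := norm_snd_le z
  linarith

/-- piece F14-1 (far points).
Proof: `c = toC (-a) ≠ 0`, `toC (f t - a) = c * (1 + toC (f t) / c)` with
`‖toC (f t) / c‖ < 1`, so `1 + toC (f t) / c ∈ Complex.slitPlane`;
`g t = log c + log (1 + toC (f t) / c)`. -/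
lemma hasLog_far {f : I → Plane} (hf : Continuous f) (h01 : f 0 = f 1) {a : Plane}
    (ha : ∀ t, ‖toC (f t)‖ < ‖toC a‖) : HasLog f a := by
  have hc : toC a ≠ 0 := by
    have h1 := (norm_nonneg _).trans_lt (ha 0)
    exact norm_pos_iff.1 h1
  have hc' : -toC a ≠ 0 := neg_ne_zero.2 hc
  have hw : ∀ t, 1 + toC (f t) / (-toC a) ∈ Complex.slitPlane := by
    intro t
    apply Complex.mem_slitPlane_of_norm_lt_one
    rw [norm_div, norm_neg, div_lt_one (norm_pos_iff.2 hc)]
    exact ha t
  refine ⟨fun t => Complex.log (-toC a) + Complex.log (1 + toC (f t) / (-toC a)), ?_, ?_, ?_⟩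
  · refine continuous_const.add (Continuous.clog ?_ hw)
    exact continuous_const.add ((Wind1_cont.comp hf).div_const _)
  · simp only [h01]
  · intro t
    rw [Complex.exp_add, Complex.exp_log hc', Complex.exp_log (Complex.slitPlane_ne_zero (hw t)),
      Wind1_sub]
    field_simp
    ring

/-- piece F14-2 (nearby points).
Proof: `toC (f t - a') = toC (f t - a) * (1 + toC (a - a') / toC (f t - a))`, the quotient has
norm `< 1`; `g' t = g t + log (1 + toC (a - a') / toC (f t - a))`. -/
lemma hasLog_near {f : I → Plane} (hf : Continuous f) (h01 : f 0 = f 1) {a a' : Plane}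
    (h : HasLog f a) (ha : ∀ t, ‖toC (a - a')‖ < ‖toC (f t - a)‖) : HasLog f a' := by
  obtain ⟨g, hg, hg01, hge⟩ := h
  have hne : ∀ t, toC (f t - a) ≠ 0 := by
    intro t
    have h1 := (norm_nonneg _).trans_lt (ha t)
    exact norm_pos_iff.1 h1
  have hw : ∀ t, 1 + toC (a - a') / toC (f t - a) ∈ Complex.slitPlane := by
    intro t
    apply Complex.mem_slitPlane_of_norm_lt_one
    rw [norm_div, div_lt_one (norm_pos_iff.2 (hne t))]
    exact ha t
  refine ⟨fun t => g t + Complex.log (1 + toC (a - a') / toC (f t - a)), ?_, ?_, ?_⟩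
  · refine hg.add (Continuous.clog ?_ hw)
    exact continuous_const.add
      (continuous_const.div (Wind1_cont.comp (hf.sub continuous_const)) hne)
  · simp only [h01, hg01]
  · intro t
    rw [Complex.exp_add, hge, Complex.exp_log (Complex.slitPlane_ne_zero (hw t)), mul_add,
      mul_one, mul_div_cancel₀ _ (hne t), Wind1_sub, Wind1_sub, Wind1_sub]
    ring

/-- piece F14-3 (points in an unbounded component).
Proof: `U = {z ∉ range f | HasLog f z}` and `V = {z ∉ range f | ¬ HasLog f z}` are open by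
F14-2 (`‖z‖ ≤ ‖toC z‖ ≤ 2 ‖z‖`, positive distance to the compact range), disjoint and cover the
complement; the component is preconnected and, being unbounded, meets `U` (F14-1); so
`IsPreconnected.subset_left_of_subset_union` gives `a ∈ U` (`mem_connectedComponentIn`). -/
lemma hasLog_of_unbounded {f : I → Plane} (hf : Continuous f) (h01 : f 0 = f 1) {a : Plane}
    (ha : a ∉ range f) (hu : ¬ Bornology.IsBounded (connectedComponentIn (range f)ᶜ a)) :
    HasLog f a := by
  have hcpt : IsCompact (range f) := isCompact_range hf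
  -- the property is locally constant
  have hloc : ∀ z ∉ range f, ∃ δ > 0, ∀ z' ∈ ball z δ, z' ∉ range f ∧
      (HasLog f z ↔ HasLog f z') := by
    intro z hz
    have hδ : 0 < infDist z (range f) :=
      (hcpt.isClosed.notMem_iff_infDist_pos ⟨f 0, 0, rfl⟩).1 hz
    refine ⟨infDist z (range f) / 4, by positivity, fun z' hz' => ?_⟩
    have h1 : dist z' z < infDist z (range f) / 4 := mem_ball.1 hz'
    have h2 : ∀ t, infDist z (range f) ≤ dist z (f t) := fun t =>
      infDist_le_dist_of_mem ⟨t, rfl⟩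
    have h3 : ∀ t, infDist z (range f) * (3 / 4) ≤ dist z' (f t) := by
      intro t
      have h4 := dist_triangle z z' (f t)
      have h5 := h2 t
      rw [dist_comm] at h1
      linarith
    refine ⟨?_, ?_, ?_⟩
    · rintro ⟨t, rfl⟩
      have h4 := h3 t
      rw [dist_self] at h4
      linarith
    · intro h4
      refine hasLog_near hf h01 h4 fun t => ?_
      calc ‖toC (z - z')‖ ≤ 2 * ‖z - z'‖ := Wind1_ge _
        _ = 2 * dist z' z := by rw [dist_comm, dist_eq_norm]
        _ < infDist z (range f) := by linarith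
        _ ≤ dist z (f t) := h2 t
        _ = ‖f t - z‖ := by rw [dist_comm, dist_eq_norm]
        _ ≤ ‖toC (f t - z)‖ := Wind1_le _
    · intro h4
      refine hasLog_near hf h01 h4 fun t => ?_
      calc ‖toC (z' - z)‖ ≤ 2 * ‖z' - z‖ := Wind1_ge _
        _ = 2 * dist z' z := by rw [dist_eq_norm]
        _ < infDist z (range f) * (3 / 4) := by linarith
        _ ≤ dist z' (f t) := h3 t
        _ = ‖f t - z'‖ := by rw [dist_comm, dist_eq_norm]
        _ ≤ ‖toC (f t - z')‖ := Wind1_le _
  have hU : IsOpen {z : Plane | z ∉ range f ∧ HasLog f z} := by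
    rw [Metric.isOpen_iff]
    rintro z ⟨hz, hz'⟩
    obtain ⟨δ, hδ, h⟩ := hloc z hz
    exact ⟨δ, hδ, fun z' h' => ⟨(h z' h').1, (h z' h').2.1 hz'⟩⟩
  have hV : IsOpen {z : Plane | z ∉ range f ∧ ¬ HasLog f z} := by
    rw [Metric.isOpen_iff]
    rintro z ⟨hz, hz'⟩
    obtain ⟨δ, hδ, h⟩ := hloc z hz
    exact ⟨δ, hδ, fun z' h' => ⟨(h z' h').1, fun h4 => hz' ((h z' h').2.2 h4)⟩⟩
  have hdisj : Disjoint {z : Plane | z ∉ range f ∧ HasLog f z}
      {z : Plane | z ∉ range f ∧ ¬ HasLog f z} := by
    rw [Set.disjoint_left]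
    rintro z ⟨-, h1⟩ ⟨-, h2⟩
    exact h2 h1
  have hsub : connectedComponentIn (range f)ᶜ a ⊆
      {z : Plane | z ∉ range f ∧ HasLog f z} ∪ {z : Plane | z ∉ range f ∧ ¬ HasLog f z} := by
    intro z hz
    have h1 : z ∉ range f := connectedComponentIn_subset _ _ hz
    by_cases h2 : HasLog f z
    · exact Or.inl ⟨h1, h2⟩
    · exact Or.inr ⟨h1, h2⟩
  have hne : (connectedComponentIn (range f)ᶜ a ∩
      {z : Plane | z ∉ range f ∧ HasLog f z}).Nonempty := by
    obtain ⟨R, hR⟩ := hcpt.isBounded.exists_norm_le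
    have h1 : ∃ z ∈ connectedComponentIn (range f)ᶜ a, 2 * R < ‖z‖ := by
      by_contra hcon
      push Not at hcon
      exact hu (isBounded_iff_forall_norm_le.2 ⟨2 * R, hcon⟩)
    obtain ⟨z, hz, hzR⟩ := h1
    refine ⟨z, hz, connectedComponentIn_subset _ _ hz, ?_⟩
    refine hasLog_far hf h01 fun t => ?_
    calc ‖toC (f t)‖ ≤ 2 * ‖f t‖ := Wind1_ge _
      _ ≤ 2 * R := by
        have := hR (f t) ⟨t, rfl⟩
        linarith
      _ < ‖z‖ := hzR
      _ ≤ ‖toC z‖ := Wind1_le _
  have h2 := IsPreconnected.subset_left_of_subset_union hU hV hdisj hsub hne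
    isPreconnected_connectedComponentIn
  exact (h2 (mem_connectedComponentIn ha)).2

end Pool.Agent.Helper83.CD
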