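import Pool.Agent.Helper83.CD.Wind1

/-!
# CD frame F, piece CD-F15a: a curve crossing a ray once has no closed logarithm
-/

set_option autoImplicit false

namespace Pool.Agent.Helper83.CD

open MeasureTheory ProbabilityTheory Metric Set TopologicalSpace
open scoped ENNReal NNReal unitInterval
open Pool.Agent.Helper16.CD

/-- piece F15-1 (integer valued continuous functions are constant on intervals) -/
lemma eq_of_int {θ : I → ℝ} {a b : I} (hab : a ≤ b) (hθ : ContinuousOn θ (Icc a b))
    (hi : ∀ t ∈ Icc a b, ∃ n : ℤ, θ t = n) : θ a = θ b := by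
  have hpre : IsPreconnected (θ '' Icc a b) := isPreconnected_Icc.image θ hθ
  have hord : OrdConnected (θ '' Icc a b) := hpre.ordConnected
  have ha : θ a ∈ θ '' Icc a b := mem_image_of_mem θ (left_mem_Icc.2 hab)
  have hb : θ b ∈ θ '' Icc a b := mem_image_of_mem θ (right_mem_Icc.2 hab)
  obtain ⟨m, hm⟩ := hi a (left_mem_Icc.2 hab)
  obtain ⟨n, hn⟩ := hi b (right_mem_Icc.2 hab)
  have key : ∀ k l : ℤ, (k : ℝ) ∈ θ '' Icc a b → (l : ℝ) ∈ θ '' Icc a b → ¬ k < l := by
    intro k l hk hl hkl
    have h1 : (k : ℝ) + 1 ≤ l := by exact_mod_cast hkl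
    have h2 : (k : ℝ) + 1 / 2 ∈ θ '' Icc a b :=
      hord.out hk hl ⟨by linarith, by linarith⟩
    obtain ⟨t, ht, htk⟩ := h2
    obtain ⟨q, hq⟩ := hi t ht
    rw [hq] at htk
    have h3 : (2 * q : ℤ) = 2 * k + 1 := by
      have : (2 * q : ℝ) = 2 * k + 1 := by linarith
      exact_mod_cast this
    omega
  rw [hm, hn]
  rw [hm] at ha
  rw [hn] at hb
  have h1 := key m n ha hb
  have h2 := key n m hb ha
  have h3 : m = n := by omega
  rw [h3]

/-- piece F15-2 (argument of `-i w`).
Proof: `w = |w| exp (i arg w)`; for `Im w < 0 < Re w`, `arg w ∈ (-π/2, 0)` and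
`-i w = |w| exp (i (arg w - π/2))` with `arg w - π/2 ∈ (-π, π]`
(`Complex.arg_mul_cos_add_sin_mul_I` or `Complex.arg_exp_mul_I`-type lemmas). -/
lemma arg_right {w : ℂ} (h1 : 0 < w.re) (h2 : w.im < 0) :
    Complex.arg (-Complex.I * w) = Complex.arg w - Real.pi / 2 := by
  have hw : w ≠ 0 := by
    intro h
    rw [h, Complex.zero_re] at h1
    exact lt_irrefl _ h1
  have ha1 := Complex.abs_arg_lt_pi_div_two_iff.2 (Or.inl h1 : 0 < w.re ∨ w = 0)
  have ha2 := Complex.arg_neg_iff.2 h2
  have hpi := Real.pi_pos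
  rw [abs_lt] at ha1
  rw [Complex.arg_mul (neg_ne_zero.2 Complex.I_ne_zero) hw, Complex.arg_neg_I]
  · ring
  · rw [Complex.arg_neg_I]
    constructor
    · linarith [ha1.1]
    · linarith

/-- piece F15-3: for `Re w < 0`, `Im w < 0`, `arg w ∈ (-π, -π/2)`, `arg (-i w) = arg w + 3π/2`. -/
lemma arg_left {w : ℂ} (h1 : w.re < 0) (h2 : w.im < 0) :
    Complex.arg (-Complex.I * w) = Complex.arg w + 3 * Real.pi / 2 := by
  have hw : w ≠ 0 := by
    intro h
    rw [h, Complex.zero_re] at h1
    exact lt_irrefl _ h1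
  have hw' : -w ≠ 0 := neg_ne_zero.2 hw
  have hre : 0 < (-w).re := by rw [Complex.neg_re]; linarith
  have him : 0 < (-w).im := by rw [Complex.neg_im]; linarith
  have ha1 := Complex.abs_arg_lt_pi_div_two_iff.2 (Or.inl hre : 0 < (-w).re ∨ -w = 0)
  have ha2 := Complex.arg_nonneg_iff.2 him.le
  have ha3 := Complex.arg_neg_eq_arg_add_pi_of_im_neg h2
  have hpi := Real.pi_pos
  rw [abs_lt] at ha1
  have h3 : -Complex.I * w = Complex.I * (-w) := by ring
  rw [h3, Complex.arg_mul Complex.I_ne_zero hw', Complex.arg_I, ha3]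
  · ring
  · rw [Complex.arg_I]
    constructor
    · linarith
    · linarith [ha1.2]

private lemma continuous_toC : Continuous toC := by
  have h : toC = fun z : Plane => (z.1 : ℂ) + (z.2 : ℂ) * Complex.I := by
    ext z
    exact Complex.mk_eq_add_mul_I z.1 z.2
  rw [h]
  fun_prop

private lemma int_log {g w : ℂ} (hw : w ≠ 0) (h : Complex.exp g = w) :
    ∃ n : ℤ, (g.im - Complex.arg w) / (2 * Real.pi) = n := by
  rw [← Complex.exp_log hw, Complex.exp_eq_exp_iff_exists_int] at h
  obtain ⟨n, hn⟩ := h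
  refine ⟨n, ?_⟩
  have h1 := congrArg Complex.im hn
  have h2 : ((n : ℂ) * (2 * (Real.pi : ℂ) * Complex.I)).im = n * (2 * Real.pi) := by
    simp
  rw [Complex.add_im, Complex.log_im, h2] at h1
  have hpi := Real.pi_pos
  rw [h1]
  field_simp
  ring

/-- piece F15-4 (a closed curve crossing the ray below `0` once, from left to right, has no
closed logarithm).
Proof: `g` the logarithm, `w = toC (f - a)`.  On `[0, a₀]`: `θ₁ = (Im g - arg w) / 2π` is
continuous (`Complex.continuousAt_arg`, `w ∈ slitPlane`) and integer valued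
(`exp g = w`); on `[a₀, 1]`: `θ₂ = (Im g - arg (-i w) - π/2) / 2π` is continuous and integer valued.
By F15-1 `θ₁ 0 = θ₁ a₀` and `θ₂ a₀ = θ₂ 1`; F15-2 at `a₀`: `θ₁ a₀ = θ₂ a₀`; F15-3 at `1`
(with `f 0 = f 1`, `g 0 = g 1`): `θ₂ 1 = θ₁ 0 - 1`; contradiction. -/
lemma not_hasLog {f : I → Plane} (hf : Continuous f) (h01 : f 0 = f 1) {a : Plane} (a₀ : I)
    (h1 : ∀ t ≤ a₀, (f t).2 < a.2) (h2 : ∀ t, a₀ ≤ t → (f t).1 ≠ a.1 ∨ a.2 < (f t).2)
    (h3 : (f 0).1 < a.1) (h4 : a.1 < (f a₀).1) : ¬ HasLog f a := by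
  rintro ⟨g, hg, hg01, hexp⟩
  have hpi := Real.pi_pos
  set w : I → ℂ := fun t => toC (f t - a) with hw
  have hwc : Continuous w := continuous_toC.comp (hf.sub continuous_const)
  have hre : ∀ t, (w t).re = (f t).1 - a.1 := fun t => rfl
  have him : ∀ t, (w t).im = (f t).2 - a.2 := fun t => rfl
  have hw0 : ∀ t, w t ≠ 0 := fun t => by
    have h5 : w t = Complex.exp (g t) := (hexp t).symm
    rw [h5]
    exact Complex.exp_ne_zero _
  have hgim : Continuous fun t => (g t).im := Complex.continuous_im.comp hg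
  -- first interval
  have hint1 : ∀ t ∈ Icc (0 : I) a₀, ∃ n : ℤ,
      ((g t).im - Complex.arg (w t)) / (2 * Real.pi) = n :=
    fun t _ => int_log (hw0 t) (hexp t)
  have hc1 : ContinuousOn (fun t => ((g t).im - Complex.arg (w t)) / (2 * Real.pi))
      (Icc (0 : I) a₀) := by
    refine ContinuousOn.div_const (hgim.continuousOn.sub fun t ht => ?_) _
    have h5 : w t ∈ Complex.slitPlane := by
      refine Or.inr ?_
      rw [him]
      have := h1 t ht.2
      exact ne_of_lt (by linarith)
    exact ((Complex.continuousAt_arg h5).comp hwc.continuousAt).continuousWithinAt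
  have e1 := eq_of_int (unitInterval.nonneg' (t := a₀)) hc1 hint1
  -- second interval
  have hI : Continuous fun t => -Complex.I * w t := continuous_const.mul hwc
  have hint2 : ∀ t ∈ Icc a₀ (1 : I), ∃ n : ℤ,
      ((g t).im - Real.pi / 2 - Complex.arg (-Complex.I * w t)) / (2 * Real.pi) = n := by
    intro t _
    have h5 : Complex.exp (g t - Real.pi / 2 * Complex.I) = -Complex.I * w t := by
      rw [Complex.exp_sub, hexp t]
      have h6 : Complex.exp ((Real.pi : ℂ) / 2 * Complex.I) = Complex.I := by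
        rw [Complex.exp_mul_I, Complex.cos_pi_div_two, Complex.sin_pi_div_two]
        ring
      rw [h6, div_eq_mul_inv, Complex.inv_I]
      ring
    have h7 := int_log (mul_ne_zero (neg_ne_zero.2 Complex.I_ne_zero) (hw0 t)) h5
    have h8 : (g t - (Real.pi : ℂ) / 2 * Complex.I).im = (g t).im - Real.pi / 2 := by
      have h9 : ((Real.pi : ℂ) / 2 * Complex.I) = ((Real.pi / 2 : ℝ) : ℂ) * Complex.I := by
        push_cast; ring
      rw [Complex.sub_im, h9]
      simp
    rw [h8] at h7
    exact h7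
  have hc2 : ContinuousOn (fun t => ((g t).im - Real.pi / 2 -
      Complex.arg (-Complex.I * w t)) / (2 * Real.pi)) (Icc a₀ (1 : I)) := by
    refine ContinuousOn.div_const ((hgim.sub continuous_const).continuousOn.sub
      fun t ht => ?_) _
    have h5 : -Complex.I * w t ∈ Complex.slitPlane := by
      have hr : (-Complex.I * w t).re = (f t).2 - a.2 := by
        rw [← him]; simp
      have hi : (-Complex.I * w t).im = -((f t).1 - a.1) := by
        rw [← hre]; simp
      rcases h2 t ht.1 with h6 | h6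
      · refine Or.inr ?_
        rw [hi]
        exact neg_ne_zero.2 (sub_ne_zero.2 h6)
      · refine Or.inl ?_
        rw [hr]
        linarith
    exact (ContinuousAt.comp (f := fun t => -Complex.I * w t) (g := Complex.arg) (x := t)
      (Complex.continuousAt_arg h5) hI.continuousAt).continuousWithinAt
  have e2 := eq_of_int (unitInterval.le_one' (t := a₀)) hc2 hint2
  have r1 := arg_right (w := w a₀) (by rw [hre]; linarith) (by
    rw [him]; linarith [h1 a₀ le_rfl])
  have hw10 : w 1 = w 0 := by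
    simp only [hw]
    rw [h01]
  have r2 := arg_left (w := w 0) (by rw [hre]; linarith) (by
    rw [him]; linarith [h1 0 (unitInterval.nonneg' (t := a₀))])
  rw [r1, hw10, ← hg01, r2] at e2
  rw [div_left_inj' (by positivity)] at e1 e2
  linarith

end Pool.Agent.Helper83.CD
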