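import Pool.Agent.Helper83.CD.Path

/-!
# CD frame F, piece CD-X1: Gaussian sequence with a given Gram matrix
-/

set_option autoImplicit false

namespace Pool.Agent.Helper83.CD

open MeasureTheory ProbabilityTheory Metric Set TopologicalSpace
open scoped ENNReal NNReal unitInterval

/-- independent standard Gaussian variables -/
noncomputable def Pg : Measure (ℕ → ℝ) := Measure.infinitePi fun _ : ℕ => gaussianReal 0 1

instance : IsProbabilityMeasure Pg := by
  unfold Pg
  infer_instance

/-- piece CD-X1a: the coordinates form a Gaussian process with covariance `1` on the diagonal and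
`0` outside.
Proof: `iIndepFun_infinitePi` (with `X i = id`), `iIndepFun.hasGaussianLaw` for the restriction to a
finite set (`iIndepFun.precomp` with `Subtype.val`), `measurePreserving_eval_infinitePi`,
`IndepFun.covariance_eq_zero`, `variance_id_gaussianReal`. -/
lemma coord_gauss : IsGaussianProcess (fun (n : ℕ) (ω : ℕ → ℝ) => ω n) Pg ∧
    (∀ n, ∫ ω : ℕ → ℝ, ω n ∂Pg = 0) ∧
    ∀ m n, cov[fun ω : ℕ → ℝ => ω m, fun ω : ℕ → ℝ => ω n; Pg] = if m = n then 1 else 0 := by
  have hlaw : ∀ n, HasLaw (fun ω : ℕ → ℝ => ω n) (gaussianReal 0 1) Pg := fun n =>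
    ⟨(measurable_pi_apply n).aemeasurable,
      Measure.infinitePi_map_eval (fun _ : ℕ => gaussianReal 0 1) n⟩
  have hind : iIndepFun (fun (n : ℕ) (ω : ℕ → ℝ) => ω n) Pg :=
    iIndepFun_infinitePi (P := fun _ : ℕ => gaussianReal 0 1) (X := fun _ (x : ℝ) => x)
      (fun _ => measurable_id)
  have hmem : ∀ n, MemLp (fun ω : ℕ → ℝ => ω n) 2 Pg := fun n => by
    have h : HasGaussianLaw (fun ω : ℕ → ℝ => ω n) Pg := (hlaw n).hasGaussianLaw
    exact h.memLp_two
  refine ⟨⟨fun J => ?_⟩, fun n => ?_, fun m n => ?_⟩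
  · have h2 : iIndepFun (fun (i : J) (ω : ℕ → ℝ) => ω (i : ℕ)) Pg :=
      hind.precomp Subtype.val_injective
    exact h2.hasGaussianLaw fun i => (hlaw i).hasGaussianLaw
  · rw [(hlaw n).integral_eq, integral_id_gaussianReal]
  · by_cases h : m = n
    · subst h
      rw [if_pos rfl, covariance_self (measurable_pi_apply m).aemeasurable, (hlaw m).variance_eq,
        variance_id_gaussianReal]
      simp
    · rw [if_neg h]
      exact (hind.indepFun h).covariance_eq_zero (hmem m) (hmem n)

private lemma gs {H : Type} [NormedAddCommGroup H] [InnerProductSpace ℝ H] (v : ℕ → H) :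
    ∃ (d : ℕ → ℕ → ℝ) (g : ℕ → H), (∀ n, v n = ∑ i ∈ Finset.range (n + 1), d n i • g i) ∧
      ∀ i j, i ≠ j → inner ℝ (g i) (g j) = 0 := by
  classical
  set g := InnerProductSpace.gramSchmidt ℝ v with hg
  refine ⟨fun n i => if i = n then 1 else inner ℝ (g i) (v n) / ‖g i‖ ^ 2, g, fun n => ?_,
    fun i j h => InnerProductSpace.gramSchmidt_orthogonal ℝ v h⟩
  rw [Finset.sum_range_succ]
  simp only [if_true, one_smul]
  rw [add_comm]
  conv_lhs => rw [InnerProductSpace.gramSchmidt_def'' ℝ v n]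
  congr 1
  have : Finset.Iio n = Finset.range n := by
    ext i
    simp
  rw [this]
  refine Finset.sum_congr rfl fun i hi => ?_
  rw [if_neg (Finset.mem_range.1 hi).ne]
  rfl

/-- piece CD-X1b: Gaussian sequence with a given Gram matrix.
Proof: `e = InnerProductSpace.gramSchmidtNormed ℝ v`: the `e k` are pairwise orthogonal, of norm
`1` or `0`, and `v n ∈ span {e k | k ≤ n}` (`span_gramSchmidtNormed`, `span_gramSchmidt_Iic`), so
`v n = ∑ k ∈ range (n + 1), ⟪e k, v n⟫ • e k` and `⟪v m, v n⟫ = ∑' ⟪e k, v m⟫ ⟪e k, v n⟫` (finite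
sums).  Take `X n ω = ∑ k ∈ range (n + 1), ⟪e k, v n⟫ * ω k`: Gaussian process by
`of_isGaussianProcess`; mean and covariance from CD-X1a (`covariance_sum_sum` or bilinearity). -/
theorem exists_gauss {H : Type} [NormedAddCommGroup H] [InnerProductSpace ℝ H] (v : ℕ → H) :
    ∃ X : ℕ → (ℕ → ℝ) → ℝ, (∀ n, Measurable (X n)) ∧ IsGaussianProcess X Pg ∧
      (∀ n, ∫ ω, X n ω ∂Pg = 0) ∧ ∀ m n, cov[X m, X n; Pg] = inner ℝ (v m) (v n) := by
  classical
  obtain ⟨d, g, hv, hort⟩ := gs v
  obtain ⟨hG, hmean, hcov⟩ := coord_gauss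
  have hmem : ∀ n, MemLp (fun ω : ℕ → ℝ => ω n) 2 Pg := fun n => (hG.hasGaussianLaw_eval n).memLp_two
  have hint : ∀ n, Integrable (fun ω : ℕ → ℝ => ω n) Pg := fun n =>
    (hG.hasGaussianLaw_eval n).integrable
  have hmem2 : ∀ n i, MemLp (fun ω : ℕ → ℝ => (d n i * ‖g i‖) * ω i) 2 Pg := fun n i =>
    (hmem i).const_mul _
  refine ⟨fun n ω => ∑ i ∈ Finset.range (n + 1), (d n i * ‖g i‖) * ω i, fun n => by fun_prop,
    ?_, fun n => ?_, fun m n => ?_⟩
  · refine hG.of_isGaussianProcess fun n => ⟨Finset.range (n + 1),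
      ∑ i : Finset.range (n + 1), (d n i * ‖g i‖) •
        (ContinuousLinearMap.proj (R := ℝ) (φ := fun _ : Finset.range (n + 1) => ℝ) i),
      fun ω => ?_⟩
    rw [← Finset.sum_coe_sort (Finset.range (n + 1))]
    simp
  · rw [integral_finsetSum _ fun i _ => (hint i).const_mul _]
    refine Finset.sum_eq_zero fun i _ => ?_
    rw [integral_const_mul, hmean, mul_zero]
  · rw [covariance_fun_sum_fun_sum' (fun i _ => hmem2 m i) (fun i _ => hmem2 n i), hv m, hv n,
      sum_inner]
    refine Finset.sum_congr rfl fun i _ => ?_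
    rw [inner_sum]
    refine Finset.sum_congr rfl fun j _ => ?_
    rw [covariance_const_mul_left, covariance_const_mul_right, hcov, real_inner_smul_left,
      real_inner_smul_right]
    by_cases h : i = j
    · subst h
      rw [if_pos rfl, real_inner_self_eq_norm_sq]
      ring
    · rw [if_neg h, hort i j h]
      ring

end Pool.Agent.Helper83.CD
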