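import Pool.Agent.Helper83.CD.X1

/-!
# CD frame F, piece CD-X2: Brownian motion at dyadic times
-/

set_option autoImplicit false

namespace Pool.Agent.Helper83.CD

open MeasureTheory ProbabilityTheory Metric Set TopologicalSpace
open scoped ENNReal NNReal unitInterval

/-- `X n k` is a Brownian motion at the time `k / 2 ^ n` -/
structure IsDyadicBM (X : ℕ → ℕ → (ℕ → ℝ) → ℝ) : Prop where
  meas : ∀ n k, Measurable (X n k)
  gauss : IsGaussianProcess (fun p : ℕ × ℕ => X p.1 p.2) Pg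
  mean : ∀ n k, ∫ ω, X n k ω ∂Pg = 0
  cov_eq : ∀ n k m j, cov[X n k, X m j; Pg] = min ((k : ℝ) / 2 ^ n) ((j : ℝ) / 2 ^ m)

/-- piece CD-X2a.
Proof: `exists_gauss` in `Lp ℝ 2 (volume : Measure ℝ)` with
`v i = indicatorConstLp 2 measurableSet_Icc _ 1` for the interval `Icc 0 (k / 2 ^ n)`,
`(n, k) = Nat.unpair i` (`L2.inner_indicatorConstLp_indicatorConstLp`, `Icc_inter_Icc`); then
`X n k = Y (Nat.pair n k)`; `IsGaussianProcess.comp_right`. -/
theorem exists_dyadic : ∃ X, IsDyadicBM X := by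
  have hfin : ∀ a b : ℝ, (volume : Measure ℝ) (Icc a b) ≠ ⊤ := fun a b => by
    rw [Real.volume_Icc]
    exact ENNReal.ofReal_ne_top
  obtain ⟨Y, h1, h2, h3, h4⟩ := exists_gauss (H := Lp ℝ 2 (volume : Measure ℝ))
    (fun i : ℕ => indicatorConstLp 2 (measurableSet_Icc
      (a := (0 : ℝ)) (b := ((Nat.unpair i).2 : ℝ) / 2 ^ (Nat.unpair i).1))
      (hfin _ _) (1 : ℝ))
  refine ⟨fun n k => Y (Nat.pair n k), fun n k => h1 _, ?_, fun n k => h3 _, ?_⟩
  · exact h2.comp_right fun p : ℕ × ℕ => Nat.pair p.1 p.2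
  · intro n k m j
    rw [h4, L2.real_inner_indicatorConstLp_one_indicatorConstLp_one _ _ (hfin _ _) (hfin _ _),
      Icc_inter_Icc, sup_idem]
    simp only [Nat.unpair_pair]
    rw [Measure.real, Real.volume_Icc, sub_zero, ENNReal.toReal_ofReal]
    exact le_min (by positivity) (by positivity)

end Pool.Agent.Helper83.CD
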