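import Pool.Agent.Helper83.CD.X2
import Pool.Agent.Helper83.CD.Sup2

/-!
# CD frame F, piece CD-X2b: the dyadic Brownian motion gives a good array almost surely
-/

set_option autoImplicit false

namespace Pool.Agent.Helper83.CD

open MeasureTheory ProbabilityTheory Metric Set TopologicalSpace
open scoped ENNReal NNReal unitInterval

/-- good arrays: consistent, zero at time `0`, summable dyadic increments on every interval -/
def GoodArr (x : ℕ → ℕ → ℝ) : Prop :=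
  (∀ n k, x (n + 1) (2 * k) = x n k) ∧
    ∀ N : ℕ, ∑' n, (⨆ k ∈ Finset.range (N * 2 ^ n), edist (x n (k + 1)) (x n k)) < ⊤

private noncomputable def X2b_C : ℝ≥0∞ := ∫⁻ x : ℝ, ‖x‖ₑ ^ 4 ∂(gaussianReal 0 1)

private lemma X2b_C_ne : X2b_C ≠ ⊤ := by
  have h1 : MemLp (id : ℝ → ℝ) 4 (gaussianReal 0 1) := memLp_id_gaussianReal 4
  have h2 := h1.eLpNorm_lt_top
  rw [eLpNorm_lt_top_iff_lintegral_rpow_enorm_lt_top (by norm_num) (by norm_num)] at h2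
  unfold X2b_C
  refine ne_of_lt (lt_of_eq_of_lt ?_ h2)
  refine lintegral_congr fun x => ?_
  have h3 : ((4 : ℝ≥0∞)).toReal = ((4 : ℕ) : ℝ) := by norm_num
  rw [h3, ENNReal.rpow_natCast]
  rfl

private lemma X2b_moment {D : (ℕ → ℝ) → ℝ} (hD : Measurable D) {v : ℝ≥0}
    (h : Pg.map D = gaussianReal 0 v) :
    ∫⁻ ω, ‖D ω‖ₑ ^ 4 ∂Pg = (v : ℝ≥0∞) ^ 2 * X2b_C := by
  have h1 : ∫⁻ ω, ‖D ω‖ₑ ^ 4 ∂Pg = ∫⁻ x : ℝ, ‖x‖ₑ ^ 4 ∂(Pg.map D) :=
    (lintegral_map (f := fun x : ℝ => ‖x‖ₑ ^ 4) (by fun_prop) hD).symm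
  have h2 : gaussianReal 0 v = (gaussianReal 0 1).map (√(v : ℝ) * ·) := by
    rw [gaussianReal_map_const_mul, mul_zero, mul_one]
    congr 1
    apply NNReal.eq
    exact (Real.sq_sqrt v.2).symm
  rw [h1, h, h2, lintegral_map (by fun_prop) (by fun_prop)]
  unfold X2b_C
  rw [← lintegral_const_mul _ (by fun_prop)]
  refine lintegral_congr fun x => ?_
  rw [enorm_mul, mul_pow]
  congr 1
  have h3 : ‖√(v : ℝ)‖ₑ ^ 2 = (v : ℝ≥0∞) := by
    rw [← enorm_pow, Real.sq_sqrt v.coe_nonneg, Real.enorm_eq_ofReal v.coe_nonneg,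
      ENNReal.ofReal_coe_nnreal]
  calc ‖√(v : ℝ)‖ₑ ^ 4 = (‖√(v : ℝ)‖ₑ ^ 2) ^ 2 := by rw [← pow_mul]
    _ = _ := by rw [h3]

private lemma X2b_law {X : ℕ → ℕ → (ℕ → ℝ) → ℝ} (hX : IsDyadicBM X) (n k m j : ℕ) (v : ℝ≥0)
    (hv : (k : ℝ) / 2 ^ n - 2 * min ((k : ℝ) / 2 ^ n) ((j : ℝ) / 2 ^ m) + (j : ℝ) / 2 ^ m = v) :
    Pg.map (fun ω => X n k ω - X m j ω) = gaussianReal 0 v := by
  have hg := hX.gauss
  have h1 : HasGaussianLaw (fun ω => X n k ω - X m j ω) Pg :=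
    hg.hasGaussianLaw_fun_sub (s := (n, k)) (t := (m, j))
  have hn : HasGaussianLaw (X n k) Pg := hg.hasGaussianLaw_eval (n, k)
  have hm : HasGaussianLaw (X m j) Pg := hg.hasGaussianLaw_eval (m, j)
  have hvar : ∀ a b : ℕ, Var[X a b; Pg] = (b : ℝ) / 2 ^ a := by
    intro a b
    rw [← covariance_self (hX.meas a b).aemeasurable, hX.cov_eq, min_self]
  rw [h1.map_eq_gaussianReal, variance_fun_sub hn.memLp_two hm.memLp_two,
    integral_sub hn.integrable hm.integrable, hX.mean, hX.mean, hX.cov_eq, hvar, hvar, hv,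
    sub_zero, Real.toNNReal_coe]

private lemma X2b_cons {X : ℕ → ℕ → (ℕ → ℝ) → ℝ} (hX : IsDyadicBM X) (n k : ℕ) :
    ∀ᵐ ω ∂Pg, X (n + 1) (2 * k) ω = X n k ω := by
  have h1 := X2b_law hX (n + 1) (2 * k) n k 0 (by
    have h2 : ((2 * k : ℕ) : ℝ) / 2 ^ (n + 1) = (k : ℝ) / 2 ^ n := by
      rw [pow_succ]
      push_cast
      field_simp
    rw [h2, min_self]
    push_cast
    ring)
  have h2 := X2b_moment ((hX.meas (n + 1) (2 * k)).sub (hX.meas n k)) h1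
  rw [ENNReal.coe_zero, zero_pow (by norm_num), zero_mul] at h2
  have hm := (hX.meas (n + 1) (2 * k)).sub (hX.meas n k)
  have h3 := (lintegral_eq_zero_iff (by fun_prop)).1 h2
  filter_upwards [h3] with ω hω
  have h4 : ‖X (n + 1) (2 * k) ω - X n k ω‖ₑ ^ 4 = 0 := hω
  have h5 := pow_eq_zero_iff (n := 4) (by norm_num) |>.1 h4
  rw [enorm_eq_zero] at h5
  exact sub_eq_zero.1 h5

private lemma X2b_inc {X : ℕ → ℕ → (ℕ → ℝ) → ℝ} (hX : IsDyadicBM X) (n k : ℕ) :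
    ∫⁻ ω, edist (X n (k + 1) ω) (X n k ω) ^ 4 ∂Pg = ((1 / 2 : ℝ≥0∞) ^ n) ^ 2 * X2b_C := by
  have h1 := X2b_law hX n (k + 1) n k ((1 / 2) ^ n) (by
    have h3 : (k : ℝ) / 2 ^ n ≤ ((k + 1 : ℕ) : ℝ) / 2 ^ n := by
      gcongr
      push_cast
      linarith
    rw [min_eq_right h3]
    push_cast
    rw [one_div, inv_pow]
    field_simp
    ring)
  have h2 := X2b_moment ((hX.meas n (k + 1)).sub (hX.meas n k)) h1
  have h4 : (((1 / 2 : ℝ≥0) ^ n : ℝ≥0) : ℝ≥0∞) = (1 / 2 : ℝ≥0∞) ^ n := by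
    rw [ENNReal.coe_pow, ENNReal.coe_div (by norm_num)]
    norm_num
  rw [h4] at h2
  rw [← h2]
  refine lintegral_congr fun ω => ?_
  rw [edist_eq_enorm_sub]
  rfl

private lemma X2b_sup {s : Finset ℕ} (f : ℕ → ℝ≥0∞) :
    (⨆ k ∈ s, f k) ^ 4 ≤ ∑ k ∈ s, f k ^ 4 := by
  classical
  induction s using Finset.induction_on with
  | empty => simp
  | insert a s ha ih =>
    rw [Finset.iSup_insert, Finset.sum_insert ha]
    rcases le_total (f a) (⨆ k ∈ s, f k) with h | h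
    · rw [max_eq_right h]
      exact ih.trans le_add_self
    · rw [max_eq_left h]
      exact le_self_add

private lemma X2b_geom : ∑' n : ℕ, ((10 / 9 : ℝ≥0∞) ^ 4 * (1 / 2)) ^ n ≠ ⊤ := by
  rw [ENNReal.tsum_geometric]
  have h1 : (10 / 9 : ℝ≥0∞) ^ 4 * (1 / 2) < 1 := by
    have h2 : (10 / 9 : ℝ≥0∞) ^ 4 * (1 / 2) = ((((10 / 9 : ℝ≥0)) ^ 4 * (1 / 2) : ℝ≥0) : ℝ≥0∞) := by
      rw [ENNReal.coe_mul, ENNReal.coe_pow, ENNReal.coe_div (by norm_num),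
        ENNReal.coe_div (by norm_num)]
      norm_num
    rw [h2, ← ENNReal.coe_one, ENNReal.coe_lt_coe, ← NNReal.coe_lt_coe]
    push_cast
    norm_num
  rw [Ne, ENNReal.inv_eq_top]
  exact (tsub_pos_of_lt h1).ne'

/-- piece CD-X2b.
Proof: consistency: `X (n+1) (2k) - X n k` has mean `0` and variance
`k/2^n - 2 k/2^n + k/2^n = 0`, so it is `0` almost surely
(`variance_eq_zero_iff` or `HasGaussianLaw.map_eq_gaussianReal`, `gaussianReal_zero_var`); countable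
intersection.  Summability: `X n (k+1) - X n k` has law `gaussianReal 0 (1 / 2 ^ n)`, so (as in
F1-3, scaling of `gaussianReal 0 1`) `∫⁻ edist ^ 4 ≤ C * (1 / 2 ^ n) ^ 2`; with
`a n = ⨆ k ∈ range (N * 2 ^ n), edist (x n (k+1)) (x n k)`, `∫⁻ a n ^ 4 ≤ N 2 ^ n C 4 ^ -n`, so
`∫⁻ ∑' (10/9) ^ (4 n) * a n ^ 4 < ⊤` and the sum is finite almost surely
(`ae_lt_top`); `tsum_pow_four_le`. -/
theorem ae_goodArr {X : ℕ → ℕ → (ℕ → ℝ) → ℝ} (hX : IsDyadicBM X) :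
    ∀ᵐ ω ∂Pg, GoodArr fun n k => X n k ω := by
  have h1 : ∀ᵐ ω ∂Pg, ∀ n k, X (n + 1) (2 * k) ω = X n k ω :=
    ae_all_iff.2 fun n => ae_all_iff.2 fun k => X2b_cons hX n k
  have h2 : ∀ᵐ ω ∂Pg, ∀ N : ℕ,
      ∑' n, (⨆ k ∈ Finset.range (N * 2 ^ n), edist (X n (k + 1) ω) (X n k ω)) < ⊤ := by
    refine ae_all_iff.2 fun N => ?_
    let a : ℕ → (ℕ → ℝ) → ℝ≥0∞ := fun n ω =>
      ⨆ k ∈ Finset.range (N * 2 ^ n), edist (X n (k + 1) ω) (X n k ω)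
    have ha : ∀ n, Measurable (a n) := by
      intro n
      refine Measurable.iSup fun k => Measurable.iSup fun _ => ?_
      exact (hX.meas n (k + 1)).edist (hX.meas n k)
    have hint : ∀ n, ∫⁻ ω, a n ω ^ 4 ∂Pg ≤ (N : ℝ≥0∞) * X2b_C * (1 / 2) ^ n := by
      intro n
      calc ∫⁻ ω, a n ω ^ 4 ∂Pg
          ≤ ∫⁻ ω, ∑ k ∈ Finset.range (N * 2 ^ n), edist (X n (k + 1) ω) (X n k ω) ^ 4 ∂Pg :=
            lintegral_mono fun ω => X2b_sup _
        _ = ∑ k ∈ Finset.range (N * 2 ^ n), ∫⁻ ω, edist (X n (k + 1) ω) (X n k ω) ^ 4 ∂Pg := by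
            refine lintegral_finsetSum _ fun k _ => ?_
            exact ((hX.meas n (k + 1)).edist (hX.meas n k)).pow_const 4
        _ = (N : ℝ≥0∞) * 2 ^ n * (((1 / 2 : ℝ≥0∞) ^ n) ^ 2 * X2b_C) := by
            rw [Finset.sum_congr rfl fun k _ => X2b_inc hX n k, Finset.sum_const,
              Finset.card_range, nsmul_eq_mul]
            push_cast
            rfl
        _ = (N : ℝ≥0∞) * X2b_C * ((2 ^ n * (1 / 2 : ℝ≥0∞) ^ n) * (1 / 2) ^ n) := by ring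
        _ = (N : ℝ≥0∞) * X2b_C * (1 / 2) ^ n := by
            have h3 : (2 : ℝ≥0∞) ^ n * (1 / 2 : ℝ≥0∞) ^ n = 1 := by
              rw [← mul_pow, one_div, ENNReal.mul_inv_cancel (by norm_num) (by norm_num), one_pow]
            rw [h3, one_mul]
    have htot : ∫⁻ ω, ∑' n, ((10 / 9 : ℝ≥0∞) ^ (4 * n)) * a n ω ^ 4 ∂Pg ≠ ⊤ := by
      rw [lintegral_tsum fun n => (((ha n).pow_const 4).const_mul _).aemeasurable]
      have h3 : ∑' n, ∫⁻ ω, ((10 / 9 : ℝ≥0∞) ^ (4 * n)) * a n ω ^ 4 ∂Pg ≤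
          ∑' n : ℕ, (N : ℝ≥0∞) * X2b_C * ((10 / 9 : ℝ≥0∞) ^ 4 * (1 / 2)) ^ n := by
        refine ENNReal.tsum_le_tsum fun n => ?_
        rw [lintegral_const_mul _ ((ha n).pow_const 4)]
        calc (10 / 9 : ℝ≥0∞) ^ (4 * n) * ∫⁻ ω, a n ω ^ 4 ∂Pg
            ≤ (10 / 9 : ℝ≥0∞) ^ (4 * n) * ((N : ℝ≥0∞) * X2b_C * (1 / 2) ^ n) :=
              mul_le_mul_right (hint n) _
          _ = _ := by
              rw [mul_pow, ← pow_mul]
              ring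
      refine ne_top_of_le_ne_top ?_ h3
      rw [ENNReal.tsum_mul_left]
      exact ENNReal.mul_ne_top (ENNReal.mul_ne_top (ENNReal.natCast_ne_top N) X2b_C_ne) X2b_geom
    have hm : Measurable fun ω => ∑' n, ((10 / 9 : ℝ≥0∞) ^ (4 * n)) * a n ω ^ 4 :=
      Measurable.tsum fun n => ((ha n).pow_const 4).const_mul _
    filter_upwards [ae_lt_top hm htot] with ω hω
    have h3 := tsum_pow_four_le fun n => a n ω
    have h4 : (∑' n, a n ω) ^ 4 < ⊤ :=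
      lt_of_le_of_lt h3 (ENNReal.mul_lt_top (by norm_num) hω)
    by_contra h5
    have h6 : ∑' n, a n ω = ⊤ := not_lt_top_iff.1 h5
    rw [h6] at h4
    simp at h4
  filter_upwards [h1, h2] with ω hω1 hω2
  exact ⟨hω1, hω2⟩

end Pool.Agent.Helper83.CD
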