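import Pool.Agent.Helper83.CD.X2b

/-!
# CD frame F, piece CD-X3: continuous limit of a good array (deterministic)
-/

set_option autoImplicit false

namespace Pool.Agent.Helper83.CD

open MeasureTheory ProbabilityTheory Metric Set TopologicalSpace Filter Topology
open scoped ENNReal NNReal unitInterval

/-- maximal increment at level `n` on `[0, N]` -/
private noncomputable def X3M (x : ℕ → ℕ → ℝ) (N n : ℕ) : ℝ≥0∞ :=
  ⨆ k ∈ Finset.range (N * 2 ^ n), edist (x n (k + 1)) (x n k)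

private lemma X3_le (x : ℕ → ℕ → ℝ) {N n k : ℕ} (h : k < N * 2 ^ n) :
    edist (x n (k + 1)) (x n k) ≤ X3M x N n := by
  unfold X3M
  exact le_iSup₂_of_le k (Finset.mem_range.mpr h) le_rfl

private lemma X3_fl {N n : ℕ} {t : ℝ≥0} (h : t < N) : ⌊2 ^ n * t⌋₊ < N * 2 ^ n := by
  have h2 : (0 : ℝ≥0) < 2 ^ n := by positivity
  rw [Nat.floor_lt (by positivity)]
  push_cast
  rw [mul_comm]
  exact mul_lt_mul_of_pos_right h h2

private lemma X3_dbl (n : ℕ) (t : ℝ≥0) :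
    ⌊2 ^ (n + 1) * t⌋₊ = 2 * ⌊2 ^ n * t⌋₊ ∨ ⌊2 ^ (n + 1) * t⌋₊ = 2 * ⌊2 ^ n * t⌋₊ + 1 := by
  have e : (2 : ℝ≥0) ^ (n + 1) * t = 2 * (2 ^ n * t) := by ring
  rw [e]
  obtain ⟨y, hy⟩ : ∃ y : ℝ≥0, y = 2 ^ n * t := ⟨_, rfl⟩
  rw [← hy]
  have h1 : (⌊y⌋₊ : ℝ≥0) ≤ y := Nat.floor_le (by positivity)
  have h2 : y < ⌊y⌋₊ + 1 := Nat.lt_floor_add_one y
  have h3 : 2 * ⌊y⌋₊ ≤ ⌊2 * y⌋₊ := by
    refine Nat.le_floor ?_
    push_cast
    gcongr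
  have h4 : ⌊2 * y⌋₊ < 2 * ⌊y⌋₊ + 2 := by
    rw [Nat.floor_lt (by positivity)]
    push_cast
    calc 2 * y < 2 * ((⌊y⌋₊ : ℝ≥0) + 1) := by gcongr
      _ = 2 * ⌊y⌋₊ + 2 := by ring
  omega

private lemma X3_step {x : ℕ → ℕ → ℝ} (hx : GoodArr x) {N : ℕ} {t : ℝ≥0} (h : t < N) (n : ℕ) :
    edist (x n ⌊2 ^ n * t⌋₊) (x (n + 1) ⌊2 ^ (n + 1) * t⌋₊) ≤ X3M x N (n + 1) := by
  rcases X3_dbl n t with e | e
  · rw [e, hx.1, edist_self]
    exact zero_le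
  · rw [e, ← hx.1 n, edist_comm]
    refine X3_le x ?_
    have h1 := X3_fl (n := n) h
    have h2 : N * 2 ^ (n + 1) = 2 * (N * 2 ^ n) := by ring
    rw [h2]
    omega

private lemma X3_near (x : ℕ → ℕ → ℝ) {N n : ℕ} {s t : ℝ≥0} (h : s < N) (hst : s ≤ t)
    (hd : t ≤ s + 1 / 2 ^ n) :
    edist (x n ⌊2 ^ n * t⌋₊) (x n ⌊2 ^ n * s⌋₊) ≤ X3M x N n := by
  have h1 : ⌊2 ^ n * s⌋₊ ≤ ⌊2 ^ n * t⌋₊ := Nat.floor_mono (by gcongr)
  have h2 : ⌊2 ^ n * t⌋₊ ≤ ⌊2 ^ n * s⌋₊ + 1 := by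
    rw [← Nat.floor_add_one (by positivity)]
    refine Nat.floor_mono ?_
    have h3 : (2 : ℝ≥0) ^ n ≠ 0 := by positivity
    calc (2 : ℝ≥0) ^ n * t ≤ 2 ^ n * (s + 1 / 2 ^ n) := by gcongr
      _ = 2 ^ n * s + 1 := by
        rw [mul_add, mul_one_div, div_self h3]
  rcases (show ⌊2 ^ n * t⌋₊ = ⌊2 ^ n * s⌋₊ ∨ ⌊2 ^ n * t⌋₊ = ⌊2 ^ n * s⌋₊ + 1 by omega) with e | e
  · rw [e, edist_self]
    exact zero_le
  · rw [e]
    exact X3_le x (X3_fl h)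

private lemma X3_sum {x : ℕ → ℕ → ℝ} (hx : GoodArr x) (N : ℕ) : ∑' n, X3M x N n ≠ ⊤ :=
  (hx.2 N).ne

private lemma X3_cauchy {x : ℕ → ℕ → ℝ} (hx : GoodArr x) (t : ℝ≥0) :
    ∃ a : ℝ, Tendsto (fun n => x n ⌊2 ^ n * t⌋₊) atTop (𝓝 a) := by
  obtain ⟨N, hN⟩ := exists_nat_gt t
  refine cauchySeq_tendsto_of_complete ?_
  refine cauchySeq_of_edist_le_of_tsum_ne_top (fun n => X3M x N (n + 1)) (fun n => X3_step hx hN n) ?_
  refine ne_top_of_le_ne_top (X3_sum hx N) ?_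
  exact ENNReal.tsum_comp_le_tsum_of_injective (add_left_injective 1) _

private lemma X3_tail {x : ℕ → ℕ → ℝ} (hx : GoodArr x) {N : ℕ} {t : ℝ≥0} (h : t < N) {a : ℝ}
    (ha : Tendsto (fun n => x n ⌊2 ^ n * t⌋₊) atTop (𝓝 a)) (n : ℕ) :
    edist (x n ⌊2 ^ n * t⌋₊) a ≤ ∑' m, X3M x N (m + n) := by
  refine (edist_le_tsum_of_edist_le_of_tendsto (fun n => X3M x N (n + 1)) (fun n => X3_step hx h n) ha n).trans ?_
  have := ENNReal.tsum_comp_le_tsum_of_injective (add_left_injective 1) (fun m => X3M x N (m + n))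
  refine le_trans (le_of_eq ?_) this
  refine tsum_congr fun m => ?_
  congr 1
  omega

private lemma X3_two {x : ℕ → ℕ → ℝ} (hx : GoodArr x) {N : ℕ} {s t : ℝ≥0} (hs : s < N) (ht : t < N) {a b : ℝ}
    (ha : Tendsto (fun n => x n ⌊2 ^ n * s⌋₊) atTop (𝓝 a))
    (hb : Tendsto (fun n => x n ⌊2 ^ n * t⌋₊) atTop (𝓝 b)) {n : ℕ} (hst : dist s t ≤ 1 / 2 ^ n) :
    edist a b ≤ 3 * ∑' m, X3M x N (m + n) := by
  have hM : X3M x N n ≤ ∑' m, X3M x N (m + n) := by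
    have := ENNReal.le_tsum (f := fun m => X3M x N (m + n)) 0
    simpa using this
  have h1 := X3_tail hx hs ha n
  have h2 := X3_tail hx ht hb n
  have h3 : edist (x n ⌊2 ^ n * s⌋₊) (x n ⌊2 ^ n * t⌋₊) ≤ X3M x N n := by
    rw [NNReal.dist_eq, abs_le] at hst
    rcases le_total s t with h | h
    · rw [edist_comm]
      refine X3_near x hs h ?_
      rw [← NNReal.coe_le_coe]
      push_cast
      linarith [hst.1]
    · refine X3_near x ht h ?_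
      rw [← NNReal.coe_le_coe]
      push_cast
      linarith [hst.2]
  calc edist a b ≤ edist a (x n ⌊2 ^ n * s⌋₊) + edist (x n ⌊2 ^ n * s⌋₊) (x n ⌊2 ^ n * t⌋₊)
      + edist (x n ⌊2 ^ n * t⌋₊) b := edist_triangle4 _ _ _ _
    _ ≤ (∑' m, X3M x N (m + n)) + (∑' m, X3M x N (m + n)) + (∑' m, X3M x N (m + n)) := by
      refine add_le_add (add_le_add ?_ (h3.trans hM)) h2
      rw [edist_comm]
      exact h1
    _ = 3 * ∑' m, X3M x N (m + n) := by ring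

/-- piece CD-X3.
Proof: fix `N` and let `M n = ⨆ k ∈ range (N * 2 ^ n), edist (x n (k+1)) (x n k)`, summable.  For
`t < N`: `⌊2 ^ (n+1) t⌋₊` is `2 k` or `2 k + 1` with `k = ⌊2 ^ n t⌋₊`, so
`edist (x (n+1) ⌊2^(n+1) t⌋₊) (x n ⌊2^n t⌋₊) ≤ M (n+1)`: the sequence is Cauchy
(`cauchySeq_of_edist_le_of_tsum_ne_top`), limit `g t`, and
`edist (x n ⌊2^n t⌋₊) (g t) ≤ ∑' m, M (n + 1 + m)` (`edist_le_tsum_of_edist_le_of_tendsto`).
Continuity at `t < N`: for `|s - t| < 1 / 2 ^ n`, `s < N`, `⌊2^n s⌋₊` and `⌊2^n t⌋₊` differ by at most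
`1`, so `edist (g s) (g t) ≤ M n + 2 * ∑' m, M (n + 1 + m)`, which tends to `0`
(`ENNReal.tendsto_tsum_compl_atTop_zero`/`tendsto_sum_nat_add`). -/
theorem exists_lim {x : ℕ → ℕ → ℝ} (hx : GoodArr x) : ∃ g : ℝ≥0 → ℝ, Continuous g ∧
    ∀ t, Tendsto (fun n => x n ⌊2 ^ n * t⌋₊) atTop (𝓝 (g t)) := by
  choose g hg using X3_cauchy hx
  refine ⟨g, ?_, hg⟩
  rw [continuous_iff_continuousAt]
  intro t
  obtain ⟨N, hN⟩ := exists_nat_gt t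
  have hlim : Tendsto (fun n => 3 * ∑' m, X3M x N (m + n)) atTop (𝓝 0) := by
    have h1 := ENNReal.tendsto_sum_nat_add (X3M x N) (X3_sum hx N)
    have h2 := ENNReal.Tendsto.const_mul (a := 3) h1 (Or.inr (by norm_num))
    simpa using h2
  rw [ContinuousAt, EMetric.tendsto_nhds]
  intro ε hε
  obtain ⟨n, hn⟩ := (hlim.eventually (gt_mem_nhds hε)).exists
  have hU : ∀ᶠ s : ℝ≥0 in 𝓝 t, s < N := gt_mem_nhds hN
  have hV : ∀ᶠ s : ℝ≥0 in 𝓝 t, dist s t < 1 / 2 ^ n := Metric.ball_mem_nhds t (by positivity)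
  filter_upwards [hU, hV] with s h1 h2
  exact (X3_two hx h1 hN (hg s) (hg t) h2.le).trans_lt hn

end Pool.Agent.Helper83.CD
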