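import Pool.Agent.Helper83.CD.X2

/-!
# CD frame F, piece CD-X4: the limit process has the law of Brownian motion
-/

set_option autoImplicit false

namespace Pool.Agent.Helper83.CD

open MeasureTheory ProbabilityTheory Metric Set TopologicalSpace Filter Topology
open scoped ENNReal NNReal unitInterval

private lemma X4_floor (t : ℝ≥0) : ⌊(t : ℝ)⌋₊ = ⌊t⌋₊ := by
  have h1 := (Nat.floor_eq_iff (a := t) (n := ⌊t⌋₊) zero_le).1 rfl
  refine (Nat.floor_eq_iff (NNReal.coe_nonneg t)).2 ⟨?_, ?_⟩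
  · exact_mod_cast h1.1
  · exact_mod_cast h1.2

private lemma X4_gauss {X : ℕ → ℕ → (ℕ → ℝ) → ℝ} (hX : IsDyadicBM X)
    (J : Finset ℝ≥0) (x : J → ℝ) (n : ℕ) :
    IsGaussianProcess (fun (i : J) ω => x i • X n ⌊2 ^ n * (i : ℝ≥0)⌋₊ ω) Pg :=
  (hX.gauss.comp_right (fun i : J => (n, ⌊2 ^ n * (i : ℝ≥0)⌋₊))).smul x

private lemma X4_char {X : ℕ → ℕ → (ℕ → ℝ) → ℝ} (hX : IsDyadicBM X)
    (J : Finset ℝ≥0) (x : J → ℝ) (n : ℕ) :
    ∫ ω, Complex.exp ((∑ i : J, x i * X n ⌊2 ^ n * (i : ℝ≥0)⌋₊ ω : ℝ) * Complex.I) ∂Pg =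
      Complex.exp (-(∑ i : J, ∑ j : J, x i * x j * min ((⌊2 ^ n * (i : ℝ≥0)⌋₊ : ℝ) / 2 ^ n)
        ((⌊2 ^ n * (j : ℝ≥0)⌋₊ : ℝ) / 2 ^ n) : ℝ) / 2) := by
  have hp := X4_gauss hX J x n
  have hg : HasGaussianLaw (fun ω => ∑ i : J, x i * X n ⌊2 ^ n * (i : ℝ≥0)⌋₊ ω) Pg :=
    hp.hasGaussianLaw_fun_sum
  have hm2 : ∀ i : J, MemLp (fun ω => x i * X n ⌊2 ^ n * (i : ℝ≥0)⌋₊ ω) 2 Pg :=
    fun i => (hp.hasGaussianLaw_eval i).memLp_two
  have hint : ∀ i : J, Integrable (fun ω => x i * X n ⌊2 ^ n * (i : ℝ≥0)⌋₊ ω) Pg :=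
    fun i => (hp.hasGaussianLaw_eval i).integrable
  have hmean : ∫ ω, (∑ i : J, x i * X n ⌊2 ^ n * (i : ℝ≥0)⌋₊ ω) ∂Pg = 0 := by
    rw [integral_finsetSum _ (fun i _ => hint i)]
    refine Finset.sum_eq_zero fun i _ => ?_
    rw [integral_const_mul, hX.mean, mul_zero]
  have hvar : Var[fun ω => ∑ i : J, x i * X n ⌊2 ^ n * (i : ℝ≥0)⌋₊ ω; Pg] =
      ∑ i : J, ∑ j : J, x i * x j * min ((⌊2 ^ n * (i : ℝ≥0)⌋₊ : ℝ) / 2 ^ n)
        ((⌊2 ^ n * (j : ℝ≥0)⌋₊ : ℝ) / 2 ^ n) := by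
    rw [← covariance_self hg.aemeasurable, covariance_fun_sum_fun_sum hm2 hm2]
    refine Finset.sum_congr rfl fun i _ => Finset.sum_congr rfl fun j _ => ?_
    rw [covariance_const_mul_left, covariance_const_mul_right, hX.cov_eq]
    ring
  have h1 := hg.map_eq_gaussianReal
  have h2 : charFun (Pg.map fun ω => ∑ i : J, x i * X n ⌊2 ^ n * (i : ℝ≥0)⌋₊ ω) 1 =
      ∫ ω, Complex.exp ((∑ i : J, x i * X n ⌊2 ^ n * (i : ℝ≥0)⌋₊ ω : ℝ) * Complex.I) ∂Pg := by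
    rw [charFun_apply_real, integral_map hg.aemeasurable (by fun_prop)]
    simp
  rw [← h2, h1, charFun_gaussianReal, hmean, hvar]
  congr 1
  rw [Real.coe_toNNReal]
  · push_cast
    ring
  · rw [← hvar]
    exact variance_nonneg _ _

/-- piece CD-X4a (characteristic function of a linear combination).
Proof: `∑ i, x i * X n ⌊2^n t i⌋₊` is Gaussian with mean `0` and variance
`v n = ∑ i, ∑ j, x i x j min (⌊2^n t i⌋₊ / 2^n) (⌊2^n t j⌋₊ / 2^n)` (`charFun_gaussianReal`,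
`HasGaussianLaw.map_eq_gaussianReal`, `covariance_sum_sum`), so its characteristic function at
`1` is `exp (- v n / 2)`; `v n → v = ∑ i, ∑ j, x i x j min (t i) (t j)`
(`tendsto_nat_floor_mul_div_atTop`); the left side converges by dominated convergence. -/
lemma char_limit {X : ℕ → ℕ → (ℕ → ℝ) → ℝ} (hX : IsDyadicBM X) {B : ℝ≥0 → (ℕ → ℝ) → ℝ}
    (hB : ∀ t, ∀ᵐ ω ∂Pg, Tendsto (fun n => X n ⌊2 ^ n * t⌋₊ ω) atTop (𝓝 (B t ω)))
    (J : Finset ℝ≥0) (x : J → ℝ) :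
    ∫ ω, Complex.exp ((∑ i : J, x i * B i ω : ℝ) * Complex.I) ∂Pg =
      Complex.exp (-(∑ i : J, ∑ j : J, x i * x j * min (i : ℝ) (j : ℝ) : ℝ) / 2) := by
  have hl : Tendsto (fun n : ℕ => ∫ ω, Complex.exp ((∑ i : J, x i *
      X n ⌊2 ^ n * (i : ℝ≥0)⌋₊ ω : ℝ) * Complex.I) ∂Pg) atTop
      (𝓝 (∫ ω, Complex.exp ((∑ i : J, x i * B i ω : ℝ) * Complex.I) ∂Pg)) := by
    refine tendsto_integral_of_dominated_convergence (fun _ => (1 : ℝ)) ?_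
      (integrable_const _) ?_ ?_
    · intro n
      have h1 : Measurable fun ω => ∑ i : J, x i * X n ⌊2 ^ n * (i : ℝ≥0)⌋₊ ω :=
        Finset.measurable_fun_sum _ fun i _ => (hX.meas _ _).const_mul _
      exact (by fun_prop : Measurable fun ω => Complex.exp ((∑ i : J, x i *
        X n ⌊2 ^ n * (i : ℝ≥0)⌋₊ ω : ℝ) * Complex.I)).aestronglyMeasurable
    · intro n
      refine Filter.Eventually.of_forall fun ω => ?_
      rw [Complex.norm_exp_ofReal_mul_I]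
    · have h2 : ∀ᵐ ω ∂Pg, ∀ i : J,
          Tendsto (fun n => X n ⌊2 ^ n * (i : ℝ≥0)⌋₊ ω) atTop (𝓝 (B i ω)) :=
        ae_all_iff.2 fun i => hB i
      filter_upwards [h2] with ω hω
      have h3 : Tendsto (fun n => ∑ i : J, x i * X n ⌊2 ^ n * (i : ℝ≥0)⌋₊ ω) atTop
          (𝓝 (∑ i : J, x i * B i ω)) :=
        tendsto_finsetSum _ fun i _ => (hω i).const_mul _
      have h4 : Continuous fun y : ℝ => Complex.exp ((y : ℂ) * Complex.I) := by fun_prop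
      exact (h4.tendsto _).comp h3
  have hfl : ∀ t : ℝ≥0, Tendsto (fun n : ℕ => ((⌊2 ^ n * t⌋₊ : ℕ) : ℝ) / 2 ^ n) atTop
      (𝓝 (t : ℝ)) := by
    intro t
    have h1 := (tendsto_nat_floor_mul_div_atTop (R := ℝ) t.2).comp
      (tendsto_pow_atTop_atTop_of_one_lt (one_lt_two : (1 : ℝ) < 2))
    refine h1.congr fun n => ?_
    simp only [Function.comp]
    congr 2
    rw [mul_comm]
    exact X4_floor (2 ^ n * t)
  have hr : Tendsto (fun n : ℕ => Complex.exp (-(∑ i : J, ∑ j : J, x i * x j *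
      min ((⌊2 ^ n * (i : ℝ≥0)⌋₊ : ℝ) / 2 ^ n) ((⌊2 ^ n * (j : ℝ≥0)⌋₊ : ℝ) / 2 ^ n) : ℝ) / 2))
      atTop (𝓝 (Complex.exp (-(∑ i : J, ∑ j : J, x i * x j * min (i : ℝ) (j : ℝ) : ℝ) / 2))) := by
    have h3 : Tendsto (fun n : ℕ => ∑ i : J, ∑ j : J, x i * x j *
        min ((⌊2 ^ n * (i : ℝ≥0)⌋₊ : ℝ) / 2 ^ n) ((⌊2 ^ n * (j : ℝ≥0)⌋₊ : ℝ) / 2 ^ n)) atTop
        (𝓝 (∑ i : J, ∑ j : J, x i * x j * min (i : ℝ) (j : ℝ))) :=
      tendsto_finsetSum _ fun i _ => tendsto_finsetSum _ fun j _ =>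
        ((hfl i).min (hfl j)).const_mul _
    have h4 : Continuous fun y : ℝ => Complex.exp (-(y : ℂ) / 2) := by fun_prop
    exact (h4.tendsto _).comp h3
  refine tendsto_nhds_unique hl (hr.congr fun n => ?_)
  exact (X4_char hX J x n).symm

end Pool.Agent.Helper83.CD
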