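import Pool.Agent.Helper83.CD.X4

/-!
# CD frame F, piece CD-X4b: the limit process is a Brownian motion
-/

set_option autoImplicit false

namespace Pool.Agent.Helper83.CD

open MeasureTheory ProbabilityTheory Metric Set TopologicalSpace Filter Topology
open scoped ENNReal NNReal unitInterval

/-- piece CD-X4b.
Proof: `hasLaw J`: both laws on `J → ℝ` are images by `ofLp` of laws on `EuclideanSpace ℝ J`
(`BrownianReal.projectiveFamily` is defined in this way); there `Measure.ext_of_charFun`,
`charFun_multivariateGaussian` (`BrownianReal.posSemidef_covMatrix`) and CD-X4a. -/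
theorem law_limit {X : ℕ → ℕ → (ℕ → ℝ) → ℝ} (hX : IsDyadicBM X) {B : ℝ≥0 → (ℕ → ℝ) → ℝ}
    (hm : ∀ t, Measurable (B t))
    (hB : ∀ t, ∀ᵐ ω ∂Pg, Tendsto (fun n => X n ⌊2 ^ n * t⌋₊ ω) atTop (𝓝 (B t ω))) :
    IsPreBrownianReal B Pg where
  hasLaw J := by
    have hmJ : Measurable (fun ω => J.restrict fun x => B x ω) :=
      measurable_pi_lambda _ fun i => hm i
    refine ⟨hmJ.aemeasurable, ?_⟩
    apply (MeasurableEquiv.toLp 2 (_ → ℝ)).map_measurableEquiv_injective
    rw [MeasurableEquiv.coe_toLp, (BrownianReal.measurePreserving_toLp_projectiveFamily J).map_eq]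
    have hprob : IsProbabilityMeasure (Pg : Measure (ℕ → ℝ)) := inferInstance
    have hmL : Measurable ((WithLp.toLp 2 : (J → ℝ) → EuclideanSpace ℝ J) ∘
        fun ω => J.restrict fun x => B x ω) := by
      exact (MeasurableEquiv.toLp 2 (J → ℝ)).measurable.comp hmJ
    rw [Measure.map_map (by fun_prop) hmJ]
    have : IsProbabilityMeasure (Measure.map ((WithLp.toLp 2 : (J → ℝ) → EuclideanSpace ℝ J) ∘
        fun ω => J.restrict fun x => B x ω) Pg) :=
      Measure.isProbabilityMeasure_map hmL.aemeasurable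
    apply Measure.ext_of_charFun (E := EuclideanSpace ℝ J)
    ext x
    rw [charFun_multivariateGaussian (BrownianReal.posSemidef_covMatrix J), charFun_apply,
      integral_map hmL.aemeasurable (by fun_prop)]
    have h := char_limit hX hB J x
    have h1 : (x : J → ℝ) ⬝ᵥ (BrownianReal.covMatrix J).mulVec x =
        ∑ i : J, ∑ j : J, x i * x j * min (i : ℝ) (j : ℝ) := by
      simp only [dotProduct, Matrix.mulVec, BrownianReal.covMatrix_apply, Finset.mul_sum]
      refine Finset.sum_congr rfl fun i _ => Finset.sum_congr rfl fun j _ => ?_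
      rw [NNReal.coe_min]
      ring
    rw [h1]
    simp only [inner_zero_right]
    rw [show (((0 : ℝ) : ℂ) * Complex.I - ((∑ i : J, ∑ j : J, x i * x j * min (i : ℝ) (j : ℝ) : ℝ) : ℂ) / 2) =
      -((∑ i : J, ∑ j : J, x i * x j * min (i : ℝ) (j : ℝ) : ℝ) : ℂ) / 2 from by
        push_cast; ring]
    rw [← Complex.ofReal_neg] at *
    rw [← h]
    refine integral_congr_ae (ae_of_all _ fun ω => ?_)
    simp only [Function.comp]
    congr 3

end Pool.Agent.Helper83.CD
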