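import Pool.Agent.Helper83.CD.X3
import Pool.Agent.Helper83.CD.X4b

/-!
# CD frame F, piece CD-X5: existence of planar Brownian motion
-/

set_option autoImplicit false

namespace Pool.Agent.Helper83.CD

open MeasureTheory ProbabilityTheory Metric Set TopologicalSpace Filter Topology
open scoped ENNReal NNReal unitInterval
open Pool.Agent.Helper16.CD

/-- piece CD-X5a.
Proof: `X` from `exists_dyadic`, `G` a measurable subset of full measure of the set of `ω` with
`GoodArr (X · · ω)` (`ae_goodArr`, `exists_measurable_superset` of the complement); `B t ω = g t`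
with the `g` of `exists_lim` for `ω ∈ G`, and `B t ω = 0` otherwise.  `B t` is the pointwise limit
of the measurable functions `G.indicator (X n ⌊2 ^ n t⌋₊)`
(`measurable_of_tendsto_metrizable`); `law_limit`. -/
theorem exists_real : ∃ B : ℝ≥0 → (ℕ → ℝ) → ℝ, IsPreBrownianReal B Pg ∧
    (∀ t, Measurable (B t)) ∧ ∀ ω, Continuous fun t => B t ω := by
  obtain ⟨X, hX⟩ := exists_dyadic
  obtain ⟨G, hG, hGm, hG0⟩ := exists_measurable_superset_of_null (ae_iff.1 (ae_goodArr hX))
  have h : ∀ ω : ℕ → ℝ, ∃ g : ℝ≥0 → ℝ, Continuous g ∧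
      ∀ t, Tendsto (fun n => Gᶜ.indicator (X n ⌊2 ^ n * t⌋₊) ω) atTop (𝓝 (g t)) := by
    intro ω
    by_cases hω : ω ∈ G
    · refine ⟨fun _ => 0, continuous_const, fun t => ?_⟩
      have h1 : ∀ n, Gᶜ.indicator (X n ⌊2 ^ n * t⌋₊) ω = 0 := fun n =>
        indicator_of_notMem (notMem_compl_iff.2 hω) _
      simp only [h1]
      exact tendsto_const_nhds
    · have h1 : GoodArr fun n k => X n k ω := by
        by_contra h2
        exact hω (hG h2)
      obtain ⟨g, hg, hg'⟩ := exists_lim h1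
      refine ⟨g, hg, fun t => ?_⟩
      have h2 : ∀ n, Gᶜ.indicator (X n ⌊2 ^ n * t⌋₊) ω = X n ⌊2 ^ n * t⌋₊ ω := fun n =>
        indicator_of_mem hω _
      simp only [h2]
      exact hg' t
  choose g hg1 hg2 using h
  have hm : ∀ t, Measurable fun ω => g ω t := fun t =>
    measurable_of_tendsto_metrizable (f := fun n => Gᶜ.indicator (X n ⌊2 ^ n * t⌋₊))
      (fun n => (hX.meas _ _).indicator hGm.compl) (tendsto_pi_nhds.2 fun ω => hg2 ω t)
  refine ⟨fun t ω => g ω t, law_limit hX hm fun t => ?_, hm, hg1⟩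
  have h3 : ∀ᵐ ω ∂Pg, ω ∉ G := by
    rw [ae_iff]
    simpa using hG0
  filter_upwards [h3] with ω hω
  have h2 : ∀ n, Gᶜ.indicator (X n ⌊2 ^ n * t⌋₊) ω = X n ⌊2 ^ n * t⌋₊ ω := fun n =>
    indicator_of_mem hω _
  have h4 := hg2 ω t
  simp only [h2] at h4
  exact h4

/-- piece CD-X5b: planar Brownian motion exists.
Proof: on `(ℕ → ℝ) × (ℕ → ℝ)` with `Pg.prod Pg`, `B₁ t p = B t p.1`, `B₂ t p = B t p.2`;
`HasLaw.comp`/`measurePreserving_fst`, `indepFun_prod`. -/
theorem exists_planar : ∃ (Ω : Type) (_ : MeasurableSpace Ω) (P : Measure Ω)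
    (B₁ B₂ : ℝ≥0 → Ω → ℝ), IsProbabilityMeasure P ∧ IsPlanarBM P B₁ B₂ := by
  obtain ⟨B, hB, hm, hc⟩ := exists_real
  refine ⟨(ℕ → ℝ) × (ℕ → ℝ), inferInstance, Pg.prod Pg, fun t p => B t p.1, fun t p => B t p.2,
    inferInstance, ?_⟩
  have hmB : Measurable fun (ω : ℕ → ℝ) (t : ℝ≥0) => B t ω := measurable_pi_lambda _ hm
  constructor
  · exact ⟨fun J => (hB.hasLaw J).comp
      ⟨measurable_fst.aemeasurable, measurePreserving_fst.map_eq⟩⟩
  · exact ⟨fun J => (hB.hasLaw J).comp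
      ⟨measurable_snd.aemeasurable, measurePreserving_snd.map_eq⟩⟩
  · exact indepFun_prod hmB hmB
  · exact fun t => (hm t).comp measurable_fst
  · exact fun t => (hm t).comp measurable_snd
  · exact fun p => hc p.1
  · exact fun p => hc p.2

end Pool.Agent.Helper83.CD
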